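import Mathlib
import Pool.Graph.R_seed8.TH875.Cm7

set_option autoImplicit false

/-!
A hypersurface through a closed subset, in general position with given hypersurfaces.
-/

namespace Pool.Agent.H93.GT

open MvPolynomial Finset Module
open Pool.Agent.TH875

variable {K : Type} [Field K] {n : ℕ}

/-- the points where all but one of the forms vanish and the last is `1` form a finite set -/
theorem finite_pts {m s D : ℕ} (hD : 1 ≤ D)
    (G : Fin m → MvPolynomial (Fin n) K) (g : Fin m → ℕ) (hG : ∀ k, (G k).IsHomogeneous (g k))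
    (y : Fin (s + 1) → MvPolynomial (Fin n) K) (hy : ∀ k, (y k).IsHomogeneous D)
    (h0 : ∀ (L : Type) [Field L] [Algebra K L] (x : Fin n → L), (∀ k, aeval x (G k) = 0) →
      (∀ k, aeval x (y k) = 0) → x = 0) (Ω : Type) [Field Ω] [Algebra K Ω] :
    {x : Fin n → Ω | (∀ k, aeval x (G k) = 0) ∧ (∀ k : Fin s, aeval x (y (Fin.castSucc k)) = 0) ∧
      aeval x (y (Fin.last s)) = 1}.Finite := by
  classical
  obtain ⟨E0, -, hgen⟩ := gen G g hG D hD y hy h0
  set V := {x : Fin n → Ω | (∀ k, aeval x (G k) = 0) ∧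
    (∀ k : Fin s, aeval x (y (Fin.castSucc k)) = 0) ∧ aeval x (y (Fin.last s)) = 1} with hV
  -- the values of all forms
  set W : Submodule K (MvPolynomial (Fin n) K) :=
    { carrier := {F | ∃ a : E0 → K, ∀ x ∈ V, aeval x F =
        ∑ β : E0, a β • aeval x (monomial β.1 1 : MvPolynomial (Fin n) K)}
      add_mem' := by
        rintro F F' ⟨a, ha⟩ ⟨a', ha'⟩
        refine ⟨a + a', fun x hx => ?_⟩
        rw [map_add, ha x hx, ha' x hx, ← Finset.sum_add_distrib]
        exact Finset.sum_congr rfl fun β _ => (add_smul _ _ _).symm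
      zero_mem' := ⟨0, fun x _ => by simp⟩
      smul_mem' := by
        rintro c F ⟨a, ha⟩
        refine ⟨c • a, fun x hx => ?_⟩
        rw [map_smul, ha x hx, Finset.smul_sum]
        exact Finset.sum_congr rfl fun β _ => (smul_assoc _ _ _).symm } with hW
  have hle : ∀ M, Wm (Ideal.span (Set.range G)) D y E0 M ≤ W := by
    intro M
    refine sup_le (Submodule.span_le.2 ?_) ?_
    · rintro _ ⟨t, ⟨ht1, ht2⟩, rfl⟩
      by_cases hz : ∀ k : Fin s, t.1 (Fin.castSucc k) = 0
      · refine ⟨fun β => if β.1 = t.2 then 1 else 0, fun x hx => ?_⟩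
        rw [Finset.sum_eq_single ⟨t.2, ht1⟩]
        · show _ = (if t.2 = t.2 then (1 : K) else 0) • _
          rw [if_pos rfl, one_smul, ym, map_mul, map_prod, Fin.prod_univ_castSucc]
          rw [Finset.prod_eq_one (fun k _ => by rw [hz k, pow_zero, map_one]), map_pow, hx.2.2,
            one_pow, one_mul, one_mul]
        · intro β _ hne
          show (if β.1 = t.2 then (1 : K) else 0) • _ = _
          rw [if_neg (fun h => hne (Subtype.ext h)), zero_smul]
        · intro h
          exact absurd (Finset.mem_univ _) h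
      · push Not at hz
        obtain ⟨k, hk⟩ := hz
        refine ⟨0, fun x hx => ?_⟩
        rw [ym, map_mul, map_prod, Finset.prod_eq_zero (Finset.mem_univ (Fin.castSucc k)) (by
          rw [map_pow, hx.2.1 k, zero_pow hk]), zero_mul]
        simp
    · intro F hF
      refine ⟨0, fun x hx => ?_⟩
      have h2 : Ideal.span (Set.range G) ≤
          RingHom.ker (aeval x : MvPolynomial (Fin n) K →ₐ[K] Ω) := by
        rw [Ideal.span_le]
        rintro _ ⟨k, rfl⟩
        exact hx.1 k
      have h3 : aeval x F = 0 := h2 hF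
      rw [h3]
      simp
  -- each coordinate is a root
  have hroot : ∀ b : Fin n, ∃ p : Polynomial K, p ≠ 0 ∧ ∀ x ∈ V, Polynomial.aeval (x b) p = 0 := by
    intro b
    have h1 : ∀ j : ℕ, ∃ a : E0 → K, ∀ x ∈ V, aeval x (X b ^ j : MvPolynomial (Fin n) K) =
        ∑ β : E0, a β • aeval x (monomial β.1 1 : MvPolynomial (Fin n) K) := fun j =>
      hle _ (hgen (1 * j) _ ((isHomogeneous_X K b).pow j))
    choose a ha using h1
    have h2 : ¬ LinearIndependent K (fun j : Fin (E0.card + 1) => a j) := by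
      intro hli
      have h3 := hli.fintype_card_le_finrank
      rw [Fintype.card_fin, Module.finrank_fintype_fun_eq_card, Fintype.card_coe] at h3
      omega
    rw [Fintype.not_linearIndependent_iff] at h2
    obtain ⟨c, hc1, j0, hc2⟩ := h2
    refine ⟨∑ j : Fin (E0.card + 1), Polynomial.monomial j (c j), ?_, fun x hx => ?_⟩
    · intro h3
      apply hc2
      have h4 := congrArg (fun p => Polynomial.coeff p j0) h3
      simp only [Polynomial.finsetSum_coeff, Polynomial.coeff_monomial,
        Polynomial.coeff_zero] at h4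
      rw [Finset.sum_eq_single j0] at h4
      · rwa [if_pos rfl] at h4
      · intro j _ hj
        rw [if_neg (fun h => hj (Fin.ext h))]
      · intro h
        exact absurd (Finset.mem_univ _) h
    · rw [map_sum]
      have h3 : ∀ j : Fin (E0.card + 1), Polynomial.aeval (x b) (Polynomial.monomial (j : ℕ) (c j)) =
          ∑ β : E0, (c j • a j) β • aeval x (monomial β.1 1 : MvPolynomial (Fin n) K) := by
        intro j
        rw [Polynomial.aeval_monomial]
        have h4 := ha j x hx
        rw [map_pow, aeval_X] at h4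
        rw [h4, ← Algebra.smul_def, Finset.smul_sum]
        exact Finset.sum_congr rfl fun β _ => (smul_assoc _ _ _).symm
      rw [Finset.sum_congr rfl fun j _ => h3 j, Finset.sum_comm]
      refine Finset.sum_eq_zero fun β _ => ?_
      rw [← Finset.sum_smul]
      have h5 : ∑ j : Fin (E0.card + 1), (c j • a j) β = 0 := by
        have := congrFun hc1 β
        rwa [Finset.sum_apply] at this
      rw [h5, zero_smul]
  choose p hp0 hp using hroot
  have hfin : (Set.pi Set.univ fun b : Fin n => {w : Ω | Polynomial.aeval w (p b) = 0}).Finite := by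
    refine Set.Finite.pi fun b => ?_
    have h1 : (p b).map (algebraMap K Ω) ≠ 0 :=
      (Polynomial.map_ne_zero_iff (algebraMap K Ω).injective).2 (hp0 b)
    refine ((p b).map (algebraMap K Ω)).roots.toFinset.finite_toSet.subset ?_
    intro w hw
    rw [Finset.mem_coe, Multiset.mem_toFinset, Polynomial.mem_roots h1, Polynomial.IsRoot.def,
      Polynomial.eval_map_algebraMap]
    exact hw
  refine hfin.subset fun x hx => ?_
  intro b _
  exact hp b x hx

/-- a set of forms without common zeros over the algebraic closure has no common zeros -/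
theorem transfer_zero {ι : Type} [Fintype ι] (P : ι → MvPolynomial (Fin n) K)
    (h : ∀ x : Fin n → AlgebraicClosure K, (∀ i, aeval x (P i) = 0) → x = 0)
    (L : Type) [Field L] [Algebra K L] (x : Fin n → L) (hx : ∀ i, aeval x (P i) = 0) : x = 0 := by
  classical
  set Ω := AlgebraicClosure K
  set Λ := AlgebraicClosure L
  let φ : Ω →ₐ[K] Λ := IsAlgClosed.lift
  set J : Ideal (MvPolynomial (Fin n) Ω) := Ideal.span (Set.range fun i => map (algebraMap K Ω) (P i))
  have hae : ∀ (y : Fin n → Ω) (i : ι), aeval y (P i) = eval y (map (algebraMap K Ω) (P i)) := by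
    intro y i
    rw [eval_map, aeval_def]
  have hrad : ∀ a : Fin n, ∃ N : ℕ, (X a : MvPolynomial (Fin n) Ω) ^ N ∈ J := by
    intro a
    have h1 : (X a : MvPolynomial (Fin n) Ω) ∈ J.radical := by
      rw [← MvPolynomial.vanishingIdeal_zeroLocus_eq_radical (K := Ω) J]
      intro y hy
      have h2 : y = 0 := by
        refine h y fun i => ?_
        rw [hae]
        exact hy _ (Ideal.subset_span ⟨i, rfl⟩)
      rw [h2]
      simp
    exact h1
  funext a
  obtain ⟨N, hN⟩ := hrad a
  have h2 : J ≤ RingHom.ker (eval₂Hom (φ : Ω →+* Λ) fun b => algebraMap L Λ (x b)) := by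
    rw [Ideal.span_le]
    rintro _ ⟨i, rfl⟩
    show eval₂ (φ : Ω →+* Λ) (fun b => algebraMap L Λ (x b)) (map (algebraMap K Ω) (P i)) = 0
    rw [eval₂_map]
    have h3 : (φ : Ω →+* Λ).comp (algebraMap K Ω) = algebraMap K Λ := φ.comp_algebraMap
    rw [h3]
    have h4 : eval₂ (algebraMap K Λ) (fun b => algebraMap L Λ (x b)) (P i) =
        algebraMap L Λ (aeval x (P i)) := by
      have h5 := eval₂_comp_left (algebraMap L Λ) (algebraMap K L) x (P i)
      rw [← IsScalarTower.algebraMap_eq] at h5
      rw [aeval_def, h5]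
      rfl
    rw [h4, hx i, map_zero]
  have h3 := h2 hN
  rw [RingHom.mem_ker, map_pow, coe_eval₂Hom, eval₂_X] at h3
  have h4 := eq_zero_of_pow_eq_zero h3
  exact (map_eq_zero (algebraMap L Λ)).1 h4

lemma aeval_smul_form {Ω : Type} [Field Ω] [Algebra K Ω] (x : Fin n → Ω) (w : Ω) (e : ℕ)
    (Q : MvPolynomial (Fin n) K) (hQ : Q.IsHomogeneous e) :
    aeval (w • x) Q = w ^ e * aeval x Q := by
  rw [aeval_def, aeval_def, eval₂_eq, eval₂_eq, Finset.mul_sum]
  refine Finset.sum_congr rfl fun a ha => ?_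
  have h1 : ∑ i ∈ a.support, a i = e := by
    have := hQ (mem_support_iff.1 ha)
    rw [← this, Finsupp.weight_apply, Finsupp.sum]
    simp
  have h2 : ∏ i ∈ a.support, (w • x) i ^ a i = w ^ e * ∏ i ∈ a.support, x i ^ a i := by
    rw [← h1, ← Finset.prod_pow_eq_pow_sum, ← Finset.prod_mul_distrib]
    refine Finset.prod_congr rfl fun i _ => ?_
    rw [Pi.smul_apply, smul_eq_mul, mul_pow]
  rw [h2]
  ring

/-- a combination of the forms `z` in general position with the forms `F` -/
theorem exists_avoid {m q s l D1 : ℕ} [Infinite K]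
    (G : Fin m → MvPolynomial (Fin n) K) (g : Fin m → ℕ) (hG : ∀ k, (G k).IsHomogeneous (g k))
    (F : Fin q → MvPolynomial (Fin n) K) (d : Fin q → ℕ) (hd : ∀ i, 1 ≤ d i)
    (hF : ∀ i, (F i).IsHomogeneous (d i)) (hsq : s + 1 ≤ q)
    (hgp : ∀ e : Fin (s + 1) ↪ Fin q, ∀ (L : Type) [Field L] [Algebra K L] (x : Fin n → L),
      (∀ k, aeval x (G k) = 0) → (∀ k, aeval x (F (e k)) = 0) → x = 0)
    (z : Fin l → MvPolynomial (Fin n) K) (hz : ∀ i, (z i).IsHomogeneous D1)
    (hW : ∀ e : Fin s ↪ Fin q, ∀ (L : Type) [Field L] [Algebra K L] (x : Fin n → L),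
      (∀ k, aeval x (G k) = 0) → (∀ k, aeval x (F (e k)) = 0) → (∀ i, aeval x (z i) = 0) →
        x = 0) :
    ∃ c : Fin l → K, ∀ e : Fin s ↪ Fin q, ∀ (L : Type) [Field L] [Algebra K L] (x : Fin n → L),
      (∀ k, aeval x (G k) = 0) → (∀ k, aeval x (F (e k)) = 0) →
        aeval x (∑ i, c i • z i) = 0 → x = 0 := by
  classical
  set Ω := AlgebraicClosure K
  set D : ℕ := ∏ i, d i with hDd
  have hD : 1 ≤ D := Nat.one_le_iff_ne_zero.2
    (Finset.prod_ne_zero_iff.2 fun i _ => (Nat.one_le_iff_ne_zero.1 (hd i)))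
  have hdD : ∀ i, d i ∣ D := fun i => Finset.dvd_prod_of_mem d (Finset.mem_univ i)
  have hpow : ∀ i, (F i ^ (D / d i)).IsHomogeneous D := fun i => by
    have := (hF i).pow (D / d i)
    rwa [Nat.mul_div_cancel' (hdD i)] at this
  have hDd0 : ∀ i, D / d i ≠ 0 := fun i => by
    have := Nat.div_pos (Nat.le_of_dvd hD (hdD i)) (hd i)
    omega
  -- the finite sets of points
  have hfin : ∀ e : Fin (s + 1) ↪ Fin q, {x : Fin n → Ω | (∀ k, aeval x (G k) = 0) ∧
      (∀ k : Fin s, aeval x (F (e (Fin.castSucc k)) ^ (D / d (e (Fin.castSucc k)))) = 0) ∧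
      aeval x (F (e (Fin.last s)) ^ (D / d (e (Fin.last s)))) = 1}.Finite := fun e =>
    finite_pts hD G g hG (fun k => F (e k) ^ (D / d (e k))) (fun k => hpow _) (by
      intro L _ _ x hx hx2
      refine hgp e L x hx fun k => ?_
      have h1 := hx2 k
      rw [map_pow] at h1
      exact eq_zero_of_pow_eq_zero h1) Ω
  set V : Finset (Fin n → Ω) := Finset.univ.biUnion fun e : Fin (s + 1) ↪ Fin q =>
    (hfin e).toFinset with hV
  have hzV : ∀ x ∈ V, (∑ i : Fin l, Polynomial.monomial (i : ℕ) (aeval x (z i)) :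
      Polynomial Ω) ≠ 0 := by
    intro x hx h0
    obtain ⟨e, -, he⟩ := Finset.mem_biUnion.1 hx
    rw [Set.Finite.mem_toFinset] at he
    obtain ⟨he1, he2, he3⟩ := he
    have h1 : x = 0 := by
      refine hW ((Fin.castSuccEmb).trans e) Ω x he1 (fun k => ?_) fun i => ?_
      · have h1 := he2 k
        rw [map_pow] at h1
        exact eq_zero_of_pow_eq_zero h1
      · have h4 := congrArg (fun p => Polynomial.coeff p i) h0
        simp only [Polynomial.finsetSum_coeff, Polynomial.coeff_monomial,
          Polynomial.coeff_zero] at h4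
        rw [Finset.sum_eq_single i] at h4
        · rwa [if_pos rfl] at h4
        · intro j _ hj
          rw [if_neg (fun h => hj (Fin.ext h))]
        · intro h
          exact absurd (Finset.mem_univ _) h
    have h2 : aeval x (F (e (Fin.last s))) = 0 := by
      have h3 := aeval_smul_form x 0 _ _ (hF (e (Fin.last s)))
      rw [zero_smul, zero_pow (by have := hd (e (Fin.last s)); omega), zero_mul] at h3
      rw [h1]
      exact h3
    rw [map_pow, h2, zero_pow (hDd0 _)] at he3
    exact zero_ne_one he3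
  -- a good parameter
  obtain ⟨t, ht⟩ : ∃ t : K, ∀ x ∈ V, Polynomial.eval (algebraMap K Ω t)
      (∑ i : Fin l, Polynomial.monomial (i : ℕ) (aeval x (z i)) : Polynomial Ω) ≠ 0 := by
    set Pr : Polynomial Ω := ∏ x ∈ V, (∑ i : Fin l, Polynomial.monomial (i : ℕ) (aeval x (z i)))
      with hPr
    have hPr0 : Pr ≠ 0 := Finset.prod_ne_zero_iff.2 hzV
    have h1 : (Set.range (algebraMap K Ω)).Infinite :=
      Set.infinite_range_of_injective (algebraMap K Ω).injective
    obtain ⟨w, ⟨t, rfl⟩, hw⟩ := h1.exists_notMem_finset Pr.roots.toFinset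
    refine ⟨t, fun x hx h0 => hw ?_⟩
    rw [Multiset.mem_toFinset, Polynomial.mem_roots hPr0, Polynomial.IsRoot.def, hPr,
      Polynomial.eval_prod]
    exact Finset.prod_eq_zero hx h0
  refine ⟨fun i => t ^ (i : ℕ), fun e L _ _ x hx1 hx2 hx3 => ?_⟩
  refine transfer_zero (ι := Fin m ⊕ Fin s ⊕ Unit) (Sum.elim G (Sum.elim (fun k => F (e k))
    (fun _ => ∑ i : Fin l, t ^ (i : ℕ) • z i))) ?_ L x (by
      rintro (k | k | k)
      · exact hx1 k
      · exact hx2 k
      · exact hx3)
  intro x hx
  have hy1 : ∀ k, aeval x (G k) = 0 := fun k => hx (Sum.inl k)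
  have hy2 : ∀ k, aeval x (F (e k)) = 0 := fun k => hx (Sum.inr (Sum.inl k))
  have hy3 : aeval x (∑ i : Fin l, t ^ (i : ℕ) • z i) = 0 := hx (Sum.inr (Sum.inr ()))
  by_contra hx0
  -- another index
  obtain ⟨i0, hi0⟩ : ∃ i0, i0 ∉ Set.range e := by
    by_contra hcon
    push Not at hcon
    have h1 : Function.Surjective e := fun i => hcon i
    have h2 := Fintype.card_le_of_surjective e h1
    rw [Fintype.card_fin, Fintype.card_fin] at h2
    omega
  have hinj : Function.Injective (Fin.snoc (α := fun _ => Fin q) e i0 : Fin (s + 1) → Fin q) := by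
    rw [Fin.snoc_injective_iff]
    exact ⟨e.injective, hi0⟩
  set e' : Fin (s + 1) ↪ Fin q := ⟨Fin.snoc (α := fun _ => Fin q) e i0, hinj⟩ with he'
  have he1 : ∀ k, e' (Fin.castSucc k) = e k := fun k => Fin.snoc_castSucc (α := fun _ => Fin q) _ _ _
  have he2 : e' (Fin.last s) = i0 := Fin.snoc_last (α := fun _ => Fin q) _ _
  have hFi : aeval x (F i0 ^ (D / d i0)) ≠ 0 := by
    intro h0
    rw [map_pow] at h0
    have h1 := eq_zero_of_pow_eq_zero h0
    apply hx0
    refine hgp e' Ω x hy1 fun k => ?_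
    refine Fin.lastCases ?_ (fun k => ?_) k
    · rw [he2]
      exact h1
    · rw [he1]
      exact hy2 k
  obtain ⟨w, hw⟩ := IsAlgClosed.exists_pow_nat_eq ((aeval x (F i0 ^ (D / d i0)))⁻¹)
    (n := D) (by omega)
  have hscale : ∀ (e : ℕ) (Q : MvPolynomial (Fin n) K), Q.IsHomogeneous e →
      aeval (w • x) Q = w ^ e * aeval x Q := fun e Q hQ => aeval_smul_form x w e Q hQ
  have hmem : w • x ∈ V := by
    rw [hV, Finset.mem_biUnion]
    refine ⟨e', Finset.mem_univ _, ?_⟩
    rw [Set.Finite.mem_toFinset]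
    refine ⟨fun k => ?_, fun k => ?_, ?_⟩
    · rw [hscale _ _ (hG k), hy1 k, mul_zero]
    · rw [he1, hscale _ _ (hpow _), map_pow, hy2 k, zero_pow (hDd0 _), mul_zero]
    · rw [he2, hscale _ _ (hpow _), hw, inv_mul_cancel₀ hFi]
  apply ht _ hmem
  rw [Polynomial.eval_finsetSum]
  have h1 : ∀ i : Fin l, Polynomial.eval (algebraMap K Ω t) (Polynomial.monomial (i : ℕ)
      (aeval (w • x) (z i))) = w ^ D1 * aeval x (t ^ (i : ℕ) • z i) := by
    intro i
    rw [Polynomial.eval_monomial, hscale _ _ (hz i), map_smul, Algebra.smul_def, map_pow]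
    ring
  rw [Finset.sum_congr rfl fun i _ => h1 i, ← Finset.mul_sum, ← map_sum, hy3, mul_zero]

end Pool.Agent.H93.GT
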