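import Mathlib
import Pool.Graph.R_seed8.TH875.Cm7
import Pool.Graph.R_seed8.W180.TP.Fmt

set_option autoImplicit false

/-!
Heights as finite sums, and bounds which are trivial outside a finite set of places.
-/

namespace Pool.Agent.H93.GT

open MvPolynomial Finset Module Height NumberField IsDedekindDomain
open Pool.Agent.W180.OP Pool.Agent.W180.TP Pool.Agent.TH875

variable {K : Type} [Field K] [NumberField K]

/-- the height as a sum over any large finite set of places -/
theorem height_split {n : ℕ} {x : Fin n → K} (hx : x ≠ 0) :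
    ∃ T0 : Finset (Pl K), ∀ T, T0 ⊆ T → logHeight x = ∑ v ∈ T, wt v * Real.log (nrm (av v) x) := by
  classical
  have hfin := nrm_support_finite hx
  refine ⟨Finset.univ.disjSum hfin.toFinset, fun T hT => ?_⟩
  have h1 := height_sum hx T.toRight (by
    intro v hv
    rw [Finset.mem_toRight]
    refine hT ?_
    rw [Finset.inr_mem_disjSum, Set.Finite.mem_toFinset]
    exact hv)
  have h2 : T.toLeft = Finset.univ := by
    ext w
    simp only [Finset.mem_toLeft, Finset.mem_univ, iff_true]
    exact hT (Finset.inl_mem_disjSum.2 (Finset.mem_univ _))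
  rw [h1]
  conv_rhs => rw [← Finset.toLeft_disjSum_toRight (u := T), Finset.sum_disjSum, h2]
  congr 1
  refine Finset.sum_congr rfl fun v _ => ?_
  show _ = 1 * Real.log (nrm (fv v) x)
  rw [one_mul]

lemma fv_add (v : HeightOneSpectrum (𝓞 K)) (a b : K) : fv v (a + b) ≤ max (fv v a) (fv v b) := by
  have := (FinitePlace.mk v).add_le a b
  exact this

lemma fv_sum {κ : Type} (s : Finset κ) (v : HeightOneSpectrum (𝓞 K)) (z : κ → K) (m : ℝ)
    (hm : 0 ≤ m) (h : ∀ i ∈ s, fv v (z i) ≤ m) : fv v (∑ i ∈ s, z i) ≤ m := by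
  classical
  induction s using Finset.induction_on with
  | empty =>
    rw [Finset.sum_empty, map_zero]
    exact hm
  | insert a s ha ih =>
    rw [Finset.sum_insert ha]
    refine (fv_add v _ _).trans (max_le (h a (Finset.mem_insert_self _ _)) ?_)
    exact ih fun i hi => h i (Finset.mem_insert_of_mem hi)

theorem good_set {ι : Type} [Finite ι] (c : ι → K) : ∃ S0 : Finset (Pl K),
    (∀ w : InfinitePlace K, Sum.inl w ∈ S0) ∧ ∀ v, v ∉ S0 → ∀ i, av v (c i) ≤ 1 := by
  classical
  have hfin : ({v : HeightOneSpectrum (𝓞 K) | ∃ i, ¬ fv v (c i) ≤ 1}).Finite := by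
    have h1 : (⋃ i : {i : ι // c i ≠ 0},
      {v : HeightOneSpectrum (𝓞 K) | fv v (c i) ≠ 1}).Finite :=
      Set.finite_iUnion fun i => fv_support_finite i.2
    refine h1.subset ?_
    rintro v ⟨i, hi⟩
    have h2 : c i ≠ 0 := by
      intro h0
      apply hi
      rw [h0, map_zero]
      exact zero_le_one
    refine Set.mem_iUnion.2 ⟨⟨i, h2⟩, ?_⟩
    intro h3
    exact hi h3.le
  refine ⟨Finset.univ.disjSum hfin.toFinset, fun w => Finset.inl_mem_disjSum.2
    (Finset.mem_univ _), ?_⟩
  rintro (w | v) hv i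
  · exact absurd (Finset.inl_mem_disjSum.2 (Finset.mem_univ _)) hv
  · by_contra hcon
    apply hv
    rw [Finset.inr_mem_disjSum, Set.Finite.mem_toFinset]
    exact ⟨i, hcon⟩

theorem comb_ub {κ : Type} [Fintype κ] (c : κ → K) : ∃ (S0 : Finset (Pl K)) (R : ℝ), 1 ≤ R ∧
    ∀ (v : Pl K) (z : κ → K) (m : ℝ), 0 ≤ m → (∀ s, av v (z s) ≤ m) →
      av v (∑ s, c s * z s) ≤ R * m ∧ (v ∉ S0 → av v (∑ s, c s * z s) ≤ m) := by
  classical
  obtain ⟨S0, hS1, hS2⟩ := good_set c
  have hR0 : ∀ v : Pl K, 0 ≤ ∑ s, av v (c s) := fun v => Finset.sum_nonneg fun _ _ =>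
    (av v).nonneg _
  have hR1 : 0 ≤ ∑ v ∈ S0, ∑ s, av v (c s) := Finset.sum_nonneg fun v _ => hR0 v
  refine ⟨S0, 1 + ∑ v ∈ S0, ∑ s, av v (c s), by linarith, fun v z m hm hz => ?_⟩
  have h1 : v ∉ S0 → av v (∑ s, c s * z s) ≤ m := by
    intro hv
    rcases v with w | v
    · exact absurd (hS1 w) hv
    · refine fv_sum _ _ _ _ hm fun i _ => ?_
      rw [map_mul]
      have h2 := hS2 _ hv i
      have h3 := hz i
      have h4 : fv v (c i) * fv v (z i) ≤ 1 * m := mul_le_mul h2 h3 ((fv v).nonneg _) zero_le_one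
      rwa [one_mul] at h4
  refine ⟨?_, h1⟩
  by_cases hv : v ∈ S0
  · have h2 : av v (∑ s, c s * z s) ≤ (∑ s, av v (c s)) * m := by
      refine ((av v).sum_le _ _).trans ?_
      rw [Finset.sum_mul]
      refine Finset.sum_le_sum fun s _ => ?_
      rw [map_mul]
      exact mul_le_mul_of_nonneg_left (hz s) ((av v).nonneg _)
    refine h2.trans (mul_le_mul_of_nonneg_right ?_ hm)
    have := Finset.single_le_sum (f := fun v : Pl K => ∑ s, av v (c s)) (fun v _ => hR0 v) hv
    linarith
  · refine (h1 hv).trans ?_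
    exact le_mul_of_one_le_left hm (by linarith)

lemma bc_self {n : ℕ} (F : MvPolynomial (Fin n) K) : bc K F = F := by
  unfold bc
  rw [Algebra.algebraMap_self]
  exact map_id F

lemma eval_eq_aeval {n : ℕ} (x : Fin n → K) (F : MvPolynomial (Fin n) K) :
    eval x F = aeval x F := by
  rw [aeval_eq_eval]

/-- the normalised size of a form is bounded, by `1` outside a finite set of places -/
theorem form_ub' {n d : ℕ} (F : MvPolynomial (Fin n) K) (hF : F.IsHomogeneous d) :
    ∃ (S0 : Finset (Pl K)) (R : ℝ), 1 ≤ R ∧ ∀ (v : Pl K) (x : Fin n → K), x ≠ 0 →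
      rho (av v) d F x ≤ R ∧ (v ∉ S0 → rho (av v) d F x ≤ 1) := by
  classical
  obtain ⟨S0, R, hR, h⟩ := comb_ub (fun β : F.support => F.coeff β.1)
  refine ⟨S0, R, hR, fun v x hx => ?_⟩
  have hpos : 0 < nrm (av v) x ^ d := pow_pos (nrm_pos (av v) hx) _
  have h1 : aeval x F = ∑ β : F.support, F.coeff β.1 *
      aeval x (monomial β.1 1 : MvPolynomial (Fin n) K) := by
    conv_lhs => rw [F.as_sum]
    rw [← Finset.sum_coe_sort, map_sum]
    refine Finset.sum_congr rfl fun β _ => ?_
    rw [aeval_monomial, aeval_monomial, map_one, one_mul]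
    rfl
  have h2 := h v (fun β => aeval x (monomial β.1 1 : MvPolynomial (Fin n) K))
    (nrm (av v) x ^ d) hpos.le (by
      intro β
      have hdeg : β.1.degree = d := by
        have := hF (mem_support_iff.1 β.2)
        exact (DFunLike.congr_fun (Finsupp.degree_eq_weight_one (σ := Fin n) (R := ℕ))
          β.1).trans this
      have h3 := rho_mono_le (K := K) (av v) hx β.1
      unfold rho at h3
      rwa [div_le_one (by rw [hdeg]; exact hpos), hdeg] at h3)
  rw [← h1] at h2
  unfold rho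
  exact ⟨(div_le_iff₀ hpos).2 h2.1, fun hv => (div_le_iff₀ hpos).2 (by
    rw [one_mul]
    exact h2.2 hv)⟩

end Pool.Agent.H93.GT
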