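import Mathlib

set_option autoImplicit false

/-!
A basis adapted to a subspace and to an order.
-/

namespace Pool.Agent.H93.GT

open Finset Module

variable {K V : Type*} [Field K] [AddCommGroup V] [Module K V]

/-- a unitriangular change of a linearly independent family -/
theorem indep_of_tri {N : ℕ} (P Q : Fin N → V) (hP : LinearIndependent K P)
    (h : ∀ i, P i - Q i ∈ Submodule.span K (P '' {j | j < i})) : LinearIndependent K Q := by
  classical
  have h1 : ∀ m : ℕ, ∀ i : Fin N, (i : ℕ) < m → P i ∈ Submodule.span K (Set.range Q) := by
    intro m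
    induction m with
    | zero => intro i hi; omega
    | succ m ih =>
      intro i hi
      have h2 : Submodule.span K (P '' {j | j < i}) ≤ Submodule.span K (Set.range Q) := by
        refine Submodule.span_le.2 ?_
        rintro _ ⟨j, hj, rfl⟩
        exact ih j (by
          have : (j : ℕ) < i := hj
          omega)
      have h4 : Q i ∈ Submodule.span K (Set.range Q) := Submodule.subset_span ⟨i, rfl⟩
      have h3 := Submodule.add_mem _ (h2 (h i)) h4
      rwa [sub_add_cancel] at h3
  have h2 : Submodule.span K (Set.range P) ≤ Submodule.span K (Set.range Q) := by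
    refine Submodule.span_le.2 ?_
    rintro _ ⟨i, rfl⟩
    exact h1 N i i.2
  rw [linearIndependent_iff_card_eq_finrank_span]
  have h3 := linearIndependent_iff_card_eq_finrank_span.1 hP
  have h4 : Module.Finite K (Submodule.span K (Set.range Q)) :=
    Module.Finite.span_of_finite K (Set.finite_range _)
  have h5 := Submodule.finrank_mono h2
  have h6 := finrank_range_le_card (R := K) Q
  unfold Set.finrank at *
  omega

theorem greedy [FiniteDimensional K V] {N : ℕ} (hN : finrank K V = N) (P : Fin N → V)
    (hP : LinearIndependent K P) (W : Submodule K V) :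
    ∃ (B : Finset (Fin N)) (Q : Fin N → V), B.card + finrank K W = N ∧
      (∀ i, i ∉ B → Q i ∈ W) ∧
      (∀ i, ∃ c : Fin N → K, (∀ j, c j ≠ 0 → j ≤ i) ∧ Q i = ∑ j, c j • P j) ∧
      LinearIndependent K (fun i : {i // i ∉ B} => Q i) := by
  classical
  set F : ℕ → Submodule K V := fun m => W ⊔ Submodule.span K (P '' {j | (j : ℕ) < m}) with hF
  set B : Finset (Fin N) := Finset.univ.filter fun i => P i ∉ F i with hB
  have hmono : ∀ m, F m ≤ F (m + 1) := by
    intro m
    refine sup_le_sup_left (Submodule.span_mono (Set.image_mono ?_)) _
    intro j hj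
    have : (j : ℕ) < m := hj
    show (j : ℕ) < m + 1
    omega
  have hfin : ∀ m, m ≤ N → finrank K W + (B.filter fun i : Fin N => (i : ℕ) < m).card ≤
      finrank K (F m) := by
    intro m
    induction m with
    | zero =>
      intro _
      have h1 : B.filter (fun i : Fin N => (i : ℕ) < 0) = ∅ := by
        ext i
        simp
      rw [h1, Finset.card_empty, add_zero]
      exact Submodule.finrank_mono le_sup_left
    | succ m ih =>
      intro hm
      have h1 := ih (by omega)
      set i : Fin N := ⟨m, by omega⟩ with hi
      by_cases hiB : i ∈ B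
      · have h2 : P i ∉ F m := (Finset.mem_filter.1 hiB).2
        have h3 : F m < F (m + 1) := by
          refine lt_of_le_of_ne (hmono m) fun h => h2 ?_
          rw [h]
          refine Submodule.mem_sup_right (Submodule.subset_span ⟨i, ?_, rfl⟩)
          show m < m + 1
          omega
        have h4 := Submodule.finrank_lt_finrank_of_lt h3
        have h5 : B.filter (fun i : Fin N => (i : ℕ) < m + 1) ⊆
            insert i (B.filter fun i : Fin N => (i : ℕ) < m) := by
          intro j hj
          rw [Finset.mem_filter] at hj
          rw [Finset.mem_insert, Finset.mem_filter]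
          by_cases hji : (j : ℕ) = m
          · left
            exact Fin.ext hji
          · right
            exact ⟨hj.1, by omega⟩
        have h6 := (Finset.card_le_card h5).trans (Finset.card_insert_le _ _)
        omega
      · have h5 : B.filter (fun i : Fin N => (i : ℕ) < m + 1) ⊆ B.filter fun i : Fin N => (i : ℕ) < m := by
          intro j hj
          rw [Finset.mem_filter] at hj ⊢
          refine ⟨hj.1, ?_⟩
          by_contra hcon
          apply hiB
          have : j = i := Fin.ext (by show (j : ℕ) = m; omega)
          rw [← this]
          exact hj.1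
        have h6 := Finset.card_le_card h5
        have h7 := Submodule.finrank_mono (hmono m)
        omega
  -- the vectors
  have hQ : ∀ i : Fin N, ∃ s ∈ Submodule.span K (P '' {j | j < i}), i ∉ B → P i - s ∈ W := by
    intro i
    by_cases hi : i ∈ B
    · exact ⟨0, zero_mem _, fun h => absurd hi h⟩
    · have h1 : P i ∈ F i := by
        by_contra hcon
        exact hi (Finset.mem_filter.2 ⟨Finset.mem_univ _, hcon⟩)
      obtain ⟨w, hw, s, hs, hws⟩ := Submodule.mem_sup.1 h1
      refine ⟨s, hs, fun _ => ?_⟩
      rw [← hws, add_sub_cancel_right]
      exact hw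
  choose s hs hsW using hQ
  have hind : LinearIndependent K (fun i => P i - s i) := by
    refine indep_of_tri P _ hP fun i => ?_
    rw [sub_sub_cancel]
    exact hs i
  have hind2 : LinearIndependent K (fun i : {i // i ∉ B} => P i - s i) :=
    hind.comp (fun i : {i // i ∉ B} => i.1) Subtype.val_injective
  refine ⟨B, fun i => P i - s i, ?_, fun i hi => hsW i hi, ?_, hind2⟩
  · have h1 := hfin N le_rfl
    have h2 : B.filter (fun i : Fin N => (i : ℕ) < N) = B := Finset.filter_true_of_mem fun i _ => i.2
    rw [h2] at h1
    have h3 := Submodule.finrank_le (F N)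
    have h4 : LinearIndependent K (fun i : {i // i ∉ B} => (⟨P i - s i, hsW i.1 i.2⟩ : W)) := by
      refine LinearIndependent.of_comp W.subtype ?_
      exact hind2
    have h5 := h4.fintype_card_le_finrank
    have h6 : Fintype.card {i // i ∉ B} = N - B.card := by
      rw [Fintype.card_subtype_compl, Fintype.card_fin, Fintype.card_coe]
    have h7 : B.card ≤ N := by
      have := Finset.card_le_univ B
      rwa [Fintype.card_fin] at this
    omega
  · intro i
    have h1 : P i - s i ∈ Submodule.span K (P '' {j | j ≤ i}) := by
      refine Submodule.sub_mem _ (Submodule.subset_span ⟨i, le_refl i, rfl⟩) ?_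
      exact Submodule.span_mono (Set.image_mono fun j (hj : j < i) => le_of_lt hj) (hs i)
    rw [Finsupp.mem_span_image_iff_linearCombination] at h1
    obtain ⟨l, hl, hl2⟩ := h1
    refine ⟨l, fun j hj => ?_, ?_⟩
    · exact (Finsupp.mem_supported K l).1 hl (Finsupp.mem_support_iff.2 hj)
    · show P i - s i = _
      rw [← hl2, Finsupp.linearCombination_apply, Finsupp.sum_fintype]
      intro i
      rw [zero_smul]

end Pool.Agent.H93.GT
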