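import Mathlib
import Pool.Agent.H93.GT.Lin
import Pool.Agent.H93.GT.Ht

set_option autoImplicit false

/-!
The choice of a basis of a subspace at one place.
-/

namespace Pool.Agent.H93.GT

open Finset Module Height NumberField IsDedekindDomain
open Pool.Agent.W180.OP (Pl av wt wt_nonneg)

variable {K : Type} [Field K] [NumberField K]

/-- for one family: a matrix and its comparison -/
theorem cho_one {V : Type} [AddCommGroup V] [Module K V] [FiniteDimensional K V] {N w : ℕ}
    (hN : finrank K V = N) (R : Fin N → V) (W : Submodule K V) (b1 : Basis (Fin w) K W) :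
    ∃ (B : Fin w → Fin w → K) (C : ℝ) (Z : Finset V), (Matrix.of B).det ≠ 0 ∧ 0 ≤ C ∧
      (∀ z ∈ Z, z ≠ 0) ∧ (LinearIndependent K R → ∀ (φ : V →ₗ[K] K), (∀ z ∈ Z, φ z ≠ 0) →
        ∀ (v : Pl K) (Λ : ℝ), (∀ k, - Real.log (av v (φ (R k))) ≤ Λ) →
        Monotone (fun k => av v (φ (R k))) →
        - ∑ k, Real.log (av v (φ (R k))) ≤
          - ∑ a, Real.log (av v (∑ j, B a j * φ (b1 j))) + ((N : ℝ) - w) * Λ + C) := by
  classical
  by_cases hR : LinearIndependent K R
  · obtain ⟨B, Q, hB, hQW, hQ, hind⟩ := greedy hN R hR W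
    have hw : finrank K W = w := by rw [finrank_eq_card_basis b1, Fintype.card_fin]
    have hcard : Fintype.card {i // i ∉ B} = w := by
      rw [Fintype.card_subtype_compl, Fintype.card_fin, Fintype.card_coe]
      omega
    set ψ : {i // i ∉ B} ≃ Fin w := Fintype.equivFinOfCardEq hcard with hψ
    set q : Fin w → W := fun a => ⟨Q (ψ.symm a), hQW _ (ψ.symm a).2⟩ with hq
    have hqi : LinearIndependent K q := by
      refine LinearIndependent.of_comp W.subtype ?_
      exact hind.comp ψ.symm ψ.symm.injective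
    choose c hc1 hc2 using hQ
    choose S0 Rr hRr hcomb using fun i => comb_ub (c i)
    refine ⟨fun a j => b1.repr (q a) j, ∑ i, Real.log (Rr i), Finset.univ.image R ∪
      Finset.univ.image (fun a => Q (ψ.symm a)), ?_, ?_, ?_, ?_⟩
    · have h1 : LinearIndependent K (fun a => b1.equivFun (q a)) :=
        hqi.map' b1.equivFun.toLinearMap (LinearEquiv.ker _)
      have h2 := (Matrix.linearIndependent_rows_iff_isUnit
        (A := Matrix.of fun a j => b1.repr (q a) j)).1 h1
      rw [Matrix.isUnit_iff_isUnit_det] at h2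
      exact h2.ne_zero
    · exact Finset.sum_nonneg fun i _ => Real.log_nonneg (hRr i)
    · intro z hz
      rcases Finset.mem_union.1 hz with h | h
      · obtain ⟨k, -, rfl⟩ := Finset.mem_image.1 h
        exact hR.ne_zero k
      · obtain ⟨a, -, rfl⟩ := Finset.mem_image.1 h
        exact hind.ne_zero (ψ.symm a)
    · intro _ φ hφ v Λ hΛ hmono
      have hRne : ∀ k, φ (R k) ≠ 0 := fun k => hφ _ (Finset.mem_union_left _
        (Finset.mem_image_of_mem _ (Finset.mem_univ k)))
      have hQne : ∀ i : {i // i ∉ B}, φ (Q i) ≠ 0 := fun i => by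
        refine hφ _ (Finset.mem_union_right _ ?_)
        rw [Finset.mem_image]
        exact ⟨ψ i, Finset.mem_univ _, by rw [Equiv.symm_apply_apply]⟩
      -- the values
      have hval : ∀ a, ∑ j, b1.repr (q a) j * φ (b1 j) = φ (Q (ψ.symm a)) := by
        intro a
        have h1 : (q a : V) = ∑ j, b1.repr (q a) j • (b1 j : V) := by
          conv_lhs => rw [← b1.sum_repr (q a)]
          rw [Submodule.coe_sum]
          exact Finset.sum_congr rfl fun j _ => Submodule.coe_smul _ _
        have h2 : φ (q a : V) = ∑ j, b1.repr (q a) j * φ (b1 j) := by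
          rw [h1, map_sum]
          exact Finset.sum_congr rfl fun j _ => by rw [map_smul, smul_eq_mul]
        rw [← h2]
      have hsum : ∑ a, Real.log (av v (∑ j, b1.repr (q a) j * φ (b1 j))) =
          ∑ i : {i // i ∉ B}, Real.log (av v (φ (Q i))) := by
        rw [← Equiv.sum_comp ψ.symm]
        exact Finset.sum_congr rfl fun a _ => by rw [hval]
      have hle : ∀ i : {i // i ∉ B}, Real.log (av v (φ (Q i))) ≤
          Real.log (av v (φ (R i))) + Real.log (Rr i) := by
        intro i
        have h1 : φ (Q i) = ∑ j, c i j * (if c i j = 0 then 0 else φ (R j)) := by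
          rw [hc2, map_sum]
          refine Finset.sum_congr rfl fun j _ => ?_
          rw [map_smul, smul_eq_mul]
          by_cases h : c i j = 0
          · rw [h, zero_mul, zero_mul]
          · rw [if_neg h]
        have h2 := (hcomb i v (fun j => if c i j = 0 then 0 else φ (R j)) (av v (φ (R i)))
          ((av v).nonneg _) (by
            intro j
            by_cases h : c i j = 0
            · simp only [if_pos h, map_zero]
              exact (av v).nonneg _
            · simp only [if_neg h]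
              exact hmono (hc1 i j h))).1
        rw [← h1] at h2
        have h3 := Real.log_le_log ((av v).pos_iff.2 (hQne i)) h2
        have h4 : Rr i ≠ 0 := by
          have := hRr i
          linarith
        rw [Real.log_mul h4 ((av v).pos_iff.2 (hRne i)).ne'] at h3
        linarith
      rw [hsum]
      have h5 : ∑ i : {i // i ∉ B}, Real.log (av v (φ (Q i))) ≤
          ∑ i : {i // i ∉ B}, (Real.log (av v (φ (R i))) + Real.log (Rr i)) :=
        Finset.sum_le_sum fun i _ => hle i
      rw [Finset.sum_add_distrib] at h5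
      have h6 : ∑ i : {i // i ∉ B}, Real.log (Rr i) ≤ ∑ i, Real.log (Rr i) := by
        have e : ∑ i : {i // i ∉ B}, Real.log (Rr i) =
            ∑ i ∈ Finset.univ.filter (fun i => i ∉ B), Real.log (Rr i) :=
          (Finset.sum_subtype (p := fun i => i ∉ B) (Finset.univ.filter fun i => i ∉ B)
            (by simp) (fun i => Real.log (Rr i))).symm
        rw [e]
        exact Finset.sum_le_sum_of_subset_of_nonneg (Finset.filter_subset _ _) fun i _ _ =>
          Real.log_nonneg (hRr i)
      have h7 : ∑ k, Real.log (av v (φ (R k))) = ∑ i : {i // i ∉ B}, Real.log (av v (φ (R i))) +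
          ∑ i ∈ B, Real.log (av v (φ (R i))) := by
        rw [← Finset.sum_filter_add_sum_filter_not Finset.univ (fun i => i ∉ B)]
        congr 1
        · exact Finset.sum_subtype (p := fun i => i ∉ B) (Finset.univ.filter fun i => i ∉ B)
            (by simp) _
        · refine Finset.sum_congr ?_ fun _ _ => rfl
          ext i
          simp
      have h8 : - ∑ i ∈ B, Real.log (av v (φ (R i))) ≤ ((N : ℝ) - w) * Λ := by
        have h9 : ∑ i ∈ B, - Real.log (av v (φ (R i))) ≤ ∑ _i ∈ B, Λ :=
          Finset.sum_le_sum fun i _ => hΛ i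
        rw [Finset.sum_const, nsmul_eq_mul, Finset.sum_neg_distrib] at h9
        have h10 : (B.card : ℝ) = (N : ℝ) - w := by
          rw [hw] at hB
          have h11 : (B.card : ℝ) + w = N := by exact_mod_cast hB
          linarith
        rwa [h10] at h9
      linarith
  · refine ⟨fun a j => (1 : Matrix (Fin w) (Fin w) K) a j, 0, ∅, ?_, le_rfl, by simp,
      fun h => absurd h hR⟩
    have : Matrix.of (fun a j => (1 : Matrix (Fin w) (Fin w) K) a j) = 1 := rfl
    rw [this, Matrix.det_one]
    exact one_ne_zero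

/-- for a finite set of vectors -/
theorem chosen {V : Type} [AddCommGroup V] [Module K V] [FiniteDimensional K V] {N w : ℕ}
    (hN : finrank K V = N) {τ : Type} [Fintype τ] (P : τ → V) (W : Submodule K V)
    (b1 : Basis (Fin w) K W) :
    ∃ (B : (Fin N → τ) × Equiv.Perm (Fin N) → Fin w → Fin w → K) (C : ℝ) (Z : Finset V),
      (∀ t, (Matrix.of (B t)).det ≠ 0) ∧ 0 ≤ C ∧
      (∀ z ∈ Z, z ≠ 0) ∧ ∀ (φ : V →ₗ[K] K), (∀ z ∈ Z, φ z ≠ 0) →
        ∀ (v : Pl K) (w' : Fin N → τ), LinearIndependent K (fun k => P (w' k)) →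
        ∀ (Λ : ℝ), (∀ k, - Real.log (av v (φ (P (w' k)))) ≤ Λ) → ∃ t,
        - ∑ k, Real.log (av v (φ (P (w' k)))) ≤
          - ∑ a, Real.log (av v (∑ j, B t a j * φ (b1 j))) + ((N : ℝ) - w) * Λ + C := by
  classical
  choose B C Z hdet hC0 hZ0 h using fun t : (Fin N → τ) × Equiv.Perm (Fin N) =>
    cho_one hN (fun k => P (t.1 (t.2 k))) W b1
  refine ⟨B, ∑ t, C t, Finset.univ.biUnion Z, hdet, Finset.sum_nonneg fun t _ => hC0 t, ?_, ?_⟩
  · intro z hz
    obtain ⟨t, -, ht⟩ := Finset.mem_biUnion.1 hz
    exact hZ0 t z ht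
  · intro φ hφ v w' hw' Λ hΛ
    set σ := Tuple.sort (fun k => av v (φ (P (w' k)))) with hσ
    have hm : Monotone (fun k => av v (φ (P (w' (σ k))))) :=
      Tuple.monotone_sort (fun k => av v (φ (P (w' k))))
    refine ⟨(w', σ), ?_⟩
    have h1 := h (w', σ) (hw'.comp σ σ.injective) φ (fun z hz => hφ z (Finset.mem_biUnion.2
      ⟨_, Finset.mem_univ _, hz⟩)) v Λ (fun k => hΛ (σ k)) hm
    have h2 : ∑ k, Real.log (av v (φ (P (w' (σ k))))) = ∑ k, Real.log (av v (φ (P (w' k)))) :=
      Equiv.sum_comp σ (fun k => Real.log (av v (φ (P (w' k)))))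
    have h3 : C (w', σ) ≤ ∑ t, C t := Finset.single_le_sum (f := C) (fun t _ => hC0 t)
      (Finset.mem_univ _)
    simp only at h1
    rw [h2] at h1
    linarith

theorem fin_basis {K V : Type} [Field K] [AddCommGroup V] [Module K V] [FiniteDimensional K V]
    {w : ℕ} (W : Submodule K V) (hw : finrank K W = w) : Nonempty (Basis (Fin w) K W) :=
  ⟨Module.finBasisOfFinrankEq K W hw⟩

/-- for a finite set of vectors, with the basis of the subspace -/
theorem chosen' {V : Type} [AddCommGroup V] [Module K V] [FiniteDimensional K V] {N w : ℕ}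
    (hN : finrank K V = N) {τ : Type} [Fintype τ] (P : τ → V) (W : Submodule K V)
    (hw : finrank K W = w) :
    ∃ (b1 : Fin w → V) (B : (Fin N → τ) × Equiv.Perm (Fin N) → Fin w → Fin w → K) (C : ℝ)
      (Z : Finset V), LinearIndependent K b1 ∧ (∀ a, b1 a ∈ W) ∧ w ≤ N ∧
      (∀ t, (Matrix.of (B t)).det ≠ 0) ∧ 0 ≤ C ∧
      (∀ z ∈ Z, z ≠ 0) ∧ ∀ (φ : V →ₗ[K] K), (∀ z ∈ Z, φ z ≠ 0) →
        ∀ (v : Pl K) (w' : Fin N → τ), LinearIndependent K (fun k => P (w' k)) →
        ∀ (Λ : ℝ), (∀ k, - Real.log (av v (φ (P (w' k)))) ≤ Λ) → ∃ t,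
        - ∑ k, Real.log (av v (φ (P (w' k)))) ≤
          - ∑ a, Real.log (av v (∑ j, B t a j * φ (b1 j))) + ((N : ℝ) - w) * Λ + C := by
  obtain ⟨b1⟩ := fin_basis W hw
  obtain ⟨B, C, Z, h1, h2, h3, h4⟩ := chosen hN P W b1
  refine ⟨fun a => (b1 a : V), B, C, Z, ?_, fun a => (b1 a).2, ?_, h1, h2, h3, h4⟩
  · exact b1.linearIndependent.map' W.subtype (Submodule.ker_subtype W)
  · rw [← hw, ← hN]
    exact Submodule.finrank_le W

end Pool.Agent.H93.GT
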