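import Mathlib

set_option autoImplicit false

/-!
From a family of linear inequalities to a power inequality.
-/

namespace Pool.Agent.H93.GT

theorem num_pow (p : ℕ) (hp : 1 ≤ p) (C0 κ0 C1 : ℝ) (hC0 : 0 ≤ C0) (hκ0 : 0 < κ0)
    (hC1 : 0 ≤ C1) : ∃ c : ℝ, 0 < c ∧ ∀ ε : ℝ, 0 < ε → ∃ KK : Finset ℝ, KK.Nonempty ∧
      (∀ κ ∈ KK, 0 < κ ∧ κ ≤ κ0) ∧ ∀ r h N Sg C' : ℝ, 0 ≤ h → 0 ≤ N → N ≤ C1 * (1 + h) →
      (∀ κ ∈ KK, Sg + κ * N ≤ (r + C0 * κ ^ (p + 1) + ε / 4) * h + C') →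
      0 ≤ (r + ε) * h + (C' + ε) - Sg ∧
      c * N ^ (p + 1) ≤ (1 + h) * ((r + ε) * h + (C' + ε) - Sg) ^ p := by
  classical
  -- the slope
  obtain ⟨b, hb0, hb1, hb2, hb3⟩ : ∃ b : ℝ, 0 < b ∧ b ≤ 1 ∧ b * (1 + C1) ≤ κ0 ∧
      C0 * b ≤ 1 / 2 := by
    refine ⟨min (κ0 / (1 + C1)) (1 / (2 * C0 + 1)), lt_min (by positivity) (by positivity),
      ?_, ?_, ?_⟩
    · refine (min_le_right _ _).trans ?_
      rw [div_le_one (by positivity)]
      linarith
    · have h1 := min_le_left (κ0 / (1 + C1)) (1 / (2 * C0 + 1))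
      rwa [le_div_iff₀ (by positivity)] at h1
    · have h1 := mul_le_mul_of_nonneg_left (min_le_right (κ0 / (1 + C1)) (1 / (2 * C0 + 1))) hC0
      refine h1.trans ?_
      rw [mul_one_div, div_le_iff₀ (by positivity)]
      linarith
  refine ⟨(b / 2) ^ p, by positivity, fun ε hε => ?_⟩
  -- the mesh
  obtain ⟨m0, hm0⟩ := exists_nat_gt (κ0 * (C1 + C0 * κ0 ^ p + 1) / (3 * ε / 4))
  have hm0' : 0 < (m0 : ℝ) := lt_of_le_of_lt (by positivity) hm0
  have hm1 : 0 < m0 := by exact_mod_cast hm0'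
  set δ : ℝ := κ0 / m0 with hδ
  have hδ0 : 0 < δ := by positivity
  have hδκ : δ ≤ κ0 := by
    rw [hδ, div_le_iff₀ hm0']
    have : (1 : ℝ) ≤ m0 := by exact_mod_cast hm1
    nlinarith
  have hδm : δ * m0 = κ0 := by
    rw [hδ]
    field_simp
  have hδ1 : δ * (C1 + C0 * κ0 ^ p + 1) ≤ 3 * ε / 4 := by
    rw [div_lt_iff₀ (by positivity)] at hm0
    rw [hδ, div_mul_eq_mul_div, div_le_iff₀ hm0']
    linarith
  have hκp : 0 ≤ C0 * κ0 ^ p := by positivity
  have hδC1 : δ * C1 ≤ 3 * ε / 4 := by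
    have : 0 ≤ δ * (C0 * κ0 ^ p + 1) := by positivity
    have e1 : δ * (C1 + C0 * κ0 ^ p + 1) = δ * C1 + δ * (C0 * κ0 ^ p + 1) := by ring
    linarith
  have hδC0 : C0 * δ ^ (p + 1) ≤ 3 * ε / 4 := by
    have h1 : δ ^ p ≤ κ0 ^ p := pow_le_pow_left₀ hδ0.le hδκ p
    have h2 : C0 * δ ^ (p + 1) ≤ δ * (C0 * κ0 ^ p) := by
      rw [pow_succ]
      have := mul_le_mul_of_nonneg_left h1 (mul_nonneg hC0 hδ0.le)
      linarith
    have : 0 ≤ δ * (C1 + 1) := by positivity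
    have e1 : δ * (C1 + C0 * κ0 ^ p + 1) = δ * (C0 * κ0 ^ p) + δ * (C1 + 1) := by ring
    linarith
  refine ⟨(Finset.Icc 1 m0).image fun i : ℕ => δ * i, ?_, ?_, ?_⟩
  · exact ⟨δ * (1 : ℕ), Finset.mem_image.2 ⟨1, Finset.mem_Icc.2 ⟨le_rfl, hm1⟩, rfl⟩⟩
  · intro κ hκ
    obtain ⟨i, hi, rfl⟩ := Finset.mem_image.1 hκ
    rw [Finset.mem_Icc] at hi
    have h1 : (1 : ℝ) ≤ i := by exact_mod_cast hi.1
    have h2 : (i : ℝ) ≤ m0 := by exact_mod_cast hi.2
    exact ⟨by positivity, by rw [← hδm]; exact mul_le_mul_of_nonneg_left h2 hδ0.le⟩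
  intro r h N Sg C' hh hN hNC hKK
  set Δ : ℝ := (r + ε) * h + (C' + ε) - Sg with hΔ
  have h1h : 0 < 1 + h := by linarith
  obtain ⟨t, ht⟩ : ∃ t, t = N / (1 + h) := ⟨_, rfl⟩
  have ht0 : 0 ≤ t := by rw [ht]; positivity
  have htN : N = t * (1 + h) := by rw [ht]; field_simp
  have htC : t ≤ C1 := by
    rw [ht, div_le_iff₀ h1h]
    exact hNC
  obtain ⟨s, hs0, hst⟩ : ∃ s : ℝ, 0 ≤ s ∧ s ^ p = t :=
    ⟨t ^ ((p : ℝ)⁻¹), Real.rpow_nonneg ht0 _, Real.rpow_inv_natCast_pow ht0 (by omega)⟩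
  have hsC : s ≤ 1 + C1 := by
    by_contra hcon
    push Not at hcon
    have h2 : 1 ≤ s := by linarith
    have h3 : s ≤ s ^ p := le_self_pow₀ h2 (by omega)
    rw [hst] at h3
    linarith
  set κs : ℝ := b * s with hκs
  have hκs0 : 0 ≤ κs := by positivity
  have hκsκ : κs ≤ κ0 := le_trans (mul_le_mul_of_nonneg_left hsC hb0.le) hb2
  -- the key bound
  have key : (1 + h) * (b / 2 * s ^ (p + 1)) ≤ Δ := by
    by_cases hsmall : κs < δ
    · have h2 := hKK (δ * (1 : ℕ)) (Finset.mem_image.2 ⟨1, Finset.mem_Icc.2 ⟨le_rfl, hm1⟩, rfl⟩)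
      rw [Nat.cast_one, mul_one] at h2
      have h3 : (1 + h) * (b / 2 * s ^ (p + 1)) ≤ δ * N := by
        have e1 : (1 + h) * (b / 2 * s ^ (p + 1)) = (κs / 2) * (s ^ p * (1 + h)) := by
          rw [hκs, pow_succ]
          ring
        rw [e1, hst, ← htN]
        exact mul_le_mul_of_nonneg_right (by linarith) hN
      have h4 : C0 * δ ^ (p + 1) * h ≤ 3 * ε / 4 * h := mul_le_mul_of_nonneg_right hδC0 hh
      have e2 : (r + C0 * δ ^ (p + 1) + ε / 4) * h = r * h + C0 * δ ^ (p + 1) * h + ε / 4 * h := by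
        ring
      have e3 : Δ = r * h + ε * h + C' + ε - Sg := by rw [hΔ]; ring
      rw [e2] at h2
      rw [e3]
      linarith
    · push Not at hsmall
      obtain ⟨i, hi1, hi2, hi3⟩ : ∃ i : ℕ, i ∈ Finset.Icc 1 m0 ∧ δ * i ≤ κs ∧ κs < δ * i + δ := by
        refine ⟨⌊κs / δ⌋₊, ?_, ?_, ?_⟩
        · rw [Finset.mem_Icc]
          constructor
          · rw [Nat.one_le_floor_iff, one_le_div hδ0]
            exact hsmall
          · apply Nat.floor_le_of_le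
            rw [div_le_iff₀ hδ0, mul_comm, hδm]
            exact hκsκ
        · have h2 := Nat.floor_le (div_nonneg hκs0 hδ0.le)
          rw [le_div_iff₀ hδ0] at h2
          linarith
        · have h2 := Nat.lt_floor_add_one (κs / δ)
          rw [div_lt_iff₀ hδ0] at h2
          linarith
      have h2 := hKK (δ * i) (Finset.mem_image.2 ⟨i, hi1, rfl⟩)
      set κ : ℝ := δ * i with hκ
      have hκ0' : 0 ≤ κ := by positivity
      have h3 : κ ^ (p + 1) ≤ κs ^ (p + 1) := pow_le_pow_left₀ hκ0' hi2 _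
      -- at the optimum
      have h4 : b / 2 * s ^ (p + 1) ≤ κs * t - C0 * κs ^ (p + 1) := by
        have e1 : κs * t - C0 * κs ^ (p + 1) = b * s ^ (p + 1) * (1 - C0 * b ^ p) := by
          rw [← hst, hκs, mul_pow, pow_succ, pow_succ]
          ring
        rw [e1]
        have h5 : C0 * b ^ p ≤ 1 / 2 := by
          refine le_trans (mul_le_mul_of_nonneg_left ?_ hC0) hb3
          calc b ^ p ≤ b ^ 1 := pow_le_pow_of_le_one hb0.le hb1 hp
            _ = b := pow_one b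
        have h6 : 0 ≤ b * s ^ (p + 1) := by positivity
        have h7 : b * s ^ (p + 1) * (1 / 2) ≤ b * s ^ (p + 1) * (1 - C0 * b ^ p) :=
          mul_le_mul_of_nonneg_left (by linarith) h6
        linarith
      have h5 : κs * t - δ * C1 ≤ κ * t := by
        have h6 : (κs - δ) * t ≤ κ * t := mul_le_mul_of_nonneg_right (by linarith) ht0
        have h7 : δ * t ≤ δ * C1 := mul_le_mul_of_nonneg_left htC hδ0.le
        have e1 : (κs - δ) * t = κs * t - δ * t := by ring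
        linarith
      have h6 : b / 2 * s ^ (p + 1) - 3 * ε / 4 ≤ κ * t - C0 * κ ^ (p + 1) := by
        have h7 := mul_le_mul_of_nonneg_left h3 hC0
        linarith
      have h7 := mul_le_mul_of_nonneg_left h6 h1h.le
      have h8 : 0 ≤ C0 * κ ^ (p + 1) := by positivity
      have e2 : (r + C0 * κ ^ (p + 1) + ε / 4) * h = r * h + C0 * κ ^ (p + 1) * h + ε / 4 * h := by
        ring
      have e3 : Δ = r * h + ε * h + C' + ε - Sg := by rw [hΔ]; ring
      have e4 : κ * N = (1 + h) * (κ * t) := by rw [htN]; ring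
      have e5 : (1 + h) * (b / 2 * s ^ (p + 1) - 3 * ε / 4) =
        (1 + h) * (b / 2 * s ^ (p + 1)) - 3 * ε / 4 - 3 * ε / 4 * h := by ring
      have e6 : (1 + h) * (κ * t - C0 * κ ^ (p + 1)) = (1 + h) * (κ * t) - C0 * κ ^ (p + 1) -
        C0 * κ ^ (p + 1) * h := by ring
      rw [e2, e4] at h2
      rw [e5, e6] at h7
      rw [e3]
      linarith
  have hΔ0 : 0 ≤ Δ := le_trans (by positivity) key
  refine ⟨hΔ0, ?_⟩
  have h2 := pow_le_pow_left₀ (by positivity) key p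
  have h3 := mul_le_mul_of_nonneg_left h2 h1h.le
  refine le_trans (le_of_eq ?_) h3
  rw [htN, mul_pow, ← hst, mul_pow, mul_pow, ← pow_mul, ← pow_mul, pow_succ (1 + h) p,
    mul_comm p (p + 1)]
  ring

end Pool.Agent.H93.GT
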