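import Mathlib
import Pool.Graph.R_seed8.TH875.Cm7

set_option autoImplicit false

/-!
The subspace of forms vanishing to order `k` along a subscheme, and its codimension.
-/

namespace Pool.Agent.H93.GT

open MvPolynomial Finset Module
open Pool.Agent.TH875

variable {K : Type} [Field K] {n : ℕ}

/-- the exponent of the first `ρ` forms -/
def lev {ρ σ : ℕ} (s : (Fin (ρ + σ) → ℕ) × (Fin n →₀ ℕ)) : ℕ :=
  ∑ j : Fin ρ, s.1 (Fin.castAdd σ j)

/-- the space of the classes of degree `M` vanishing to order `k` -/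
noncomputable def Wk (I : Ideal (MvPolynomial (Fin n) K)) {ρ σ : ℕ} (D : ℕ)
    (y : Fin (ρ + σ) → MvPolynomial (Fin n) K) (E : Finset (Fin n →₀ ℕ)) (M k : ℕ) :
    Submodule K (VM I M) :=
  Submodule.span K {v | ∃ s ∈ Sm D E (ρ + σ) M, k ≤ lev s ∧
    (v : MvPolynomial (Fin n) K ⧸ I) = Ideal.Quotient.mkₐ K I (ym y s)}

/-- the small level part of the index set -/
theorem card_low {ρ τ D : ℕ} (hD : 1 ≤ D) (E : Finset (Fin n →₀ ℕ)) (M k : ℕ) :
    ((Sm D E (ρ + (τ + 1)) M).filter fun s => lev s < k).card ≤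
      E.card * (k ^ ρ * (M + 1) ^ τ) := by
  classical
  have h1 : (E ×ˢ ((Fintype.piFinset fun _ : Fin ρ => Finset.range k) ×ˢ
      (Fintype.piFinset fun _ : Fin τ => Finset.range (M + 1)))).card =
      E.card * (k ^ ρ * (M + 1) ^ τ) := by
    rw [Finset.card_product, Finset.card_product, Fintype.card_piFinset, Fintype.card_piFinset]
    simp
  rw [← h1]
  refine Finset.card_le_card_of_injOn (fun s => (s.2, (fun j => s.1 (Fin.castAdd (τ + 1) j)),
    fun j => s.1 (Fin.natAdd ρ (Fin.castSucc j)))) ?_ ?_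
  · intro s hs
    rw [Finset.mem_coe, Finset.mem_filter, mem_Sm hD] at hs
    obtain ⟨⟨hs1, hs2⟩, hs3⟩ := hs
    rw [Finset.mem_coe, Finset.mem_product, Finset.mem_product, Fintype.mem_piFinset,
      Fintype.mem_piFinset]
    refine ⟨hs1, fun j => ?_, fun j => ?_⟩
    · rw [Finset.mem_range]
      refine lt_of_le_of_lt ?_ hs3
      exact Finset.single_le_sum (f := fun j : Fin ρ => s.1 (Fin.castAdd (τ + 1) j))
        (fun _ _ => Nat.zero_le _) (Finset.mem_univ j)
    · rw [Finset.mem_range]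
      have h3 : s.1 (Fin.natAdd ρ (Fin.castSucc j)) ≤ ∑ k, s.1 k :=
        Finset.single_le_sum (f := s.1) (fun _ _ => Nat.zero_le _) (Finset.mem_univ _)
      have h4 : ∑ k, s.1 k ≤ D * ∑ k, s.1 k := Nat.le_mul_of_pos_left _ hD
      unfold dg at hs2
      simp only
      omega
  · intro s hs s' hs' h
    rw [Finset.mem_coe, Finset.mem_filter, mem_Sm hD] at hs hs'
    obtain ⟨⟨_, hs2⟩, _⟩ := hs
    obtain ⟨⟨_, hs2'⟩, _⟩ := hs'
    simp only [Prod.mk.injEq] at h
    obtain ⟨h2, h3, h4⟩ := h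
    unfold dg at hs2 hs2'
    have h5 : D * ∑ k, s.1 k = D * ∑ k, s'.1 k := by rw [h2] at hs2; omega
    have h6 := Nat.eq_of_mul_eq_mul_left hD h5
    rw [Fin.sum_univ_add, Fin.sum_univ_castSucc, Fin.sum_univ_add, Fin.sum_univ_castSucc] at h6
    have h7 : ∑ i, s.1 (Fin.castAdd (τ + 1) i) = ∑ i, s'.1 (Fin.castAdd (τ + 1) i) :=
      Finset.sum_congr rfl fun i _ => congrFun h3 i
    have h8 : ∑ i : Fin τ, s.1 (Fin.natAdd ρ (Fin.castSucc i)) =
        ∑ i : Fin τ, s'.1 (Fin.natAdd ρ (Fin.castSucc i)) :=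
      Finset.sum_congr rfl fun i _ => congrFun h4 i
    refine Prod.ext (funext fun i => ?_) h2
    refine Fin.addCases (fun j => congrFun h3 j) (fun j => ?_) i
    refine Fin.lastCases ?_ (fun j => congrFun h4 j) j
    omega

/-- the codimension of `Wk` -/
theorem codim_Wk {ρ τ D : ℕ} (hD : 1 ≤ D) (I : Ideal (MvPolynomial (Fin n) K))
    (y : Fin (ρ + (τ + 1)) → MvPolynomial (Fin n) K) (E : Finset (Fin n →₀ ℕ)) (M k : ℕ)
    (hgen : ∀ F : MvPolynomial (Fin n) K, F.IsHomogeneous M → F ∈ Wm I D y E M)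
    (hy : ∀ j, (y j).IsHomogeneous D) :
    finrank K (VM I M) ≤ finrank K (Wk I D y E M k) + E.card * (k ^ ρ * (M + 1) ^ τ) := by
  classical
  have hfin := VM_finite I M
  -- the classes
  have hmem : ∀ s : {s // s ∈ Sm D E (ρ + (τ + 1)) M},
      Ideal.Quotient.mkₐ K I (ym y s.1) ∈ VM I M := by
    intro s
    have h1 := ym_hom hy s.1
    rw [((mem_Sm hD E M s.1).1 s.2).2] at h1
    exact ⟨_, h1, rfl⟩
  set c : {s // s ∈ Sm D E (ρ + (τ + 1)) M} → VM I M := fun s => ⟨_, hmem s⟩ with hc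
  set U : Submodule K (VM I M) := Submodule.span K
    (((Finset.univ.filter fun s : {s // s ∈ Sm D E (ρ + (τ + 1)) M} => lev s.1 < k).image c :
      Finset (VM I M)) : Set (VM I M)) with hU
  have htop : (Wk I D y E M k) ⊔ U = ⊤ := by
    rw [eq_top_iff]
    rintro ⟨_, ⟨F, hF, rfl⟩⟩ -
    have hF' := hgen F hF
    have key : ∀ F' ∈ Wm I D y E M, ∃ v ∈ (Wk I D y E M k) ⊔ U,
        (v : MvPolynomial (Fin n) K ⧸ I) = Ideal.Quotient.mkₐ K I F' := by
      intro F' hF'
      have h3 : Wm I D y E M ≤ (((Wk I D y E M k) ⊔ U).map (VM I M).subtype).comap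
          (Ideal.Quotient.mkₐ K I).toLinearMap := by
        refine sup_le (Submodule.span_le.2 ?_) ?_
        · rintro _ ⟨s, ⟨hs1, hs2⟩, rfl⟩
          have hs := (mem_Sm hD E M s).2 ⟨hs1, hs2⟩
          refine ⟨c ⟨s, hs⟩, ?_, rfl⟩
          rcases Nat.lt_or_ge (lev s) k with h | h
          · refine Submodule.mem_sup_right (Submodule.subset_span ?_)
            rw [Finset.mem_coe, Finset.mem_image]
            exact ⟨⟨s, hs⟩, Finset.mem_filter.2 ⟨Finset.mem_univ _, h⟩, rfl⟩
          · exact Submodule.mem_sup_left (Submodule.subset_span ⟨s, hs, h, rfl⟩)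
        · intro F' hF'
          have h4 : Ideal.Quotient.mkₐ K I F' = 0 := Ideal.Quotient.eq_zero_iff_mem.2 hF'
          show Ideal.Quotient.mkₐ K I F' ∈ ((Wk I D y E M k) ⊔ U).map (VM I M).subtype
          rw [h4]
          exact zero_mem _
      obtain ⟨v, hv, hv2⟩ := h3 hF'
      exact ⟨v, hv, hv2⟩
    obtain ⟨v, hv, hv2⟩ := key F hF'
    have e : v = ⟨_, ⟨F, hF, rfl⟩⟩ := Subtype.ext hv2
    rw [← e]
    exact hv
  have h1 := Submodule.finrank_sup_add_finrank_inf_eq (Wk I D y E M k) U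
  rw [htop, finrank_top] at h1
  have h2 : finrank K U ≤ E.card * (k ^ ρ * (M + 1) ^ τ) := by
    rw [hU]
    refine (finrank_span_finset_le_card _).trans (Finset.card_image_le.trans ?_)
    refine le_trans (le_of_eq ?_) (card_low hD E M k)
    rw [← Finset.card_map ⟨Subtype.val, Subtype.val_injective⟩]
    congr 1
    ext s
    simp only [Finset.mem_map, Finset.mem_filter, Finset.mem_univ, true_and,
      Function.Embedding.coeFn_mk, Subtype.exists, exists_and_left, exists_prop]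
    constructor
    · rintro ⟨a, ha, hb, rfl⟩
      exact ⟨hb, ha⟩
    · rintro ⟨ha, hb⟩
      exact ⟨s, hb, ha, rfl⟩
  omega

/-- an element of `Wk` is a combination of the generators -/
theorem Wk_comb {ρ σ D : ℕ} (I : Ideal (MvPolynomial (Fin n) K))
    (y : Fin (ρ + σ) → MvPolynomial (Fin n) K) (E : Finset (Fin n →₀ ℕ)) (M k : ℕ)
    {v : VM I M} (hv : v ∈ Wk I D y E M k) :
    ∃ c : {s // s ∈ (Sm D E (ρ + σ) M).filter fun s => k ≤ lev s} → K,
      (v : MvPolynomial (Fin n) K ⧸ I) = Ideal.Quotient.mkₐ K I (∑ s, c s • ym y s.1) := by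
  classical
  unfold Wk at hv
  induction hv using Submodule.span_induction with
  | mem v hv =>
    obtain ⟨s, hs, hk, hvs⟩ := hv
    refine ⟨fun s' => if s'.1 = s then 1 else 0, ?_⟩
    rw [hvs]
    congr 1
    rw [Finset.sum_eq_single ⟨s, Finset.mem_filter.2 ⟨hs, hk⟩⟩]
    · show _ = (if s = s then (1 : K) else 0) • ym y s
      rw [if_pos rfl, one_smul]
    · intro s' _ hne
      show (if s'.1 = s then (1 : K) else 0) • ym y s'.1 = 0
      rw [if_neg, zero_smul]
      intro h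
      exact hne (Subtype.ext h)
    · intro h
      exact absurd (Finset.mem_univ _) h
  | zero => exact ⟨0, by simp⟩
  | add v w _ _ hv hw =>
    obtain ⟨c, hc⟩ := hv
    obtain ⟨c', hc'⟩ := hw
    refine ⟨c + c', ?_⟩
    rw [Submodule.coe_add, hc, hc', ← map_add, ← Finset.sum_add_distrib]
    congr 1
    exact Finset.sum_congr rfl fun s _ => (add_smul _ _ _).symm
  | smul a v _ hv =>
    obtain ⟨c, hc⟩ := hv
    refine ⟨a • c, ?_⟩
    rw [Submodule.coe_smul, hc, ← map_smul, Finset.smul_sum]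
    congr 1
    exact Finset.sum_congr rfl fun s _ => (smul_assoc _ _ _).symm

/-- many monomials -/
theorem card_many {r D m q : ℕ} (hD : 1 ≤ D) (hq : r * q ≤ m) :
    (q + 1) ^ r ≤ (Sm (n := n) D {0} (r + 1) (D * m)).card := by
  classical
  have h1 : (Fintype.piFinset fun _ : Fin r => Finset.range (q + 1)).card = (q + 1) ^ r := by
    rw [Fintype.card_piFinset]
    simp
  rw [← h1]
  refine Finset.card_le_card_of_injOn (fun a => (Fin.snoc (α := fun _ => ℕ) a (m - ∑ j, a j), 0))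
    ?_ ?_
  · intro a ha
    rw [Finset.mem_coe, Fintype.mem_piFinset] at ha
    rw [Finset.mem_coe, mem_Sm hD]
    refine ⟨Finset.mem_singleton_self _, ?_⟩
    unfold dg
    simp only [map_zero, add_zero]
    congr 1
    rw [Fin.sum_univ_castSucc]
    simp only [Fin.snoc_castSucc, Fin.snoc_last]
    have h2 : ∑ j, a j ≤ ∑ _j : Fin r, q := Finset.sum_le_sum fun j _ => by
      have := ha j
      rw [Finset.mem_range] at this
      omega
    rw [Finset.sum_const, Finset.card_univ, Fintype.card_fin, smul_eq_mul] at h2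
    omega
  · intro a _ a' _ h
    have h2 := congrArg (fun z => z.1) h
    simp only at h2
    funext j
    have h3 := congrFun h2 (Fin.castSucc j)
    rwa [Fin.snoc_castSucc, Fin.snoc_castSucc] at h3

theorem VM_many {r D m q : ℕ} (hD : 1 ≤ D) (hq : r * q ≤ m) (I : Ideal (MvPolynomial (Fin n) K))
    (y : Fin (r + 1) → MvPolynomial (Fin n) K) (hy : ∀ j, (y j).IsHomogeneous D)
    (halg : AlgebraicIndependent K (fun k => Ideal.Quotient.mkₐ K I (y k))) :
    (q + 1) ^ r ≤ finrank K (VM I (D * m)) := by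
  classical
  have hfin := VM_finite I (D * m)
  refine (card_many (n := n) hD hq).trans ?_
  have hE := ind_zero I y halg
  have h1 : LinearIndependent K (fun s : {s : (Fin (r + 1) → ℕ) × (Fin n →₀ ℕ) |
      s.2 ∈ ({0} : Finset (Fin n →₀ ℕ))} => Ideal.Quotient.mkₐ K I (ym y s.1)) := hE
  have hmem : ∀ s : {s // s ∈ Sm D {0} (r + 1) (D * m)},
      Ideal.Quotient.mkₐ K I (ym y s.1) ∈ VM I (D * m) := by
    intro s
    have h1 := ym_hom hy s.1
    rw [((mem_Sm hD {0} (D * m) s.1).1 s.2).2] at h1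
    exact ⟨_, h1, rfl⟩
  have h2 : LinearIndependent K (fun s : {s // s ∈ Sm D {0} (r + 1) (D * m)} =>
      (⟨_, hmem s⟩ : VM I (D * m))) := by
    refine LinearIndependent.of_comp (VM I (D * m)).subtype ?_
    have h2 := h1.comp (fun s : {s // s ∈ Sm D {0} (r + 1) (D * m)} =>
      (⟨s.1, ((mem_Sm hD {0} (D * m) s.1).1 s.2).1⟩ : {s : (Fin (r + 1) → ℕ) × (Fin n →₀ ℕ) |
        s.2 ∈ ({0} : Finset (Fin n →₀ ℕ))})) (by
        intro s s' h
        exact Subtype.ext (congrArg (fun z => z.1) h))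
    exact h2
  have h3 := h2.fintype_card_le_finrank
  rwa [Fintype.card_coe] at h3

end Pool.Agent.H93.GT
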