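import Mathlib
import Pool.Agent.H93.GT.Ht
import Pool.Agent.H93.GT.Wk

set_option autoImplicit false

/-!
Local estimates.
-/

namespace Pool.Agent.H93.GT

open MvPolynomial Finset Module Height NumberField IsDedekindDomain
open Pool.Agent.W180.OP Pool.Agent.W180.TP Pool.Agent.TH875

variable {K : Type} [Field K] {n : ℕ}

lemma rho_ym {r D : ℕ} (f : AbsoluteValue K ℝ) (y : Fin r → MvPolynomial (Fin n) K)
    (s : (Fin r → ℕ) × (Fin n →₀ ℕ)) (x : Fin n → K) :
    rho f (dg D s) (ym y s) x = (∏ k, rho f D (y k) x ^ s.1 k) *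
      rho f s.2.degree (monomial s.2 1 : MvPolynomial (Fin n) K) x := by
  unfold rho ym dg
  rw [map_mul, map_mul, map_prod, map_prod, pow_add, mul_div_mul_comm]
  congr 1
  simp only [div_pow]
  rw [Finset.prod_div_distrib]
  congr 1
  · exact Finset.prod_congr rfl fun k _ => by rw [map_pow, map_pow]
  · rw [pow_mul, ← Finset.prod_pow_eq_pow_sum]

/-- a monomial of high level is small where the first forms are small -/
theorem ym_small {ρ σ D M k : ℕ} (hD : 1 ≤ D) (f : AbsoluteValue K ℝ)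
    (y : Fin (ρ + σ) → MvPolynomial (Fin n) K) {x : Fin n → K} (hx : x ≠ 0) (R μ : ℝ)
    (hR : 1 ≤ R) (hμ : 0 ≤ μ) (hμR : μ ≤ R)
    (h1 : ∀ j : Fin ρ, rho f D (y (Fin.castAdd σ j)) x ≤ R * μ)
    (h2 : ∀ j : Fin σ, rho f D (y (Fin.natAdd ρ j)) x ≤ R)
    (s : (Fin (ρ + σ) → ℕ) × (Fin n →₀ ℕ)) (hs : dg D s = M) (hk : k ≤ lev s) :
    rho f M (ym y s) x ≤ R ^ (2 * M) * μ ^ k := by
  have hsum : ∑ j, s.1 j ≤ M := by
    have h4 : ∑ k, s.1 k ≤ D * ∑ k, s.1 k := Nat.le_mul_of_pos_left _ hD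
    unfold dg at hs
    omega
  have hlev : lev s ≤ M := by
    refine le_trans ?_ hsum
    unfold lev
    rw [Fin.sum_univ_add]
    exact Nat.le_add_right _ _
  have hR0 : 0 ≤ R := by linarith
  rw [← hs, rho_ym f y s x, hs, Fin.prod_univ_add]
  have e1 : ∏ j : Fin ρ, rho f D (y (Fin.castAdd σ j)) x ^ s.1 (Fin.castAdd σ j) ≤
      R ^ (∑ j : Fin ρ, s.1 (Fin.castAdd σ j)) * μ ^ lev s := by
    unfold lev
    rw [← Finset.prod_pow_eq_pow_sum, ← Finset.prod_pow_eq_pow_sum, ← Finset.prod_mul_distrib]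
    refine Finset.prod_le_prod (fun j _ => pow_nonneg (rho_nonneg _ _ _ _) _) fun j _ => ?_
    rw [← mul_pow]
    exact pow_le_pow_left₀ (rho_nonneg _ _ _ _) (h1 j) _
  have e2 : ∏ j : Fin σ, rho f D (y (Fin.natAdd ρ j)) x ^ s.1 (Fin.natAdd ρ j) ≤
      R ^ (∑ j : Fin σ, s.1 (Fin.natAdd ρ j)) := by
    rw [← Finset.prod_pow_eq_pow_sum]
    refine Finset.prod_le_prod (fun j _ => pow_nonneg (rho_nonneg _ _ _ _) _) fun j _ => ?_
    exact pow_le_pow_left₀ (rho_nonneg _ _ _ _) (h2 j) _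
  have e3 := rho_mono_le (K := K) f hx s.2
  have p1 : 0 ≤ ∏ j : Fin σ, rho f D (y (Fin.natAdd ρ j)) x ^ s.1 (Fin.natAdd ρ j) :=
    Finset.prod_nonneg fun j _ => pow_nonneg (rho_nonneg _ _ _ _) _
  have p2 : 0 ≤ R ^ (∑ j : Fin ρ, s.1 (Fin.castAdd σ j)) * μ ^ lev s := by positivity
  have e4 : (∏ j : Fin ρ, rho f D (y (Fin.castAdd σ j)) x ^ s.1 (Fin.castAdd σ j)) *
      (∏ j : Fin σ, rho f D (y (Fin.natAdd ρ j)) x ^ s.1 (Fin.natAdd ρ j)) ≤
      R ^ (∑ j, s.1 j) * μ ^ lev s := by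
    refine (mul_le_mul e1 e2 p1 p2).trans (le_of_eq ?_)
    rw [Fin.sum_univ_add, pow_add]
    ring
  have e5 : R ^ (∑ j, s.1 j) * μ ^ lev s ≤ R ^ (2 * M) * μ ^ k := by
    have h5 : μ ^ lev s ≤ R ^ (lev s - k) * μ ^ k := by
      conv_lhs => rw [← Nat.sub_add_cancel hk, pow_add]
      exact mul_le_mul_of_nonneg_right (pow_le_pow_left₀ hμ hμR _) (pow_nonneg hμ _)
    calc R ^ (∑ j, s.1 j) * μ ^ lev s ≤ R ^ (∑ j, s.1 j) * (R ^ (lev s - k) * μ ^ k) :=
          mul_le_mul_of_nonneg_left h5 (pow_nonneg hR0 _)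
      _ = R ^ (∑ j, s.1 j + (lev s - k)) * μ ^ k := by rw [pow_add]; ring
      _ ≤ R ^ (2 * M) * μ ^ k := by
          refine mul_le_mul_of_nonneg_right (pow_le_pow_right₀ hR ?_) (pow_nonneg hμ _)
          omega
  calc _ ≤ (R ^ (∑ j, s.1 j) * μ ^ lev s) * 1 := by
        refine mul_le_mul e4 e3 (rho_nonneg _ _ _ _) (by positivity)
    _ ≤ _ := by rw [mul_one]; exact e5

/-- the cost of one element -/
theorem cost {q r D M : ℕ} (hD : 1 ≤ D) (f : AbsoluteValue K ℝ)
    (F : Fin q → MvPolynomial (Fin n) K) (d : Fin q → ℕ) (hd : ∀ i, 1 ≤ d i)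
    (hdD : ∀ i, d i ∣ D) (e : Fin r ↪ Fin q) (y : Fin r → MvPolynomial (Fin n) K)
    (hy : ∀ k, y k = F (e k) ^ (D / d (e k)))
    {x : Fin n → K} (hx : x ≠ 0) (hFx : ∀ i, aeval x (F i) ≠ 0)
    (s : (Fin r → ℕ) × (Fin n →₀ ℕ)) (hs : dg D s = M) (hsx : aeval x (ym y s) ≠ 0) :
    - Real.log (rho f M (ym y s) x) ≤ M * (∑ i, max 0 (- Real.log (rho f (d i) (F i) x)) +
      ∑ j, max 0 (- Real.log (rho f 1 (X j : MvPolynomial (Fin n) K) x))) := by
  classical
  have hyx : ∀ k, aeval x (y k) ≠ 0 := by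
    intro k
    rw [hy, map_pow]
    exact pow_ne_zero _ (hFx _)
  have hmon : aeval x (monomial s.2 1 : MvPolynomial (Fin n) K) ≠ 0 := by
    intro h0
    apply hsx
    rw [ym, map_mul, h0, mul_zero]
  have h2 := rho_pos f s.2.degree _ hx hmon
  have h4 : ∀ k, 0 < rho f D (y k) x := fun k => rho_pos f D _ hx (hyx k)
  have hsumM : D * ∑ k, s.1 k + s.2.degree = M := hs
  -- the first factor
  have e1 : ∀ k, - Real.log (rho f D (y k) x ^ s.1 k) ≤
      M * max 0 (- Real.log (rho f (d (e k)) (F (e k)) x)) := by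
    intro k
    have h5 : rho f D (y k) x = rho f (d (e k)) (F (e k)) x ^ (D / d (e k)) := by
      have h1 := rho_pow (K := K) f (d (e k)) (D / d (e k)) (F (e k)) x
      rw [Nat.mul_div_cancel' (hdD (e k)), ← hy] at h1
      exact h1
    rw [h5, ← pow_mul, Real.log_pow]
    have h6 : (D / d (e k)) * s.1 k ≤ M := by
      have h7 : D / d (e k) ≤ D := Nat.div_le_self _ _
      have h8 : s.1 k ≤ ∑ k, s.1 k := Finset.single_le_sum (f := s.1)
        (fun _ _ => Nat.zero_le _) (Finset.mem_univ k)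
      have h9 := Nat.mul_le_mul h7 h8
      omega
    have h7 : (((D / d (e k)) * s.1 k : ℕ) : ℝ) ≤ M := by exact_mod_cast h6
    have h8 := le_max_left 0 (- Real.log (rho f (d (e k)) (F (e k)) x))
    have h9 := le_max_right 0 (- Real.log (rho f (d (e k)) (F (e k)) x))
    calc -((((D / d (e k)) * s.1 k : ℕ) : ℝ) * Real.log (rho f (d (e k)) (F (e k)) x)) =
        (((D / d (e k)) * s.1 k : ℕ) : ℝ) * (- Real.log (rho f (d (e k)) (F (e k)) x)) := by ring
      _ ≤ (((D / d (e k)) * s.1 k : ℕ) : ℝ) *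
          max 0 (- Real.log (rho f (d (e k)) (F (e k)) x)) :=
          mul_le_mul_of_nonneg_left h9 (Nat.cast_nonneg _)
      _ ≤ _ := mul_le_mul_of_nonneg_right h7 h8
  -- the second factor
  have e2 : - Real.log (rho f s.2.degree (monomial s.2 1 : MvPolynomial (Fin n) K) x) ≤
      M * ∑ j, max 0 (- Real.log (rho f 1 (X j : MvPolynomial (Fin n) K) x)) := by
    have h5 : rho f s.2.degree (monomial s.2 1 : MvPolynomial (Fin n) K) x =
        ∏ j, rho f 1 (X j : MvPolynomial (Fin n) K) x ^ s.2 j := by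
      unfold rho
      rw [aeval_monomial, map_one, one_mul, Finsupp.prod_fintype _ _ (fun _ => pow_zero _),
        map_prod, Finsupp.degree_eq_sum, ← Finset.prod_pow_eq_pow_sum, ← Finset.prod_div_distrib]
      refine Finset.prod_congr rfl fun j _ => ?_
      rw [map_pow, aeval_X, pow_one, div_pow]
    have h6 : ∀ j, rho f 1 (X j : MvPolynomial (Fin n) K) x ^ s.2 j ≠ 0 := by
      intro j h0
      apply h2.ne'
      rw [h5]
      exact Finset.prod_eq_zero (Finset.mem_univ j) h0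
    rw [h5, Real.log_prod fun j _ => h6 j, ← Finset.sum_neg_distrib, Finset.mul_sum]
    refine Finset.sum_le_sum fun j _ => ?_
    rw [Real.log_pow]
    have h7 : s.2 j ≤ M := by
      have : s.2 j ≤ s.2.degree := Finsupp.le_degree j s.2
      omega
    have h8 : ((s.2 j : ℕ) : ℝ) ≤ M := by exact_mod_cast h7
    have h9 := le_max_left 0 (- Real.log (rho f 1 (X j : MvPolynomial (Fin n) K) x))
    have h10 := le_max_right 0 (- Real.log (rho f 1 (X j : MvPolynomial (Fin n) K) x))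
    calc -(((s.2 j : ℕ) : ℝ) * Real.log (rho f 1 (X j : MvPolynomial (Fin n) K) x)) =
        ((s.2 j : ℕ) : ℝ) * (- Real.log (rho f 1 (X j : MvPolynomial (Fin n) K) x)) := by ring
      _ ≤ ((s.2 j : ℕ) : ℝ) * max 0 (- Real.log (rho f 1 (X j : MvPolynomial (Fin n) K) x)) :=
          mul_le_mul_of_nonneg_left h10 (Nat.cast_nonneg _)
      _ ≤ _ := mul_le_mul_of_nonneg_right h8 h9
  rw [← hs, rho_ym f y s x, hs, Real.log_mul (Finset.prod_ne_zero_iff.2 fun k _ =>
    (pow_pos (h4 k) _).ne') h2.ne', Real.log_prod fun k _ => (pow_pos (h4 k) _).ne']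
  have e3 : - ∑ k, Real.log (rho f D (y k) x ^ s.1 k) ≤
      M * ∑ i, max 0 (- Real.log (rho f (d i) (F i) x)) := by
    rw [← Finset.sum_neg_distrib]
    refine (Finset.sum_le_sum fun k _ => e1 k).trans ?_
    rw [← Finset.mul_sum]
    refine mul_le_mul_of_nonneg_left ?_ (Nat.cast_nonneg _)
    have h5 := Finset.sum_map Finset.univ e (fun i => max 0 (- Real.log (rho f (d i) (F i) x)))
    rw [← h5]
    exact Finset.sum_le_sum_of_subset_of_nonneg (Finset.subset_univ _) fun i _ _ =>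
      le_max_left _ _
  rw [mul_add]
  linarith

/-- a basis of monomials -/
theorem mono_basis (I : Ideal (MvPolynomial (Fin n) K)) (M N : ℕ) (hN : finrank K (VM I M) = N) :
    ∃ (b : Basis (Fin N) K (VM I M)) (β : Fin N → (Fin n →₀ ℕ)), ∀ j, (β j).degree = M ∧
      (b j : MvPolynomial (Fin n) K ⧸ I) = Ideal.Quotient.mkₐ K I (monomial (β j) 1) := by
  classical
  have hfin := VM_finite I M
  have hmem : ∀ β : {β : Fin n →₀ ℕ // β.degree = M},
      Ideal.Quotient.mkₐ K I (monomial β.1 1) ∈ VM I M := fun β =>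
    ⟨monomial β.1 1, isHomogeneous_monomial _ β.2, rfl⟩
  set m : {β : Fin n →₀ ℕ // β.degree = M} → VM I M := fun β => ⟨_, hmem β⟩ with hm
  have hspan : Submodule.span K (Set.range m) = ⊤ := by
    rw [eq_top_iff]
    rintro ⟨_, ⟨F, hF, rfl⟩⟩ -
    have hF' : F.IsHomogeneous M := hF
    have e1 : (⟨_, ⟨F, hF, rfl⟩⟩ : VM I M) = ∑ β : F.support, F.coeff β.1 •
        m ⟨β.1, (by
          have := hF' (mem_support_iff.1 β.2)
          exact (DFunLike.congr_fun (Finsupp.degree_eq_weight_one (σ := Fin n) (R := ℕ))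
            β.1).trans this)⟩ := by
      apply Subtype.ext
      rw [Submodule.coe_sum]
      show Ideal.Quotient.mkₐ K I F = _
      conv_lhs => rw [F.as_sum]
      rw [← Finset.sum_coe_sort, map_sum]
      refine Finset.sum_congr rfl fun β _ => ?_
      rw [Submodule.coe_smul, hm]
      simp only
      rw [← map_smul, smul_monomial, smul_eq_mul, mul_one]
    rw [e1]
    exact Submodule.sum_mem _ fun β _ => Submodule.smul_mem _ _ (Submodule.subset_span ⟨_, rfl⟩)
  obtain ⟨b, hb1, hb2, hb3⟩ := exists_linearIndependent K (Set.range m)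
  rw [hspan] at hb2
  set B : Basis b K (VM I M) := Basis.mk hb3 (by
    rw [Subtype.range_coe]
    exact hb2.ge) with hB
  have hfb : Finite b := Module.Finite.finite_basis B
  have := Fintype.ofFinite b
  have hcard : Fintype.card b = N := by
    rw [← hN, finrank_eq_card_basis B]
  set ψ := Fintype.equivFinOfCardEq hcard with hψ
  have h1 : ∀ j : Fin N, ∃ β : {β : Fin n →₀ ℕ // β.degree = M}, m β = (ψ.symm j).1 := fun j =>
    hb1 (ψ.symm j).2
  choose β hβ using h1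
  refine ⟨B.reindex ψ, fun j => (β j).1, fun j => ⟨(β j).2, ?_⟩⟩
  rw [Basis.reindex_apply, hB, Basis.mk_apply, ← hβ j]

end Pool.Agent.H93.GT
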