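import Mathlib
import Pool.Agent.H93.GT.Loc

set_option autoImplicit false

/-!
The height of the point given by forms vanishing to high order along a subscheme.
-/

namespace Pool.Agent.H93.GT

open MvPolynomial Finset Module Height NumberField IsDedekindDomain
open Pool.Agent.W180.OP Pool.Agent.W180.TP Pool.Agent.TH875

variable {K : Type} [Field K] [NumberField K] {n : ℕ}

lemma one_le_prodR {ι : Type*} (s : Finset ι) (f : ι → ℝ) (h : ∀ i, 1 ≤ f i) :
    1 ≤ ∏ i ∈ s, f i := by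
  classical
  induction s using Finset.induction_on with
  | empty => rw [Finset.prod_empty]
  | insert a s ha ih =>
    rw [Finset.prod_insert ha]
    exact one_le_mul_of_one_le_of_one_le (h a) ih

lemma le_prodR {ι : Type*} [Fintype ι] (f : ι → ℝ) (h : ∀ i, 1 ≤ f i) (j : ι) :
    f j ≤ ∏ i, f i := by
  classical
  rw [← Finset.mul_prod_erase Finset.univ f (Finset.mem_univ j)]
  exact le_mul_of_one_le_right (by linarith [h j]) (one_le_prodR _ _ h)

/-- the size of the forms `H` -/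
noncomputable def mu {ρ : ℕ} (f : AbsoluteValue K ℝ) (h : Fin ρ → ℕ)
    (H : Fin ρ → MvPolynomial (Fin n) K) (x : Fin n → K) : ℝ := ⨆ j, rho f (h j) (H j) x

omit [NumberField K] in
lemma le_mu {ρ : ℕ} (f : AbsoluteValue K ℝ) (h : Fin ρ → ℕ)
    (H : Fin ρ → MvPolynomial (Fin n) K) (x : Fin n → K) (j : Fin ρ) :
    rho f (h j) (H j) x ≤ mu f h H x :=
  le_ciSup (f := fun j => rho f (h j) (H j) x) (Set.finite_range _).bddAbove j

omit [NumberField K] in
lemma mu_nonneg {ρ : ℕ} (f : AbsoluteValue K ℝ) (h : Fin ρ → ℕ)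
    (H : Fin ρ → MvPolynomial (Fin n) K) (x : Fin n → K) : 0 ≤ mu f h H x :=
  Real.iSup_nonneg fun _ => rho_nonneg f _ _ _

omit [NumberField K] in
lemma mu_le {ρ : ℕ} (f : AbsoluteValue K ℝ) (h : Fin ρ → ℕ)
    (H : Fin ρ → MvPolynomial (Fin n) K) (x : Fin n → K) {R : ℝ} (hR : 0 ≤ R)
    (hle : ∀ j, rho f (h j) (H j) x ≤ R) : mu f h H x ≤ R := by
  rcases Nat.eq_zero_or_pos ρ with h0 | h0
  · subst h0
    unfold mu
    rw [Real.iSup_of_isEmpty]
    exact hR
  · have : Nonempty (Fin ρ) := ⟨⟨0, h0⟩⟩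
    exact ciSup_le hle

/-- the bounds at all places -/
theorem out1 {ρ σ l D : ℕ} (h : Fin l → ℕ) (hh : ∀ j, 1 ≤ h j)
    (H : Fin l → MvPolynomial (Fin n) K) (hH : ∀ j, (H j).IsHomogeneous (h j))
    (hhD : ∀ j, h j ∣ D) (hD : 1 ≤ D) (y : Fin (ρ + σ) → MvPolynomial (Fin n) K)
    (hy : ∀ j, (y j).IsHomogeneous D) (cf : Fin ρ → Fin l → K)
    (hyH : ∀ j : Fin ρ, y (Fin.castAdd σ j) = ∑ i, cf j i • H i ^ (D / h i)) :
    ∃ (S0 : Finset (Pl K)) (R : ℝ), 1 ≤ R ∧ ∀ (v : Pl K) (x : Fin n → K), x ≠ 0 →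
      mu (av v) h H x ≤ R ∧
      (∀ j : Fin ρ, rho (av v) D (y (Fin.castAdd σ j)) x ≤ R * mu (av v) h H x) ∧
      (∀ j : Fin σ, rho (av v) D (y (Fin.natAdd ρ j)) x ≤ R) ∧
      (v ∉ S0 → mu (av v) h H x ≤ 1 ∧
        (∀ j : Fin ρ, rho (av v) D (y (Fin.castAdd σ j)) x ≤ mu (av v) h H x) ∧
        (∀ j : Fin σ, rho (av v) D (y (Fin.natAdd ρ j)) x ≤ 1)) := by
  classical
  choose S1 R1 hR1 h1 using fun j => form_ub' (H j) (hH j)
  choose S2 R2 hR2 h2 using fun j => form_ub' (y j) (hy j)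
  choose S3 R3 hR3 h3 using fun j => comb_ub (cf j)
  have hp1 : ∀ j, R1 j ≤ ∏ j, R1 j := le_prodR R1 hR1
  have hp2 : ∀ j, R2 j ≤ ∏ j, R2 j := le_prodR R2 hR2
  have hp3 : ∀ j, R3 j ≤ ∏ j, R3 j := le_prodR R3 hR3
  set A : ℝ := ∏ j, R1 j with hA
  set B : ℝ := ∏ j, R2 j with hB
  set B3 : ℝ := ∏ j, R3 j with hB3
  have hA1 : 1 ≤ A := one_le_prodR _ _ hR1
  have hB1 : 1 ≤ B := one_le_prodR _ _ hR2
  have hB31 : 1 ≤ B3 := one_le_prodR _ _ hR3
  have hAD : 1 ≤ A ^ (D + 1) := one_le_pow₀ hA1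
  have hAD3 : 1 ≤ A ^ (D + 1) * B3 := one_le_mul_of_one_le_of_one_le hAD hB31
  refine ⟨(Finset.univ.biUnion S1) ∪ (Finset.univ.biUnion S2) ∪ (Finset.univ.biUnion S3),
    A ^ (D + 1) * B3 * B, one_le_mul_of_one_le_of_one_le hAD3 hB1, fun v x hx => ?_⟩
  have hμ0 := mu_nonneg (av v) h H x
  have hnx := nrm_pos (av v) hx
  have hμA : mu (av v) h H x ≤ A := mu_le _ _ _ _ (by linarith) fun j =>
    ((h1 j v x hx).1).trans (hp1 j)
  have hpow : ∀ j : Fin l, rho (av v) D (H j ^ (D / h j)) x =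
      rho (av v) (h j) (H j) x * rho (av v) (h j) (H j) x ^ (D / h j - 1) := by
    intro j
    have h3 := rho_pow (K := K) (av v) (h j) (D / h j) (H j) x
    rw [Nat.mul_div_cancel' (hhD j)] at h3
    have h4 : 1 ≤ D / h j := Nat.div_pos (Nat.le_of_dvd hD (hhD j)) (hh j)
    rw [h3]
    conv_lhs => rw [← Nat.sub_add_cancel h4, pow_succ]
    ring
  have hρ0 : ∀ j, 0 ≤ rho (av v) (h j) (H j) x := fun j => rho_nonneg _ _ _ _
  have hval : ∀ j : Fin ρ, aeval x (y (Fin.castAdd σ j)) =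
      ∑ i, cf j i * aeval x (H i ^ (D / h i)) := by
    intro j
    rw [hyH, map_sum]
    exact Finset.sum_congr rfl fun i _ => by rw [map_smul, smul_eq_mul]
  refine ⟨?_, ?_, ?_, ?_⟩
  · refine hμA.trans ?_
    have h3 : A ≤ A ^ (D + 1) := le_self_pow₀ hA1 (Nat.succ_ne_zero _)
    refine h3.trans ?_
    calc A ^ (D + 1) ≤ A ^ (D + 1) * B3 := le_mul_of_one_le_right (by linarith) hB31
      _ ≤ A ^ (D + 1) * B3 * B := le_mul_of_one_le_right (by linarith) hB1
  · intro j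
    have h4 : ∀ i, av v (aeval x (H i ^ (D / h i))) ≤
        (mu (av v) h H x * A ^ (D + 1)) * nrm (av v) x ^ D := by
      intro i
      have h5 : rho (av v) D (H i ^ (D / h i)) x ≤ mu (av v) h H x * A ^ (D + 1) := by
        rw [hpow i]
        refine mul_le_mul (le_mu _ _ _ _ i) ?_ (pow_nonneg (hρ0 i) _) hμ0
        refine (pow_le_pow_left₀ (hρ0 i) (((h1 i v x hx).1).trans (hp1 i)) _).trans ?_
        refine pow_le_pow_right₀ hA1 ?_
        have := Nat.div_le_self D (h i)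
        omega
      unfold rho at h5
      rwa [div_le_iff₀ (pow_pos hnx _)] at h5
    have h5 := (h3 j v (fun i => aeval x (H i ^ (D / h i))) _ (by positivity) h4).1
    rw [← hval j] at h5
    unfold rho
    rw [div_le_iff₀ (pow_pos hnx _)]
    refine h5.trans ?_
    have h6 : 0 ≤ A ^ (D + 1) * mu (av v) h H x * nrm (av v) x ^ D := by positivity
    calc R3 j * (mu (av v) h H x * A ^ (D + 1) * nrm (av v) x ^ D) ≤
        B3 * (mu (av v) h H x * A ^ (D + 1) * nrm (av v) x ^ D) :=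
          mul_le_mul_of_nonneg_right (hp3 j) (by positivity)
      _ = (A ^ (D + 1) * B3 * mu (av v) h H x * nrm (av v) x ^ D) * 1 := by ring
      _ ≤ (A ^ (D + 1) * B3 * mu (av v) h H x * nrm (av v) x ^ D) * B :=
          mul_le_mul_of_nonneg_left hB1 (by positivity)
      _ = _ := by ring
  · intro j
    refine (((h2 _ v x hx).1).trans (hp2 _)).trans ?_
    exact le_mul_of_one_le_left (by linarith) hAD3
  · intro hv
    rw [Finset.mem_union, Finset.mem_union, not_or, not_or, Finset.mem_biUnion,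
      Finset.mem_biUnion, Finset.mem_biUnion] at hv
    obtain ⟨⟨hv1, hv2⟩, hv3⟩ := hv
    push Not at hv1 hv2 hv3
    have h6 : ∀ j, rho (av v) (h j) (H j) x ≤ 1 := fun j =>
      (h1 j v x hx).2 (hv1 j (Finset.mem_univ j))
    refine ⟨mu_le _ _ _ _ zero_le_one h6, fun j => ?_, fun j =>
      (h2 _ v x hx).2 (hv2 _ (Finset.mem_univ _))⟩
    have h4 : ∀ i, av v (aeval x (H i ^ (D / h i))) ≤ mu (av v) h H x * nrm (av v) x ^ D := by
      intro i
      have h5 : rho (av v) D (H i ^ (D / h i)) x ≤ mu (av v) h H x := by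
        rw [hpow i]
        refine le_trans ?_ (le_mu _ _ _ _ i)
        exact mul_le_of_le_one_right (hρ0 i) (pow_le_one₀ (hρ0 i) (h6 i))
      unfold rho at h5
      rwa [div_le_iff₀ (pow_pos hnx _)] at h5
    have h5 := (h3 j v (fun i => aeval x (H i ^ (D / h i))) _ (by positivity) h4).2
      (hv3 j (Finset.mem_univ j))
    rw [← hval j] at h5
    unfold rho
    rw [div_le_iff₀ (pow_pos hnx _)]
    exact h5

open Classical in
/-- forms of high level: all places -/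
theorem out2 {ρ σ l D M k w : ℕ} (h : Fin l → ℕ) (hh : ∀ j, 1 ≤ h j)
    (H : Fin l → MvPolynomial (Fin n) K) (hH : ∀ j, (H j).IsHomogeneous (h j))
    (hhD : ∀ j, h j ∣ D) (hD : 1 ≤ D) (y : Fin (ρ + σ) → MvPolynomial (Fin n) K)
    (hy : ∀ j, (y j).IsHomogeneous D) (cf : Fin ρ → Fin l → K)
    (hyH : ∀ j : Fin ρ, y (Fin.castAdd σ j) = ∑ i, cf j i • H i ^ (D / h i))
    (E : Finset (Fin n →₀ ℕ))
    (c : Fin w → {s // s ∈ (Sm D E (ρ + σ) M).filter fun s => k ≤ lev s} → K) :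
    ∃ (S0 : Finset (Pl K)) (C : ℝ), 0 ≤ C ∧ ∀ (v : Pl K) (x : Fin n → K), x ≠ 0 →
      (∃ j, aeval x (H j) ≠ 0) → (fun a => ∑ s, c a s * aeval x (ym y s.1)) ≠ 0 →
      Real.log (mu (av v) h H x) ≤ (if v ∈ S0 then C else 0) ∧
      Real.log (nrm (av v) (fun a => ∑ s, c a s * aeval x (ym y s.1))) ≤
        M * Real.log (nrm (av v) x) + k * Real.log (mu (av v) h H x) +
          (if v ∈ S0 then C else 0) := by
  classical
  obtain ⟨S0, R, hR, h0⟩ := out1 h hh H hH hhD hD y hy cf hyH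
  choose S1 R1 hR1 h1 using fun a => comb_ub (c a)
  have hp1 : ∀ j, R1 j ≤ ∏ j, R1 j := le_prodR R1 hR1
  set A : ℝ := ∏ j, R1 j with hA
  have hA1 : 1 ≤ A := one_le_prodR _ _ hR1
  have hR2 : 1 ≤ R ^ (2 * M + 1) := one_le_pow₀ hR
  have hAR : 1 ≤ A * R ^ (2 * M + 1) := one_le_mul_of_one_le_of_one_le hA1 hR2
  refine ⟨S0 ∪ Finset.univ.biUnion S1, Real.log (A * R ^ (2 * M + 1)), Real.log_nonneg hAR,
    fun v x hx hHx hyx => ?_⟩
  obtain ⟨h2, h3, h4, h5⟩ := h0 v x hx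
  have hμ : 0 < mu (av v) h H x := by
    obtain ⟨j, hj⟩ := hHx
    exact (rho_pos (av v) (h j) (H j) hx hj).trans_le (le_mu _ _ _ _ j)
  have hnx := nrm_pos (av v) hx
  have hny := nrm_pos (av v) hyx
  have hRR : R ≤ A * R ^ (2 * M + 1) := by
    have h6 : R ≤ R ^ (2 * M + 1) := le_self_pow₀ hR (Nat.succ_ne_zero _)
    exact h6.trans (le_mul_of_one_le_left (by linarith) hA1)
  -- the pointwise bound
  have hym : ∀ s : {s // s ∈ (Sm D E (ρ + σ) M).filter fun s => k ≤ lev s},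
      av v (aeval x (ym y s.1)) ≤ (R ^ (2 * M) * mu (av v) h H x ^ k) * nrm (av v) x ^ M := by
    intro s
    have hs := Finset.mem_filter.1 s.2
    have h6 := ym_small (M := M) (k := k) hD (av v) y hx R _ hR hμ.le h2 h3 h4 s.1
      ((mem_Sm hD E M s.1).1 hs.1).2 hs.2
    unfold rho at h6
    rwa [div_le_iff₀ (pow_pos hnx _)] at h6
  have hb1 : nrm (av v) (fun a => ∑ s, c a s * aeval x (ym y s.1)) ≤
      (A * R ^ (2 * M + 1)) * (mu (av v) h H x ^ k * nrm (av v) x ^ M) := by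
    refine nrm_le (by positivity) fun a => ?_
    have h7 := (h1 a v (fun s => aeval x (ym y s.1)) _ (by positivity) hym).1
    refine h7.trans ?_
    have h8 : R1 a * (R ^ (2 * M)) ≤ A * R ^ (2 * M + 1) := by
      refine mul_le_mul (hp1 a) (pow_le_pow_right₀ hR (Nat.le_succ _)) (by positivity)
        (by linarith)
    calc R1 a * (R ^ (2 * M) * mu (av v) h H x ^ k * nrm (av v) x ^ M) =
        (R1 a * (R ^ (2 * M))) * (mu (av v) h H x ^ k * nrm (av v) x ^ M) := by ring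
      _ ≤ _ := mul_le_mul_of_nonneg_right h8 (by positivity)
  by_cases hv : v ∈ S0 ∪ Finset.univ.biUnion S1
  · rw [if_pos hv]
    refine ⟨Real.log_le_log hμ (h2.trans hRR), ?_⟩
    have h6 := Real.log_le_log hny hb1
    have h7 : Real.log (mu (av v) h H x ^ k * nrm (av v) x ^ M) =
        k * Real.log (mu (av v) h H x) + M * Real.log (nrm (av v) x) := by
      rw [Real.log_mul (by positivity) (by positivity), Real.log_pow, Real.log_pow]
    have h8 : A * R ^ (2 * M + 1) ≠ 0 := by linarith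
    rw [Real.log_mul h8 (by positivity), h7] at h6
    linarith
  · rw [if_neg hv]
    rw [Finset.mem_union, not_or, Finset.mem_biUnion] at hv
    obtain ⟨hv1, hv2⟩ := hv
    push Not at hv2
    obtain ⟨h6, h7, h8⟩ := h5 hv1
    refine ⟨Real.log_nonpos hμ.le h6, ?_⟩
    have hym' : ∀ s : {s // s ∈ (Sm D E (ρ + σ) M).filter fun s => k ≤ lev s},
        av v (aeval x (ym y s.1)) ≤ mu (av v) h H x ^ k * nrm (av v) x ^ M := by
      intro s
      have hs := Finset.mem_filter.1 s.2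
      have h9 := ym_small (M := M) (k := k) hD (av v) y hx 1 _ le_rfl hμ.le h6
        (fun j => by rw [one_mul]; exact h7 j) h8 s.1
        ((mem_Sm hD E M s.1).1 hs.1).2 hs.2
      rw [one_pow, one_mul] at h9
      unfold rho at h9
      rwa [div_le_iff₀ (pow_pos hnx _)] at h9
    have hb2 : nrm (av v) (fun a => ∑ s, c a s * aeval x (ym y s.1)) ≤
        mu (av v) h H x ^ k * nrm (av v) x ^ M := by
      refine nrm_le (by positivity) fun a => ?_
      exact (h1 a v (fun s => aeval x (ym y s.1)) _ (by positivity) hym').2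
        (hv2 a (Finset.mem_univ a))
    have h9 := Real.log_le_log hny hb2
    rw [Real.log_mul (by positivity) (by positivity), Real.log_pow, Real.log_pow] at h9
    linarith

/-- the global inequality -/
theorem out3 {ρ σ l D M k w : ℕ} (h : Fin l → ℕ) (hh : ∀ j, 1 ≤ h j)
    (H : Fin l → MvPolynomial (Fin n) K) (hH : ∀ j, (H j).IsHomogeneous (h j))
    (hhD : ∀ j, h j ∣ D) (hD : 1 ≤ D) (y : Fin (ρ + σ) → MvPolynomial (Fin n) K)
    (hy : ∀ j, (y j).IsHomogeneous D) (cf : Fin ρ → Fin l → K)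
    (hyH : ∀ j : Fin ρ, y (Fin.castAdd σ j) = ∑ i, cf j i • H i ^ (D / h i))
    (E : Finset (Fin n →₀ ℕ))
    (c : Fin w → {s // s ∈ (Sm D E (ρ + σ) M).filter fun s => k ≤ lev s} → K) :
    ∃ C : ℝ, 0 ≤ C ∧ ∀ (x : Fin n → K), x ≠ 0 →
      (∃ j, aeval x (H j) ≠ 0) → (fun a => ∑ s, c a s * aeval x (ym y s.1)) ≠ 0 →
      ∀ S T : Finset (Pl K), Disjoint S T →
      logHeight (fun a => ∑ s, c a s * aeval x (ym y s.1)) -
        ∑ v ∈ S, wt v * Real.log (nrm (av v) (fun a => ∑ s, c a s * aeval x (ym y s.1))) ≤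
      M * (logHeight x - ∑ v ∈ S, wt v * Real.log (nrm (av v) x)) +
        k * ∑ v ∈ T, wt v * Real.log (mu (av v) h H x) + C := by
  classical
  obtain ⟨S0, C, hC0, hC⟩ := out2 (M := M) (k := k) h hh H hH hhD hD y hy cf hyH E c
  have hW : 0 ≤ ∑ v ∈ S0, wt v * C := Finset.sum_nonneg fun v _ => mul_nonneg (wt_nonneg v) hC0
  refine ⟨(k + 1) * ∑ v ∈ S0, wt v * C, by positivity, fun x hx hHx hyx S T hST => ?_⟩
  set Y : Fin w → K := fun a => ∑ s, c a s * aeval x (ym y s.1) with hY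
  obtain ⟨T1, hT1⟩ := height_split hx
  obtain ⟨T2, hT2⟩ := height_split hyx
  set U : Finset (Pl K) := T1 ∪ T2 ∪ S ∪ T with hU
  have hSU : S ⊆ U := fun v hv => by simp [hU, hv]
  have hTU : T ⊆ U \ S := fun v hv => by
    rw [Finset.mem_sdiff]
    exact ⟨by simp [hU, hv], fun h => Finset.disjoint_left.1 hST h hv⟩
  have e1 := hT1 U (fun v hv => by simp [hU, hv])
  have e2 := hT2 U (fun v hv => by simp [hU, hv])
  have hsplit : ∀ g : Pl K → ℝ, ∑ v ∈ U, g v = ∑ v ∈ U \ S, g v + ∑ v ∈ S, g v := fun g =>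
    (Finset.sum_sdiff hSU).symm
  have hbound : ∀ V : Finset (Pl K), ∑ v ∈ V, wt v * (if v ∈ S0 then C else 0) ≤
      ∑ v ∈ S0, wt v * C := by
    intro V
    have h1 : ∑ v ∈ V, wt v * (if v ∈ S0 then C else 0) = ∑ v ∈ V ∩ S0, wt v * C := by
      rw [← Finset.sum_filter_add_sum_filter_not V (fun v => v ∈ S0)]
      have h2 : ∑ v ∈ V.filter (fun v => ¬ v ∈ S0), wt v * (if v ∈ S0 then C else 0) = 0 := by
        refine Finset.sum_eq_zero fun v hv => ?_
        rw [if_neg (Finset.mem_filter.1 hv).2, mul_zero]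
      rw [h2, add_zero, ← Finset.filter_mem_eq_inter]
      refine Finset.sum_congr rfl fun v hv => ?_
      rw [if_pos (Finset.mem_filter.1 hv).2]
    rw [h1]
    exact Finset.sum_le_sum_of_subset_of_nonneg Finset.inter_subset_right fun v _ _ =>
      mul_nonneg (wt_nonneg v) hC0
  have h3 : ∑ v ∈ U \ S, wt v * Real.log (nrm (av v) Y) ≤
      ∑ v ∈ U \ S, (M * (wt v * Real.log (nrm (av v) x)) +
        k * (wt v * Real.log (mu (av v) h H x)) + wt v * (if v ∈ S0 then C else 0)) := by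
    refine Finset.sum_le_sum fun v _ => ?_
    have h4 := mul_le_mul_of_nonneg_left (hC v x hx hHx hyx).2 (wt_nonneg v)
    refine h4.trans (le_of_eq ?_)
    ring
  rw [Finset.sum_add_distrib, Finset.sum_add_distrib, ← Finset.mul_sum, ← Finset.mul_sum] at h3
  have h5 := hbound (U \ S)
  have h6 : ∑ v ∈ U \ S, wt v * Real.log (mu (av v) h H x) ≤
      ∑ v ∈ T, wt v * Real.log (mu (av v) h H x) + ∑ v ∈ S0, wt v * C := by
    rw [← Finset.sum_sdiff hTU, add_comm]
    refine add_le_add le_rfl ?_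
    refine le_trans (Finset.sum_le_sum fun v _ => ?_) (hbound ((U \ S) \ T))
    exact mul_le_mul_of_nonneg_left (hC v x hx hHx hyx).1 (wt_nonneg v)
  have h7 := mul_le_mul_of_nonneg_left h6 (Nat.cast_nonneg (α := ℝ) k)
  have e3 := hsplit fun v => wt v * Real.log (nrm (av v) x)
  have e4 := hsplit fun v => wt v * Real.log (nrm (av v) Y)
  have e5 : logHeight x - ∑ v ∈ S, wt v * Real.log (nrm (av v) x) =
      ∑ v ∈ U \ S, wt v * Real.log (nrm (av v) x) := by
    rw [e1, e3]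
    ring
  have e6 : logHeight Y - ∑ v ∈ S, wt v * Real.log (nrm (av v) Y) =
      ∑ v ∈ U \ S, wt v * Real.log (nrm (av v) Y) := by
    rw [e2, e4]
    ring
  rw [e5, e6]
  linarith

end Pool.Agent.H93.GT
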