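import Mathlib
import Pool.Graph.R_seed8.R404.TC.Sub
import Pool.Graph.R_seed8.R405.Fin1
import Pool.Graph.R_seed8.R405.Big

set_option autoImplicit false

/-!
The subspace theorem over a number field for finitely many systems of linear forms, with a
choice of the system at each place which may depend on the point.
-/

namespace Pool.Agent.H93.GT

open MvPolynomial Finset Module Height NumberField
open Pool.Agent.W180.OP (Pl av wt nrm le_nrm nrm_pos nrm_nonneg exists_nrm lam lam_eq wt_nonneg)
open Pool.Agent.R405 (Good sch exists_good descend exists_big)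

theorem sub_k {k : Type} [Field k] [NumberField k] {n : ℕ} (hn : 1 ≤ n) (S : Finset (Pl k))
    {ι : Type} [Fintype ι] (B : ι → Fin n → Fin n → k) (hdet : ∀ i, (Matrix.of (B i)).det ≠ 0)
    (ε : ℝ) (hε : 0 < ε) :
    ∃ (Z : Finset (Fin n → k)) (C : ℝ), (∀ z ∈ Z, z ≠ 0) ∧ ∀ x : Fin n → k,
      (∀ z ∈ Z, ∑ j, z j * x j ≠ 0) → ∀ b : Pl k → ι,
      ∑ v ∈ S, wt v * ∑ a, (Real.log (nrm (av v) x) -
        Real.log (av v (∑ j, B (b v) a j * x j))) ≤ (n + ε) * logHeight x + C := by
  classical
  obtain ⟨M, hM1, hM2, hi, ⟨φ⟩⟩ := exists_big k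
  let _ : Algebra k M := φ.toAlgebra
  have hNM : NumberField M := ⟨⟩
  have hgood := fun v : Pl k => exists_good (K := M) v
  choose f hf using hgood
  have hcl : ∀ c : S → ι, ∃ (Z : Finset (Fin n → k)) (C : ℝ), (∀ z ∈ Z, z ≠ 0) ∧
      ∀ x : Fin n → k, (∀ z ∈ Z, ∑ j, z j * x j ≠ 0) → ∀ b : Pl k → ι,
      (∀ v : S, b v = c v) →
      ∑ v ∈ S, wt v * ∑ a, (Real.log (nrm (av v) x) -
        Real.log (av v (∑ j, B (b v) a j * x j))) ≤ (n + ε) * logHeight x + C := by
    intro c
    by_cases hne : Nonempty ι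
    · obtain ⟨i0⟩ := hne
      set c' : Pl k → ι := fun v => if h : v ∈ S then c ⟨v, h⟩ else i0 with hc'
      obtain ⟨Z', C, hZ0, hC⟩ := sch (k := k) (K := M) hi hn S f (fun v _ => hf v)
        (fun v a j => algebraMap k M (B (c' v) a j)) (by
          intro v _
          have h1 : Matrix.of (fun a j => algebraMap k M (B (c' v) a j)) =
              (Matrix.of (B (c' v))).map (algebraMap k M) := rfl
          rw [h1, ← RingHom.mapMatrix_apply, ← RingHom.map_det]
          exact (map_ne_zero (algebraMap k M)).2 (hdet _)) ε hε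
      have hdesc : ∀ z : Fin n → M, ∃ m : Fin n → k, z ∈ Z' → m ≠ 0 ∧ ∀ x : Fin n → k,
          ∑ j, m j * x j ≠ 0 → ∑ j, z j * algebraMap k M (x j) ≠ 0 := by
        intro z
        by_cases hz : z ∈ Z'
        · obtain ⟨m, h1, h2⟩ := descend (k := k) z (hZ0 z hz)
          exact ⟨m, fun _ => ⟨h1, h2⟩⟩
        · exact ⟨0, fun h => absurd h hz⟩
      choose md hmd using hdesc
      refine ⟨Z'.image md, C, ?_, ?_⟩
      · intro z hz
        obtain ⟨z', hz', rfl⟩ := Finset.mem_image.1 hz
        exact (hmd z' hz').1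
      · intro x hx b hb
        have h1 := hC x (fun d hd => (hmd d hd).2 x (hx _ (Finset.mem_image_of_mem _ hd)))
        refine le_trans (le_of_eq ?_) h1
        refine Finset.sum_congr rfl fun v hv => ?_
        congr 1
        refine Finset.sum_congr rfl fun a _ => ?_
        congr 2
        have e1 : b v = c' v := by
          have := hb ⟨v, hv⟩
          simp only [hc', dif_pos hv]
          exact this
        rw [← (hf v).ext, map_sum, e1]
        simp only [map_mul]
    · refine ⟨∅, 0, by simp, fun x _ b => ?_⟩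
      exact absurd ⟨b (Sum.inl (Classical.arbitrary _))⟩ hne
  choose Z C hZ0 hC using hcl
  refine ⟨Finset.univ.biUnion Z, ∑ c, |C c|, ?_, ?_⟩
  · intro z hz
    obtain ⟨c, -, hc⟩ := Finset.mem_biUnion.1 hz
    exact hZ0 c z hc
  · intro x hx b
    have h1 := hC (fun v => b v) x (fun z hz => hx z (Finset.mem_biUnion.2
      ⟨_, Finset.mem_univ _, hz⟩)) b fun _ => rfl
    have h2 : C (fun v : S => b v) ≤ ∑ c, |C c| := (le_abs_self _).trans
      (Finset.single_le_sum (f := fun c : S → ι => |C c|) (fun _ _ => abs_nonneg _)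
        (Finset.mem_univ _))
    linarith

end Pool.Agent.H93.GT
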