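import Mathlib
import Pool.Agent.H93.GT.Out
import Pool.Agent.H93.GT.Cho
import Pool.Agent.H93.GT.SubK

set_option autoImplicit false

/-!
The inequality in a fixed degree.
-/

namespace Pool.Agent.H93.GT

open MvPolynomial Finset Module Height NumberField IsDedekindDomain
open Pool.Agent.W180.OP Pool.Agent.W180.TP Pool.Agent.TH875

variable {K : Type} [Field K] [NumberField K] {n : ℕ}

/-- the sum of the positive parts of the local heights at the places of `S` -/
theorem theta_sum {q : ℕ} (F : Fin q → MvPolynomial (Fin n) K) (d : Fin q → ℕ)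
    (hF : ∀ i, (F i).IsHomogeneous (d i)) :
    ∃ C : ℝ, 0 ≤ C ∧ ∀ (S : Finset (Pl K)) (x : Fin n → K), x ≠ 0 → (∀ i, aeval x (F i) ≠ 0) →
      ∑ v ∈ S, wt v * (∑ i, max 0 (- Real.log (rho (av v) (d i) (F i) x)) +
        ∑ j, max 0 (- Real.log (rho (av v) 1 (X j : MvPolynomial (Fin n) K) x))) ≤
      ((∑ i, d i : ℕ) + n) * logHeight x + C := by
  classical
  choose C1 hC10 hC1 using fun i => liou (F i) (d i) (hF i)
  choose C2 hC20 hC2 using fun j : Fin n => liou (X j : MvPolynomial (Fin n) K) 1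
    (isHomogeneous_X K j)
  have hs1 : 0 ≤ ∑ i, C1 i := Finset.sum_nonneg fun i _ => hC10 i
  have hs2 : 0 ≤ ∑ i, C2 i := Finset.sum_nonneg fun i _ => hC20 i
  refine ⟨∑ i, C1 i + ∑ j, C2 j, by positivity, fun S x hx hFx => ?_⟩
  have hh := logHeight_nonneg x
  have e1 : ∀ i, ∑ v ∈ S, wt v * max 0 (- Real.log (rho (av v) (d i) (F i) x)) ≤
      d i * logHeight x + C1 i := by
    intro i
    have h1 := hC1 i S x hx (by rw [eval_eq_aeval]; exact hFx i)
    refine le_trans (le_of_eq ?_) h1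
    refine Finset.sum_congr rfl fun v _ => ?_
    rw [← lam_rho, bc_self]
  have e2 : ∀ j, ∑ v ∈ S, wt v * max 0 (- Real.log (rho (av v) 1
      (X j : MvPolynomial (Fin n) K) x)) ≤ logHeight x + C2 j := by
    intro j
    by_cases hj : x j = 0
    · have h1 : ∑ v ∈ S, wt v * max 0 (- Real.log (rho (av v) 1
          (X j : MvPolynomial (Fin n) K) x)) = 0 := by
        refine Finset.sum_eq_zero fun v _ => ?_
        unfold rho
        rw [aeval_X, hj, map_zero, zero_div, Real.log_zero, neg_zero, max_self, mul_zero]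
      rw [h1]
      exact add_nonneg hh (hC20 j)
    · have h1 := hC2 j S x hx (by rw [eval_X]; exact hj)
      rw [Nat.cast_one, one_mul] at h1
      refine le_trans (le_of_eq ?_) h1
      refine Finset.sum_congr rfl fun v _ => ?_
      rw [← lam_rho, bc_self]
  have e3 : ∑ v ∈ S, wt v * (∑ i, max 0 (- Real.log (rho (av v) (d i) (F i) x)) +
        ∑ j, max 0 (- Real.log (rho (av v) 1 (X j : MvPolynomial (Fin n) K) x))) =
      ∑ i, ∑ v ∈ S, wt v * max 0 (- Real.log (rho (av v) (d i) (F i) x)) +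
      ∑ j, ∑ v ∈ S, wt v * max 0 (- Real.log (rho (av v) 1
        (X j : MvPolynomial (Fin n) K) x)) := by
    rw [Finset.sum_comm, Finset.sum_comm (s := (Finset.univ : Finset (Fin n))),
      ← Finset.sum_add_distrib]
    refine Finset.sum_congr rfl fun v _ => ?_
    rw [mul_add, Finset.mul_sum, Finset.mul_sum]
  rw [e3]
  have e4 := Finset.sum_le_sum fun (i : Fin q) (_ : i ∈ Finset.univ) => e1 i
  have e5 := Finset.sum_le_sum fun (i : Fin n) (_ : i ∈ Finset.univ) => e2 i
  rw [Finset.sum_add_distrib] at e4 e5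
  rw [← Finset.sum_mul] at e4
  rw [Finset.sum_const, Finset.card_univ, Fintype.card_fin, nsmul_eq_mul] at e5
  push_cast
  linarith

theorem fixed {m q r l ρ σ D D0 M N Bm k w : ℕ} (hr : 0 < r) (hrq : r ≤ q)
    (I : Ideal (MvPolynomial (Fin n) K)) (hprime : I.IsPrime)
    (G : Fin m → MvPolynomial (Fin n) K) (hI : I = Ideal.span (Set.range G)) (g : Fin m → ℕ)
    (hG : ∀ k, (G k).IsHomogeneous (g k))
    (F : Fin q → MvPolynomial (Fin n) K) (d : Fin q → ℕ) (hd : ∀ i, 1 ≤ d i)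
    (hF : ∀ i, (F i).IsHomogeneous (d i)) (hD : 1 ≤ D) (hdD : ∀ i, d i ∣ D)
    (hgp : ∀ e : Fin r ↪ Fin q, ∀ (L : Type) [Field L] [Algebra K L] (x : Fin n → L),
      (∀ k, aeval x (G k) = 0) → (∀ k, aeval x (F (e k)) = 0) → x = 0)
    (E : (Fin r ↪ Fin q) → Finset (Fin n →₀ ℕ))
    (hE : ∀ e, Ind I (fun k => F (e k) ^ (D / d (e k))) (E e))
    (hB : ∀ e, ∀ β ∈ E e, β.degree ≤ Bm)
    (hN : finrank K (VM I M) = N)
    (α : ℝ) (hα0 : 0 ≤ α)
    (hα : ∀ e, α * r ≤ (Sm D (E e) r M).card * ((M : ℝ) - Bm)) (hMB : Bm ≤ M)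
    (h : Fin l → ℕ) (hh : ∀ j, 1 ≤ h j) (H : Fin l → MvPolynomial (Fin n) K)
    (hH : ∀ j, (H j).IsHomogeneous (h j)) (hhD : ∀ j, h j ∣ D0) (hD0 : 1 ≤ D0)
    (y : Fin (ρ + σ) → MvPolynomial (Fin n) K) (hy : ∀ j, (y j).IsHomogeneous D0)
    (cf : Fin ρ → Fin l → K)
    (hyH : ∀ j : Fin ρ, y (Fin.castAdd σ j) = ∑ i, cf j i • H i ^ (D0 / h i)) (j0 : Fin ρ)
    (hyI : y (Fin.castAdd σ j0) ∉ I)
    (E0 : Finset (Fin n →₀ ℕ)) (hw : finrank K (Wk I D0 y E0 M k) = w) (hw1 : 1 ≤ w)
    (S : Finset (Pl K)) (ε : ℝ) (hε : 0 < ε) :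
    ∃ Z : MvPolynomial (Fin n) K, Z ∉ I ∧ (∃ t, Z.IsHomogeneous t) ∧
      ∃ C : ℝ, 0 ≤ C ∧ ∀ x : Fin n → K, x ≠ 0 → (∀ k, aeval x (G k) = 0) →
        (∀ i, aeval x (F i) ≠ 0) → aeval x Z ≠ 0 → (∃ j, aeval x (H j) ≠ 0) ∧
        ∀ T : Finset (Pl K), Disjoint S T →
        α * (∑ v ∈ S, wt v * ∑ i, lam (av v) (d i) (F i) x / d i) +
          w * (k * ∑ v ∈ T, wt v * (- Real.log (mu (av v) h H x))) ≤
        (w + ε) * (M * logHeight x) +
          ((N : ℝ) - w) * (M * (((∑ i, d i : ℕ) + n) * logHeight x)) + C := by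
  classical
  have hfin := VM_finite I M
  obtain ⟨sec, hsec⟩ := exists_sec I M
  have hsecinj : Function.Injective sec := by
    intro a a' h
    have h1 := (hsec a).2
    rw [h, (hsec a').2] at h1
    exact Subtype.ext h1.symm
  obtain ⟨b0, β, hb0⟩ := mono_basis I M N hN
  set yy : (Fin r ↪ Fin q) → Fin r → MvPolynomial (Fin n) K := fun e k =>
    F (e k) ^ (D / d (e k)) with hyy
  have hyh : ∀ e k, (yy e k).IsHomogeneous D := by
    intro e k
    have := (hF (e k)).pow (D / d (e k))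
    rwa [Nat.mul_div_cancel' (hdD (e k))] at this
  have h0y : ∀ e, ∀ (L : Type) [Field L] [Algebra K L] (x : Fin n → L),
      (∀ k, aeval x (G k) = 0) → (∀ k, aeval x (yy e k) = 0) → x = 0 := by
    intro e L _ _ x hx hxy
    refine hgp e L x hx fun k => ?_
    have h1 := hxy k
    simp only [hyy, map_pow] at h1
    exact eq_zero_of_pow_eq_zero h1
  have hmemV : ∀ e, ∀ s : {s // s ∈ Sm D (E e) r M},
      Ideal.Quotient.mkₐ K I (ym (yy e) s.1) ∈ VM I M := by
    intro e s
    have h1 := ym_hom (hyh e) s.1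
    rw [((mem_Sm hD (E e) M s.1).1 s.2).2] at h1
    exact ⟨_, h1, rfl⟩
  set vv : ∀ e, {s // s ∈ Sm D (E e) r M} → VM I M := fun e s =>
    ⟨Ideal.Quotient.mkₐ K I (ym (yy e) s.1), hmemV e s⟩ with hvv
  have hvne : ∀ e s, vv e s ≠ 0 := by
    intro e s h1
    refine ind_ne (hE e) s.1 ((mem_Sm hD (E e) M s.1).1 s.2).1 ?_
    exact (Submodule.mk_eq_zero _ _).1 h1
  have hplace := fun e => place_est (N := N) hr hD I G hI g hG F d hd hF hdD e (yy e)
    (fun _ => rfl) (hyh e) (h0y e) (E e) (hE e) (hB e) sec hsec b0 (vv e) (fun _ => rfl) α hα0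
    (hα e) hMB
  choose C1 hC10 hC1 using hplace
  -- the family
  set P : (Σ e : Fin r ↪ Fin q, {s // s ∈ Sm D (E e) r M}) ⊕ Fin N → VM I M :=
    Sum.elim (fun s => vv s.1 s.2) (fun j => b0 j) with hP
  have hPne : ∀ i, P i ≠ 0 := by
    rintro (s | j)
    · exact hvne s.1 s.2
    · exact b0.ne_zero j
  -- the subspace
  obtain ⟨b1, B, C2, Z2, hb1, hb1W, hwN, hdet, hC20, hZ2, hcho⟩ := chosen' hN P _ hw
  choose c hc using fun a => Wk_comb I y E0 M k (hb1W a)
  obtain ⟨Z3, C3, hZ3, hsub⟩ := sub_k hw1 S B hdet ε hε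
  obtain ⟨C4, hC40, hout⟩ := out3 (M := M) (k := k) h hh H hH hhD hD0 y hy cf hyH E0 c
  obtain ⟨C5, hC50, hth⟩ := theta_sum F d hF
  -- the vectors which must not vanish
  set ZV : Finset (VM I M) := Finset.univ.image P ∪ Z2 ∪
    Z3.image (fun z => ∑ j, z j • b1 j) ∪ Finset.univ.image b1 with hZV
  have hZVne : ∀ z ∈ ZV, z ≠ 0 := by
    intro z hz
    rw [hZV, Finset.mem_union, Finset.mem_union, Finset.mem_union] at hz
    rcases hz with ((hz | hz) | hz) | hz
    · obtain ⟨i, -, rfl⟩ := Finset.mem_image.1 hz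
      exact hPne i
    · exact hZ2 z hz
    · obtain ⟨z', hz', rfl⟩ := Finset.mem_image.1 hz
      intro h0
      apply hZ3 z' hz'
      funext j
      exact Fintype.linearIndependent_iff.1 hb1 z' h0 j
    · obtain ⟨a, -, rfl⟩ := Finset.mem_image.1 hz
      exact hb1.ne_zero a
  have hsecI : ∀ z ∈ ZV, sec z ∉ I := by
    intro z hz hzI
    have h1 : Ideal.Quotient.mkₐ K I (sec z) = 0 := Ideal.Quotient.eq_zero_iff_mem.2 hzI
    rw [(hsec z).2] at h1
    exact hZVne z hz (Subtype.ext h1)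
  set C1s : ℝ := ∑ e, C1 e with hC1s
  have hC1s0 : 0 ≤ C1s := Finset.sum_nonneg fun e _ => hC10 e
  set Nq : ℝ := (Module.finrank ℚ K : ℝ) with hNq
  have hNq0 : 0 ≤ Nq := Nat.cast_nonneg _
  have hWN : (w : ℝ) ≤ N := by exact_mod_cast hwN
  have hwt0 : 0 ≤ ∑ v ∈ S, wt v := Finset.sum_nonneg fun v _ => wt_nonneg v
  refine ⟨y (Fin.castAdd σ j0) * ∏ z ∈ ZV, sec z, ?_, ⟨_, (hy _).mul
    (IsHomogeneous.prod _ _ _ fun z _ => (hsec z).1)⟩,
    (|C3| + w * C4 + ε * C4) + ((N : ℝ) - w) * (M * C5) + (C2 * ∑ v ∈ S, wt v) +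
      S.card * (C1s * Nq), ?_, ?_⟩
  · intro h1
    rcases hprime.mem_or_mem h1 with h2 | h2
    · exact hyI h2
    · obtain ⟨z, hz, hzI⟩ := (hprime.prod_mem_iff).1 h2
      exact hsecI z hz hzI
  · have : 0 ≤ (N : ℝ) - w := by linarith
    positivity
  intro x hx hGx hFx hZx
  rw [map_mul, map_prod] at hZx
  have hZx' : ∀ z ∈ ZV, aeval x (sec z) ≠ 0 := by
    intro z hz h0
    exact hZx (by rw [Finset.prod_eq_zero hz h0, mul_zero])
  have hHx : ∃ j, aeval x (H j) ≠ 0 := by
    by_contra hcon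
    push Not at hcon
    apply hZx
    rw [hyH, map_sum, Finset.sum_eq_zero, zero_mul]
    intro i _
    have : 0 < D0 / h i := Nat.div_pos (Nat.le_of_dvd hD0 (hhD i)) (hh i)
    rw [map_smul, map_pow, hcon i, zero_pow (by omega), smul_zero]
  refine ⟨hHx, fun T hST => ?_⟩
  -- the evaluation
  set φ : VM I M →ₗ[K] K := (aeval x : MvPolynomial (Fin n) K →ₐ[K] K).toLinearMap ∘ₗ sec with hφ
  have hφv : ∀ z, φ z = aeval x (sec z) := fun z => rfl
  have hφr : ∀ (z : VM I M) (F' : MvPolynomial (Fin n) K),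
      (z : MvPolynomial (Fin n) K ⧸ I) = Ideal.Quotient.mkₐ K I F' → φ z = aeval x F' := by
    intro z F' hz
    rw [hφv]
    have h1 : sec z - F' ∈ I := by
      rw [← Ideal.Quotient.eq_zero_iff_mem, ← Ideal.Quotient.mkₐ_eq_mk K, map_sub,
        (hsec z).2, hz]
      exact sub_self _
    have h2 := aeval_ideal hGx (hI.le h1)
    rw [map_sub, sub_eq_zero] at h2
    exact h2
  have hφ1 : ∀ a, φ (b1 a) = ∑ s, c a s * aeval x (ym y s.1) := by
    intro a
    rw [hφr _ _ (hc a), map_sum]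
    exact Finset.sum_congr rfl fun s _ => by rw [map_smul, smul_eq_mul]
  set Y : Fin w → K := fun a => ∑ s, c a s * aeval x (ym y s.1) with hY
  have hYφ : ∀ a, Y a = φ (b1 a) := fun a => (hφ1 a).symm
  have hYne : Y ≠ 0 := by
    intro h0
    have h1 := congrFun h0 ⟨0, hw1⟩
    rw [hYφ] at h1
    refine hZx' _ ?_ h1
    rw [hZV]
    exact Finset.mem_union_right _ (Finset.mem_image_of_mem _ (Finset.mem_univ _))
  have hPx : ∀ i, φ (P i) ≠ 0 := by
    intro i
    refine hZx' _ ?_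
    rw [hZV]
    exact Finset.mem_union_left _ (Finset.mem_union_left _ (Finset.mem_union_left _
      (Finset.mem_image_of_mem _ (Finset.mem_univ _))))
  -- one place
  choose e he using fun p : Pl K => top_members hrq
    (fun i => lam (av p) (d i) (bc K (F i)) x / d i)
  choose w1 hw11 hw12 using fun p : Pl K => hC1 (e p) K p x hx hGx hFx
    (fun j => hPx (Sum.inr j)) (fun s => hPx (Sum.inl ⟨e p, s⟩)) (he p)
  set b : Pl K → Fin N → (Σ e : Fin r ↪ Fin q, {s // s ∈ Sm D (E e) r M}) ⊕ Fin N := fun p k =>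
    Sum.map (fun s => ⟨e p, s⟩) id (w1 p k) with hb
  have hPb : ∀ p k, sec (P (b p k)) = fam2 sec (vv (e p)) b0 (w1 p k) := by
    intro p k
    simp only [hb]
    rcases w1 p k with s | j <;> rfl
  have hbind : ∀ p, LinearIndependent K (fun k => P (b p k)) := by
    intro p
    refine LinearIndependent.of_comp sec ?_
    have e1 : (sec ∘ fun k => P (b p k)) = fun k => fam2 sec (vv (e p)) b0 (w1 p k) :=
      funext fun k => hPb p k
    rw [e1]
    exact hw11 p
  set nx : Pl K → ℝ := fun v => Real.log (nrm (av v) x) with hnx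
  set Θ : Pl K → ℝ := fun v => ∑ i, max 0 (- Real.log (rho (av v) (d i) (F i) x)) +
        ∑ j, max 0 (- Real.log (rho (av v) 1 (X j : MvPolynomial (Fin n) K) x)) with hΘ
  -- the form of the local heights
  have hlam : ∀ (v : Pl K) (z : VM I M), φ z ≠ 0 → lam (av v) M (bc K (sec z)) x =
      M * nx v - Real.log (av v (φ z)) := by
    intro v z hz
    rw [bc_self, lam_eq _ _ _ hx (by rw [eval_eq_aeval]; exact hz), eval_eq_aeval]
    rfl
  have hcost : ∀ (v : Pl K) (i), - Real.log (av v (φ (P i))) ≤ M * Θ v - M * nx v := by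
    intro v i
    have key : ∀ (r' : ℕ) (e' : Fin r' ↪ Fin q) (s : (Fin r' → ℕ) × (Fin n →₀ ℕ)),
        dg D s = M → (P i : MvPolynomial (Fin n) K ⧸ I) = Ideal.Quotient.mkₐ K I
          (ym (fun k => F (e' k) ^ (D / d (e' k))) s) →
        - Real.log (av v (φ (P i))) ≤ M * Θ v - M * nx v := by
      intro r' e' s hs hPs
      have h1 := hφr _ _ hPs
      have h2 : aeval x (ym (fun k => F (e' k) ^ (D / d (e' k))) s) ≠ 0 := by
        rw [← h1]
        exact hPx i
      have h3 := cost hD (av v) F d hd hdD e' _ (fun _ => rfl) hx hFx s hs h2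
      have h4 : Real.log (rho (av v) M (ym (fun k => F (e' k) ^ (D / d (e' k))) s) x) =
          Real.log (av v (φ (P i))) - M * nx v := by
        unfold rho
        rw [← h1, Real.log_div ((av v).pos_iff.2 (hPx i)).ne'
          (pow_pos (nrm_pos (av v) hx) _).ne', Real.log_pow]
      rw [h4] at h3
      linarith
    rcases i with s | j
    · exact key r s.1 s.2.1 ((mem_Sm hD (E s.1) M s.2.1).1 s.2.2).2 rfl
    · refine key 0 ⟨fun a => a.elim0, fun a => a.elim0⟩ (fun a => a.elim0, β j) ?_ ?_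
      · unfold dg
        rw [(hb0 j).1]
        simp
      · have h1 := (hb0 j).2
        show (b0 j : MvPolynomial (Fin n) K ⧸ I) = _
        rw [h1]
        congr 1
        unfold ym
        simp
  -- the choice
  have hch := fun v => hcho φ (fun z hz => hZx' z (by
    rw [hZV]
    exact Finset.mem_union_left _ (Finset.mem_union_left _ (Finset.mem_union_right _ hz)))) v
    (b v) (hbind v) (M * Θ v - M * nx v) (fun k => hcost v _)
  choose t ht using hch
  -- the subspace theorem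
  have hs := hsub Y (fun z hz => by
    have h1 : ∑ j, z j * Y j = φ (∑ j, z j • b1 j) := by
      rw [map_sum]
      exact Finset.sum_congr rfl fun j _ => by rw [map_smul, smul_eq_mul, hYφ]
    rw [h1]
    refine hZx' _ ?_
    rw [hZV]
    exact Finset.mem_union_left _ (Finset.mem_union_right _
      (Finset.mem_image_of_mem _ hz))) t
  have ho := hout x hx hHx hYne S T hST
  have ho2 := hout x hx hHx hYne ∅ ∅ (Finset.disjoint_empty_left _)
  simp only [Finset.sum_empty, sub_zero, mul_zero, add_zero] at ho2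
  set LL : Pl K → ℝ := fun v => ∑ a, Real.log (av v (∑ j, B (t v) a j * Y j)) with hLL
  have hLL2 : ∀ v, ∑ a, Real.log (av v (∑ j, B (t v) a j * φ (b1 j))) = LL v := by
    intro v
    simp only [hLL, hYφ]
  -- the subspace inequality
  have hs2 : ∑ v ∈ S, wt v * (w * Real.log (nrm (av v) Y) - LL v) ≤
      (w + ε) * logHeight Y + C3 := by
    refine le_trans (le_of_eq ?_) hs
    refine Finset.sum_congr rfl fun v _ => ?_
    rw [Finset.sum_sub_distrib, Finset.sum_const, Finset.card_univ, Fintype.card_fin,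
      nsmul_eq_mul]
  have hs3 : ∑ v ∈ S, wt v * (w * Real.log (nrm (av v) Y) - LL v) =
      w * ∑ v ∈ S, wt v * Real.log (nrm (av v) Y) - ∑ v ∈ S, wt v * LL v := by
    rw [Finset.mul_sum, ← Finset.sum_sub_distrib]
    exact Finset.sum_congr rfl fun v _ => by ring
  -- one place
  have hp1 : ∀ v, α * (wt v * ∑ i, lam (av v) (d i) (F i) x / d i) ≤
      wt v * (w * (M * nx v) - LL v + ((N : ℝ) - w) * (M * Θ v) + C2) + C1s * Nq := by
    intro v
    have h1 := hw12 v
    have h2 : ∑ k, lam (av v) M (bc K (fam2 sec (vv (e v)) b0 (w1 v k))) x =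
        N * (M * nx v) - ∑ k, Real.log (av v (φ (P (b v k)))) := by
      have h3 : ∀ k, lam (av v) M (bc K (fam2 sec (vv (e v)) b0 (w1 v k))) x =
          M * nx v - Real.log (av v (φ (P (b v k)))) := by
        intro k
        rw [← hPb v k]
        exact hlam v _ (hPx _)
      rw [Finset.sum_congr rfl fun k _ => h3 k, Finset.sum_sub_distrib, Finset.sum_const,
        Finset.card_univ, Fintype.card_fin, nsmul_eq_mul]
    rw [h2] at h1
    have h4 := ht v
    rw [hLL2] at h4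
    have h5 : C1 (e v) * Nq ≤ C1s * Nq := mul_le_mul_of_nonneg_right
      (Finset.single_le_sum (f := C1) (fun e _ => hC10 e) (Finset.mem_univ _)) hNq0
    have h6 : N * (M * nx v) - ∑ k, Real.log (av v (φ (P (b v k)))) ≤
        w * (M * nx v) - LL v + ((N : ℝ) - w) * (M * Θ v) + C2 := by
      have e1 : ((N : ℝ) - w) * (M * Θ v - M * nx v) = ((N : ℝ) - w) * (M * Θ v) -
        N * (M * nx v) + w * (M * nx v) := by ring
      rw [e1] at h4
      linarith
    have h7 := mul_le_mul_of_nonneg_left h6 (wt_nonneg v)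
    simp only [bc_self] at h1
    linarith
  have hp2 : α * (∑ v ∈ S, wt v * ∑ i, lam (av v) (d i) (F i) x / d i) ≤
      w * (M * ∑ v ∈ S, wt v * nx v) - ∑ v ∈ S, wt v * LL v +
        ((N : ℝ) - w) * (M * ∑ v ∈ S, wt v * Θ v) + C2 * (∑ v ∈ S, wt v) +
        S.card * (C1s * Nq) := by
    rw [Finset.mul_sum]
    refine (Finset.sum_le_sum fun v _ => hp1 v).trans (le_of_eq ?_)
    rw [Finset.sum_add_distrib, Finset.sum_const, nsmul_eq_mul]
    congr 1
    simp only [Finset.mul_sum]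
    rw [← Finset.sum_sub_distrib, ← Finset.sum_add_distrib, ← Finset.sum_add_distrib]
    exact Finset.sum_congr rfl fun v _ => by ring
  have hth2 : ((N : ℝ) - w) * (M * ∑ v ∈ S, wt v * Θ v) ≤
      ((N : ℝ) - w) * (M * (((∑ i, d i : ℕ) + n) * logHeight x + C5)) := by
    refine mul_le_mul_of_nonneg_left ?_ (by linarith)
    exact mul_le_mul_of_nonneg_left (hth S x hx hFx) (Nat.cast_nonneg _)
  have ho3 := mul_le_mul_of_nonneg_left ho (Nat.cast_nonneg (α := ℝ) w)
  have ho4 := mul_le_mul_of_nonneg_left ho2 hε.le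
  have hneg : ∑ v ∈ T, wt v * (- Real.log (mu (av v) h H x)) =
      - ∑ v ∈ T, wt v * Real.log (mu (av v) h H x) := by
    rw [← Finset.sum_neg_distrib]
    exact Finset.sum_congr rfl fun v _ => by ring
  have hC3 := le_abs_self C3
  rw [hs3] at hs2
  rw [hneg]
  have e7 : ∑ v ∈ S, wt v * nx v = ∑ v ∈ S, wt v * Real.log (nrm (av v) x) := rfl
  rw [e7] at hp2
  linarith

end Pool.Agent.H93.GT
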