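import Mathlib
import Pool.Graph.R_seed8.TH875.Cm7

set_option autoImplicit false

/-!
Noether normalization keeping part of a system of forms.
-/

namespace Pool.Agent.H93.GT

open MvPolynomial Finset Module
open Pool.Agent.TH875

variable {K : Type} [Field K] {n : ℕ}

/-- the substitution of forms of degree `D` multiplies the degree by `D` -/
lemma aeval_hom {ι : Type} [Fintype ι] {D e : ℕ} (z : ι → MvPolynomial (Fin n) K)
    (hz : ∀ i, (z i).IsHomogeneous D) (f : MvPolynomial ι K) (hf : f.IsHomogeneous e) :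
    (aeval z f).IsHomogeneous (D * e) := by
  classical
  rw [aeval_def, eval₂_eq]
  refine IsHomogeneous.sum _ _ _ fun a ha => ?_
  have h1 : ∑ i ∈ a.support, a i = e := by
    have := hf (mem_support_iff.1 ha)
    rw [← this, Finsupp.weight_apply, Finsupp.sum]
    simp
  have h2 : (∏ i ∈ a.support, z i ^ a i).IsHomogeneous (∑ i ∈ a.support, D * a i) :=
    IsHomogeneous.prod _ _ _ fun i _ => (hz i).pow _
  rw [← Finset.mul_sum, h1] at h2
  have h3 := (isHomogeneous_C (Fin n) (f.coeff a)).mul h2
  rw [zero_add] at h3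
  exact h3

/-- elimination of one form -/
theorem elim_one {m r D : ℕ} (hD : 1 ≤ D) [Infinite K]
    (G : Fin m → MvPolynomial (Fin n) K) (g : Fin m → ℕ)
    (hG : ∀ k, (G k).IsHomogeneous (g k))
    (htr : Algebra.trdeg K (MvPolynomial (Fin n) K ⧸ Ideal.span (Set.range G)) = (r : Cardinal))
    {ι : Type} [Fintype ι] (hcard : r < Fintype.card ι) (i0 : ι)
    (z : ι → MvPolynomial (Fin n) K) (hz : ∀ i, (z i).IsHomogeneous D)
    (h0 : ∀ (L : Type) [Field L] [Algebra K L] (x : Fin n → L),
      (∀ k, aeval x (G k) = 0) → (∀ i, aeval x (z i) = 0) → x = 0) :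
    ∃ c : ι → K, c i0 = 1 ∧ ∀ (L : Type) [Field L] [Algebra K L] (x : Fin n → L),
      (∀ k, aeval x (G k) = 0) → (∀ i, aeval x (z i) = c i • aeval x (z i0)) → x = 0 := by
  classical
  obtain ⟨I, hI⟩ : ∃ I, I = Ideal.span (Set.range G) := ⟨_, rfl⟩
  rw [← hI] at htr
  have hnot : ¬ AlgebraicIndependent K (fun i => Ideal.Quotient.mkₐ K I (z i)) := by
    intro halg
    have h1 := halg.cardinalMk_le_trdeg
    rw [htr, Cardinal.mk_fintype] at h1
    have h2 : Fintype.card ι ≤ r := by exact_mod_cast h1
    omega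
  obtain ⟨f, hf0, hf⟩ : ∃ f : MvPolynomial ι K, aeval z f ∈ I ∧ f ≠ 0 := by
    rw [AlgebraicIndependent, injective_iff_map_eq_zero] at hnot
    push Not at hnot
    obtain ⟨f, h1, h2⟩ := hnot
    refine ⟨f, ?_, h2⟩
    have h3 : Ideal.Quotient.mkₐ K I (aeval z f) = 0 := by
      rw [← h1, comp_aeval_apply]
    exact Ideal.Quotient.eq_zero_iff_mem.1 h3
  -- a homogeneous relation
  obtain ⟨e, f', hf'h, hf'0, hf'I⟩ : ∃ (e : ℕ) (f' : MvPolynomial ι K), f'.IsHomogeneous e ∧
      f' ≠ 0 ∧ aeval z f' ∈ I := by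
    obtain ⟨e, he⟩ : ∃ e, homogeneousComponent e f ≠ 0 := by
      by_contra hcon
      push Not at hcon
      apply hf
      rw [← sum_homogeneousComponent f]
      exact Finset.sum_eq_zero fun i _ => hcon i
    refine ⟨e, homogeneousComponent e f, homogeneousComponent_isHomogeneous _ _, he, ?_⟩
    rw [hI] at hf0
    have h1 := comp_mem G g hG hf0 (D * e)
    have h2 : homogeneousComponent (D * e) (aeval z f) = aeval z (homogeneousComponent e f) := by
      conv_lhs => rw [← sum_homogeneousComponent f, map_sum, map_sum]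
      rw [Finset.sum_eq_single e]
      · exact homogeneousComponent_eq_self
          (aeval_hom z hz _ (homogeneousComponent_isHomogeneous e f))
      · intro i _ hi
        rw [homogeneousComponent_of_mem (aeval_hom z hz _
          (homogeneousComponent_isHomogeneous i f)), if_neg]
        intro h3
        exact hi (Nat.eq_of_mul_eq_mul_left hD h3).symm
      · intro h3
        have h4 : homogeneousComponent e f = 0 := by
          refine homogeneousComponent_eq_zero _ _ ?_
          rw [Finset.mem_range] at h3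
          omega
        exact absurd h4 he
    rw [h2, ← hI] at h1
    exact h1
  -- a point where it does not vanish
  obtain ⟨c0, hc0⟩ : ∃ c0 : ι → K, eval c0 (f' * X i0) ≠ 0 := by
    by_contra hcon
    push Not at hcon
    have h1 : f' * X i0 = 0 := by
      refine MvPolynomial.funext fun x => ?_
      rw [hcon x, map_zero]
    exact (mul_ne_zero hf'0 (X_ne_zero i0)) h1
  rw [map_mul, eval_X] at hc0
  have hc1 := left_ne_zero_of_mul hc0
  have hc2 := right_ne_zero_of_mul hc0
  have hsc : ∀ (L : Type) [Field L] [Algebra K L] (w : L) (b : ι → K),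
      aeval (fun i => b i • w) f' = w ^ e * algebraMap K L (eval b f') := by
    intro L _ _ w b
    rw [aeval_def, eval₂_eq, eval_eq, map_sum, Finset.mul_sum]
    refine Finset.sum_congr rfl fun a ha => ?_
    have h1 : ∑ i ∈ a.support, a i = e := by
      have := hf'h (mem_support_iff.1 ha)
      rw [← this, Finsupp.weight_apply, Finsupp.sum]
      simp
    rw [map_mul, map_prod]
    have h2 : ∏ i ∈ a.support, (b i • w) ^ a i =
        (∏ i ∈ a.support, algebraMap K L (b i) ^ a i) * w ^ e := by
      rw [← h1, ← Finset.prod_pow_eq_pow_sum, ← Finset.prod_mul_distrib]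
      refine Finset.prod_congr rfl fun i _ => ?_
      rw [Algebra.smul_def, mul_pow]
    rw [h2]
    simp only [map_pow]
    ring
  refine ⟨fun i => c0 i / c0 i0, div_self hc2, fun L _ _ x hGx hx => ?_⟩
  have hfc : eval (fun i => c0 i / c0 i0) f' ≠ 0 := by
    intro h1
    have h2 := hsc K (c0 i0) (fun i => c0 i / c0 i0)
    rw [h1, map_zero, mul_zero] at h2
    have h3 : (fun i => (c0 i / c0 i0) • c0 i0) = c0 := by
      funext i
      rw [smul_eq_mul, div_mul_cancel₀ _ hc2]
    rw [h3] at h2
    apply hc1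
    rw [← h2, aeval_eq_eval]
  have h1 : aeval x (aeval z f') = 0 := by
    have h2 : I ≤ RingHom.ker (aeval x : MvPolynomial (Fin n) K →ₐ[K] L) := by
      rw [hI, Ideal.span_le]
      rintro _ ⟨k, rfl⟩
      exact hGx k
    exact h2 hf'I
  have h2 : aeval x (aeval z f') = aeval (fun i => (c0 i / c0 i0) • aeval x (z i0)) f' := by
    rw [comp_aeval_apply]
    congr 2
    funext i
    exact hx i
  rw [h2, hsc] at h1
  have h3 : aeval x (z i0) = 0 := by
    rcases mul_eq_zero.1 h1 with h4 | h4
    · exact eq_zero_of_pow_eq_zero h4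
    · exact absurd ((map_eq_zero _).1 h4) hfc
  refine h0 L x hGx fun i => ?_
  rw [hx i, h3, smul_zero]

/-- Noether normalization: `ρ` combinations of the first forms suffice -/
theorem norm_main {m ρ τ D : ℕ} (hD : 1 ≤ D) [Infinite K]
    (G : Fin m → MvPolynomial (Fin n) K) (g : Fin m → ℕ)
    (hG : ∀ k, (G k).IsHomogeneous (g k))
    (htr : Algebra.trdeg K (MvPolynomial (Fin n) K ⧸ Ideal.span (Set.range G)) =
      ((ρ + (τ + 1) : ℕ) : Cardinal))
    (l : ℕ) :
    ∀ (zH : Fin (ρ + l) → MvPolynomial (Fin n) K) (zP : Fin (τ + 1) → MvPolynomial (Fin n) K),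
    (∀ i, (zH i).IsHomogeneous D) → (∀ i, (zP i).IsHomogeneous D) →
    (∀ (L : Type) [Field L] [Algebra K L] (x : Fin n → L),
      (∀ k, aeval x (G k) = 0) → (∀ i, aeval x (zH i) = 0) → (∀ i, aeval x (zP i) = 0) →
        x = 0) →
    ∃ (cf : Fin ρ → Fin (ρ + l) → K) (P : Fin (τ + 1) → MvPolynomial (Fin n) K),
      (∀ i, (P i).IsHomogeneous D) ∧ ∀ (L : Type) [Field L] [Algebra K L] (x : Fin n → L),
      (∀ k, aeval x (G k) = 0) → (∀ j, aeval x (∑ i, cf j i • zH i) = 0) →
        (∀ i, aeval x (P i) = 0) → x = 0 := by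
  classical
  induction l with
  | zero =>
    intro zH zP hzH hzP h0
    refine ⟨fun j i => if i = j then 1 else 0, zP, hzP, fun L _ _ x hGx hx hPx => ?_⟩
    refine h0 L x hGx (fun i => ?_) hPx
    have h1 := hx i
    have h2 : ∑ i', (if i' = i then (1 : K) else 0) • zH i' = zH i := by
      rw [Finset.sum_eq_single i]
      · rw [if_pos rfl, one_smul]
      · intro b _ hb
        rw [if_neg hb, zero_smul]
      · intro h
        exact absurd (Finset.mem_univ _) h
    rwa [h2] at h1
  | succ l ih =>
    intro zH zP hzH hzP h0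
    obtain ⟨c, hc1, hc⟩ := elim_one hD G g hG htr
      (ι := Fin (ρ + l + 1) ⊕ Fin (τ + 1)) (by
        rw [Fintype.card_sum, Fintype.card_fin, Fintype.card_fin]
        omega) (Sum.inl (Fin.last _)) (Sum.elim zH zP) (by
        rintro (i | i)
        · exact hzH i
        · exact hzP i) (by
        intro L _ _ x hGx hx
        exact h0 L x hGx (fun i => hx (Sum.inl i)) fun i => hx (Sum.inr i))
    obtain ⟨cf, P, hP, hcf⟩ := ih
      (fun i => zH (Fin.castSucc i) - c (Sum.inl (Fin.castSucc i)) • zH (Fin.last _))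
      (fun i => zP i - c (Sum.inr i) • zH (Fin.last _))
      (fun i => (hzH _).sub ((homogeneousSubmodule (Fin n) K D).smul_mem _ (hzH _)))
      (fun i => (hzP _).sub ((homogeneousSubmodule (Fin n) K D).smul_mem _ (hzH _))) (by
        intro L _ _ x hGx hx1 hx2
        refine hc L x hGx ?_
        rintro (i | i)
        · simp only [Sum.elim_inl]
          refine Fin.lastCases ?_ (fun i => ?_) i
          · rw [hc1, one_smul]
          · have h1 := hx1 i
            rw [map_sub, map_smul, sub_eq_zero] at h1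
            exact h1
        · simp only [Sum.elim_inl, Sum.elim_inr]
          have h1 := hx2 i
          rw [map_sub, map_smul, sub_eq_zero] at h1
          exact h1)
    refine ⟨fun j => Fin.snoc (α := fun _ => K) (cf j)
      (- ∑ i, cf j i * c (Sum.inl (Fin.castSucc i))), P, hP, fun L _ _ x hGx hx hPx => ?_⟩
    refine hcf L x hGx (fun j => ?_) hPx
    rw [← hx j]
    congr 1
    have h1 : ∑ i : Fin (ρ + (l + 1)), (Fin.snoc (α := fun _ => K) (cf j)
        (- ∑ i, cf j i * c (Sum.inl (Fin.castSucc i))) : Fin (ρ + l + 1) → K) i • zH i =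
        ∑ i : Fin (ρ + l), cf j i • zH (Fin.castSucc i) +
          (- ∑ i, cf j i * c (Sum.inl (Fin.castSucc i))) • zH (Fin.last _) := by
      rw [show (∑ i : Fin (ρ + (l + 1)), (Fin.snoc (α := fun _ => K) (cf j)
        (- ∑ i, cf j i * c (Sum.inl (Fin.castSucc i))) : Fin (ρ + l + 1) → K) i • zH i) =
        ∑ i : Fin (ρ + l + 1), (Fin.snoc (α := fun _ => K) (cf j)
        (- ∑ i, cf j i * c (Sum.inl (Fin.castSucc i))) : Fin (ρ + l + 1) → K) i • zH i from rfl,
        Fin.sum_univ_castSucc]
      simp only [Fin.snoc_castSucc, Fin.snoc_last]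
      rfl
    rw [h1]
    simp only [smul_sub, Finset.sum_sub_distrib, smul_smul]
    rw [neg_smul, Finset.sum_smul, sub_eq_add_neg]

end Pool.Agent.H93.GT
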