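import Mathlib
import Pool.Agent.H93.GT.Fix
import Pool.Agent.H93.GT.Norm

set_option autoImplicit false

/-!
The choice of the degree and of the order of vanishing.
-/

namespace Pool.Agent.H93.GT

open MvPolynomial Finset Module Height NumberField IsDedekindDomain
open Pool.Agent.W180.OP Pool.Agent.W180.TP Pool.Agent.TH875

/-- choice of the degree -/
lemma choose_deg' (N : ℕ → ℕ) (n r T Bm B' : ℕ) (hr : 0 < r) (hT : 1 ≤ T)
    (hle : ∀ m, N m ≤ (m + 1) ^ n) (hpos : ∀ k, 1 ≤ N (k * T)) (ε : ℝ) (hε : 0 < ε) :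
    ∃ (k : ℕ) (α : ℝ), 0 < α ∧ Bm ≤ (k + 1) * T ∧ B' ≤ (k + 1) * T ∧
      α * r ≤ N (k * T) * ((((k + 1) * T : ℕ) : ℝ) - Bm) ∧
      (N ((k + 1) * T) : ℝ) * ((k + 1) * T : ℕ) ≤ (r + ε) * α ∧
      α * r ≤ (N ((k + 1) * T) : ℝ) * ((k + 1) * T : ℕ) := by
  have hr0 : (0 : ℝ) < r := by exact_mod_cast hr
  set δ : ℝ := ε / (2 * (r + ε)) with hδ
  have hδ0 : 0 < δ := by positivity
  have hδ1 : δ < 1 := by
    rw [hδ, div_lt_one (by positivity)]
    linarith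
  have hδ2 : (1 - δ) * (r + ε) = r + ε / 2 := by
    rw [hδ]
    field_simp
    ring
  obtain ⟨k, hk, hk2⟩ := growth N n T hle hpos δ hδ0 hδ1
    (⌈(2 * r + ε) * Bm / ε⌉₊ + Bm + 1 + B')
  set M : ℕ := (k + 1) * T with hM
  have hMk : k + 1 ≤ M := Nat.le_mul_of_pos_right _ hT
  have hMB : Bm + 1 ≤ M := by omega
  have hMB' : (Bm : ℝ) + 1 ≤ M := by exact_mod_cast hMB
  have hM2 : (2 * r + ε) * Bm / ε ≤ M := by
    refine (Nat.le_ceil _).trans ?_
    exact_mod_cast (by omega : ⌈(2 * r + ε) * Bm / ε⌉₊ ≤ M)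
  have hNM : (1 : ℝ) ≤ N M := by exact_mod_cast hpos (k + 1)
  have hBm0 : (0 : ℝ) ≤ Bm := Nat.cast_nonneg _
  refine ⟨k, (1 - δ) * N M * (M - Bm) / r, ?_, by omega, by omega, ?_, ?_, ?_⟩
  · have h1 : 0 < (M : ℝ) - Bm := by linarith
    have h2 : 0 < 1 - δ := by linarith
    have h3 : (0 : ℝ) < N M := by linarith
    positivity
  · rw [div_mul_cancel₀ _ hr0.ne']
    exact mul_le_mul_of_nonneg_right hk2 (by linarith)
  · have h1 : (r : ℝ) * M ≤ (r + ε / 2) * (M - Bm) := by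
      rw [div_le_iff₀ hε] at hM2
      nlinarith
    rw [mul_div_assoc', le_div_iff₀ hr0]
    calc (N M : ℝ) * M * r = N M * (r * M) := by ring
      _ ≤ N M * ((r + ε / 2) * (M - Bm)) := mul_le_mul_of_nonneg_left h1 (by linarith)
      _ = N M * (((1 - δ) * (r + ε)) * (M - Bm)) := by rw [hδ2]
      _ = (r + ε) * ((1 - δ) * N M * (M - Bm)) := by ring
  · rw [div_mul_cancel₀ _ hr0.ne']
    have h1 : (1 - δ) * N M ≤ N M := by
      have : 0 ≤ δ * N M := by positivity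
      linarith
    exact mul_le_mul h1 (by linarith) (by linarith) (by linarith)

/-- the lower bound for the dimension, in real numbers -/
lemma num_low {D ρ τ M k t N : ℕ} (hρ : 1 ≤ ρ) (hMt : M = D * ((k + 1) * t))
    (h1 : (((k + 1) * t) / (ρ + τ) + 1) ^ (ρ + τ) ≤ N) :
    (M : ℝ) ^ (ρ + τ) ≤ N * (D * (ρ + τ)) ^ (ρ + τ) := by
  have h2 : (M : ℝ) ≤ D * (ρ + τ) * ((((k + 1) * t) / (ρ + τ) + 1 : ℕ) : ℝ) := by
    have h3 : (k + 1) * t < (ρ + τ) * (((k + 1) * t) / (ρ + τ) + 1) :=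
      Nat.lt_mul_div_succ _ (by omega)
    have h4 : M ≤ D * ((ρ + τ) * (((k + 1) * t) / (ρ + τ) + 1)) := by
      rw [hMt]
      exact Nat.mul_le_mul_left _ h3.le
    have h5 : (M : ℝ) ≤ ((D * ((ρ + τ) * (((k + 1) * t) / (ρ + τ) + 1)) : ℕ) : ℝ) := by
      exact_mod_cast h4
    refine h5.trans (le_of_eq ?_)
    push_cast
    ring
  have h6 := pow_le_pow_left₀ (Nat.cast_nonneg M) h2 (ρ + τ)
  refine h6.trans ?_
  rw [mul_pow]
  have h7 : (((((k + 1) * t) / (ρ + τ) + 1 : ℕ) : ℝ)) ^ (ρ + τ) ≤ N := by exact_mod_cast h1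
  have h8 : (0 : ℝ) ≤ (D * (ρ + τ)) ^ (ρ + τ) := by positivity
  calc _ ≤ (D * (ρ + τ) : ℝ) ^ (ρ + τ) * N := mul_le_mul_of_nonneg_left h7 h8
    _ = _ := by ring

/-- the bound for the codimension, in real numbers -/
lemma num_def {ρ τ M N w kk e : ℕ} (a B : ℝ) (ha : 0 ≤ a) (hM : (1 : ℝ) ≤ M)
    (hcod : N ≤ w + e * (kk ^ ρ * (M + 1) ^ τ)) (hkk : (kk : ℝ) ≤ a * M)
    (hlow : (M : ℝ) ^ (ρ + τ) ≤ N * B) :
    (N : ℝ) - w ≤ e * 2 ^ τ * B * a ^ ρ * N := by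
  have h1 : (N : ℝ) ≤ w + e * (kk ^ ρ * (M + 1) ^ τ) := by exact_mod_cast hcod
  have h2 : (kk : ℝ) ^ ρ ≤ a ^ ρ * M ^ ρ := by
    rw [← mul_pow]
    exact pow_le_pow_left₀ (Nat.cast_nonneg _) hkk _
  have h3 : ((M : ℝ) + 1) ^ τ ≤ 2 ^ τ * M ^ τ := by
    rw [← mul_pow]
    exact pow_le_pow_left₀ (by positivity) (by linarith) _
  have h4 : (kk : ℝ) ^ ρ * (M + 1) ^ τ ≤ (a ^ ρ * M ^ ρ) * (2 ^ τ * M ^ τ) :=
    mul_le_mul h2 h3 (by positivity) (by positivity)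
  have h5 : (e : ℝ) * (kk ^ ρ * (M + 1) ^ τ) ≤
      e * ((a ^ ρ * M ^ ρ) * (2 ^ τ * M ^ τ)) :=
    mul_le_mul_of_nonneg_left h4 (Nat.cast_nonneg _)
  have h6 : (e : ℝ) * ((a ^ ρ * M ^ ρ) * (2 ^ τ * M ^ τ)) =
      (e * 2 ^ τ * a ^ ρ) * M ^ (ρ + τ) := by
    rw [pow_add]
    ring
  have h7 : (e * 2 ^ τ * a ^ ρ : ℝ) * M ^ (ρ + τ) ≤ (e * 2 ^ τ * a ^ ρ) * (N * B) :=
    mul_le_mul_of_nonneg_left hlow (by positivity)
  have h8 : (e * 2 ^ τ * a ^ ρ : ℝ) * (N * B) = e * 2 ^ τ * B * a ^ ρ * N := by ring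
  linarith

/-- the final computation -/
lemma num_final {r α N M w Q C2 A ε ε1 hx Sg NT C C' kk κ : ℝ} (hr : 0 ≤ r) (hα : 0 < α)
    (hM : 0 < M) (hQ : 0 ≤ Q) (hC2 : 0 ≤ C2) (hA : 0 ≤ A)
    (hε11 : ε1 ≤ 1) (hε12 : ε1 ≤ ε / 2) (hhx : 0 ≤ hx) (hC' : 0 ≤ C')
    (hNT : 0 ≤ NT + C') (hκ : 0 ≤ κ)
    (h1 : α * Sg + w * (kk * NT) ≤ (w + ε / 2 * α / M) * (M * hx) +
      (N - w) * (M * (Q * hx)) + C)
    (hdef : N - w ≤ C2 * A * N) (hwN : w ≤ N) (hNM : N * M ≤ (r + ε1) * α)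
    (hcoef : κ * α ≤ w * kk) :
    Sg + κ * NT ≤ (r + (r + 1) * (Q * C2) * A + ε) * hx + (C / α + w * kk / α * C') := by
  have hQCA : 0 ≤ Q * C2 * A := by positivity
  have hMh : 0 ≤ M * hx := by positivity
  have hMQh : 0 ≤ M * (Q * hx) := by positivity
  have hR1 : (w + ε / 2 * α / M) * (M * hx) + (N - w) * (M * (Q * hx)) ≤
      α * ((r + (r + 1) * (Q * C2) * A + ε) * hx) := by
    have h2 : ε / 2 * α / M * (M * hx) = α * (ε / 2 * hx) := by
      field_simp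
    have h3 : w * (M * hx) ≤ N * (M * hx) := mul_le_mul_of_nonneg_right hwN hMh
    have h4 : (N - w) * (M * (Q * hx)) ≤ (C2 * A * N) * (M * (Q * hx)) :=
      mul_le_mul_of_nonneg_right hdef hMQh
    have h5 : N * M * (1 + Q * C2 * A) ≤ ((r + ε1) * α) * (1 + Q * C2 * A) :=
      mul_le_mul_of_nonneg_right hNM (by linarith)
    have h6 : (r + ε1) * (1 + Q * C2 * A) ≤ r + (r + 1) * (Q * C2) * A + ε / 2 := by
      have h7 : ε1 * (Q * C2 * A) ≤ 1 * (Q * C2 * A) := mul_le_mul_of_nonneg_right hε11 hQCA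
      have e1 : (r + ε1) * (1 + Q * C2 * A) =
        r + r * (Q * C2 * A) + ε1 + ε1 * (Q * C2 * A) := by ring
      have e2 : (r + 1) * (Q * C2) * A = r * (Q * C2 * A) + Q * C2 * A := by ring
      rw [e1, e2]
      linarith
    have h9 : (r + ε1) * α * (1 + Q * C2 * A) * hx ≤
        α * ((r + (r + 1) * (Q * C2) * A + ε / 2) * hx) := by
      have h10 := mul_le_mul_of_nonneg_right h6 (mul_nonneg hα.le hhx)
      linarith
    have h11 := mul_le_mul_of_nonneg_right h5 hhx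
    calc (w + ε / 2 * α / M) * (M * hx) + (N - w) * (M * (Q * hx)) =
        w * (M * hx) + ε / 2 * α / M * (M * hx) + (N - w) * (M * (Q * hx)) := by ring
      _ ≤ N * (M * hx) + α * (ε / 2 * hx) + (C2 * A * N) * (M * (Q * hx)) := by
          rw [h2]
          linarith
      _ = N * M * (1 + Q * C2 * A) * hx + α * (ε / 2 * hx) := by ring
      _ ≤ α * ((r + (r + 1) * (Q * C2) * A + ε / 2) * hx) + α * (ε / 2 * hx) := by
          linarith
      _ = _ := by ring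
  have hL : κ * α * (NT + C') ≤ w * kk * (NT + C') := mul_le_mul_of_nonneg_right hcoef hNT
  have hfinal : α * (Sg + κ * NT) ≤ α * (((r + (r + 1) * (Q * C2) * A + ε) *
      hx) + (C / α + w * kk / α * C')) := by
    have e1 : α * (((r + (r + 1) * (Q * C2) * A + ε) *
      hx) + (C / α + w * kk / α * C')) = α * ((r + (r + 1) * (Q * C2) * A + ε) *
      hx) + (C + w * kk * C') := by
      field_simp
    rw [e1]
    have h2 : 0 ≤ κ * α * C' := by positivity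
    have e2 : α * (Sg + κ * NT) = α * Sg + κ * α * (NT + C') - κ * α * C' := by ring
    have e3 : w * kk * (NT + C') = w * (kk * NT) + w * kk * C' := by ring
    rw [e2]
    rw [e3] at hL
    linarith
  exact le_of_mul_le_mul_left hfinal hα

variable {K : Type} [Field K] [NumberField K] {n : ℕ}

/-- the sum of the logarithms of the sizes is bounded above -/
theorem mu_sum {l : ℕ} (h : Fin l → ℕ) (H : Fin l → MvPolynomial (Fin n) K)
    (hH : ∀ j, (H j).IsHomogeneous (h j)) :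
    ∃ C : ℝ, 0 ≤ C ∧ ∀ (x : Fin n → K), x ≠ 0 → (∃ j, aeval x (H j) ≠ 0) →
      ∀ T : Finset (Pl K), ∑ v ∈ T, wt v * Real.log (mu (av v) h H x) ≤ C := by
  classical
  choose S1 R1 hR1 h1 using fun j => form_ub' (H j) (hH j)
  have hp1 : ∀ j, R1 j ≤ ∏ j, R1 j := le_prodR R1 hR1
  set A : ℝ := ∏ j, R1 j with hA
  have hA1 : 1 ≤ A := one_le_prodR _ _ hR1
  have hlA : 0 ≤ Real.log A := Real.log_nonneg hA1
  set S0 := Finset.univ.biUnion S1 with hS0
  refine ⟨∑ v ∈ S0, wt v * Real.log A, Finset.sum_nonneg fun v _ =>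
    mul_nonneg (wt_nonneg v) hlA, fun x hx hHx T => ?_⟩
  have hμ : ∀ v : Pl K, 0 < mu (av v) h H x := by
    intro v
    obtain ⟨j, hj⟩ := hHx
    exact (rho_pos (av v) (h j) (H j) hx hj).trans_le (le_mu _ _ _ _ j)
  have h2 : ∀ v, Real.log (mu (av v) h H x) ≤ (if v ∈ S0 then Real.log A else 0) := by
    intro v
    split_ifs with hv
    · exact Real.log_le_log (hμ v) (mu_le _ _ _ _ (by linarith) fun j =>
        ((h1 j v x hx).1).trans (hp1 j))
    · refine Real.log_nonpos (hμ v).le (mu_le _ _ _ _ zero_le_one fun j => ?_)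
      refine (h1 j v x hx).2 fun hj => hv ?_
      exact Finset.mem_biUnion.2 ⟨j, Finset.mem_univ _, hj⟩
  refine (Finset.sum_le_sum fun v _ => mul_le_mul_of_nonneg_left (h2 v) (wt_nonneg v)).trans ?_
  rw [← Finset.sum_filter_add_sum_filter_not T (fun v => v ∈ S0)]
  have h3 : ∑ v ∈ T.filter (fun v => ¬ v ∈ S0), wt v * (if v ∈ S0 then Real.log A else 0) = 0 := by
    refine Finset.sum_eq_zero fun v hv => ?_
    rw [if_neg (Finset.mem_filter.1 hv).2, mul_zero]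
  rw [h3, add_zero]
  have h4 : ∑ v ∈ T.filter (fun v => v ∈ S0), wt v * (if v ∈ S0 then Real.log A else 0) =
      ∑ v ∈ T.filter (fun v => v ∈ S0), wt v * Real.log A :=
    Finset.sum_congr rfl fun v hv => by rw [if_pos (Finset.mem_filter.1 hv).2]
  rw [h4]
  refine Finset.sum_le_sum_of_subset_of_nonneg ?_ fun v _ _ => mul_nonneg (wt_nonneg v) hlA
  intro v hv
  exact (Finset.mem_filter.1 hv).2

/-- **The inequality with a parameter.** -/
theorem paramA {m q l ρ τ : ℕ} (hρ : 1 ≤ ρ) (hrq : ρ + (τ + 1) ≤ q)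
    (G : Fin m → MvPolynomial (Fin n) K) (g : Fin m → ℕ) (hG : ∀ k, (G k).IsHomogeneous (g k))
    (hprime : (Ideal.span (Set.range G)).IsPrime)
    (htr : Algebra.trdeg K (MvPolynomial (Fin n) K ⧸ Ideal.span (Set.range G)) =
      ((ρ + (τ + 1) : ℕ) : Cardinal))
    (F : Fin q → MvPolynomial (Fin n) K) (d : Fin q → ℕ) (hd : ∀ i, 1 ≤ d i)
    (hF : ∀ i, (F i).IsHomogeneous (d i))
    (hgp : ∀ e : Fin (ρ + (τ + 1)) ↪ Fin q, ∀ (L : Type) [Field L] [Algebra K L] (x : Fin n → L),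
      (∀ k, aeval x (G k) = 0) → (∀ k, aeval x (F (e k)) = 0) → x = 0)
    (h : Fin l → ℕ) (hh : ∀ j, 1 ≤ h j) (H : Fin l → MvPolynomial (Fin n) K)
    (hH : ∀ j, (H j).IsHomogeneous (h j))
    (dP : Fin (τ + 1) → ℕ) (hdP : ∀ j, 1 ≤ dP j) (P : Fin (τ + 1) → MvPolynomial (Fin n) K)
    (hP : ∀ j, (P j).IsHomogeneous (dP j))
    (hY : ∀ (L : Type) [Field L] [Algebra K L] (x : Fin n → L),
      (∀ k, aeval x (G k) = 0) → (∀ j, aeval x (H j) = 0) → (∀ j, aeval x (P j) = 0) → x = 0) :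
    ∃ (κ0 C0 : ℝ), 0 < κ0 ∧ 0 ≤ C0 ∧ ∀ κ : ℝ, 0 < κ → κ ≤ κ0 → ∀ (S : Finset (Pl K)) (ε : ℝ),
      0 < ε → ∃ Z : MvPolynomial (Fin n) K, Z ∉ Ideal.span (Set.range G) ∧
      (∃ t, Z.IsHomogeneous t) ∧
      ∃ C : ℝ, 0 ≤ C ∧ ∀ x : Fin n → K, x ≠ 0 → (∀ k, aeval x (G k) = 0) →
        (∀ i, aeval x (F i) ≠ 0) → aeval x Z ≠ 0 → (∃ j, aeval x (H j) ≠ 0) ∧
        ∀ T : Finset (Pl K), Disjoint S T →
        ∑ v ∈ S, wt v * ∑ i, lam (av v) (d i) (F i) x / d i +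
          κ * ∑ v ∈ T, wt v * (- Real.log (mu (av v) h H x)) ≤
        (((ρ + (τ + 1) : ℕ) : ℝ) + C0 * κ ^ ρ + ε) * logHeight x + C := by
  classical
  obtain ⟨I, hI⟩ : ∃ I, I = Ideal.span (Set.range G) := ⟨_, rfl⟩
  obtain ⟨r, hrd⟩ : ∃ r, r = ρ + (τ + 1) := ⟨_, rfl⟩
  have hr : 0 < r := by omega
  set D : ℕ := ∏ i, d i with hDd
  have hD : 1 ≤ D := Nat.one_le_iff_ne_zero.2
    (Finset.prod_ne_zero_iff.2 fun i _ => (Nat.one_le_iff_ne_zero.1 (hd i)))
  have hdD : ∀ i, d i ∣ D := fun i => Finset.dvd_prod_of_mem d (Finset.mem_univ i)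
  set y : (Fin (ρ + (τ + 1)) ↪ Fin q) → Fin (ρ + (τ + 1)) → MvPolynomial (Fin n) K := fun e k =>
    F (e k) ^ (D / d (e k)) with hy
  have hyh : ∀ e k, (y e k).IsHomogeneous D := by
    intro e k
    have := (hF (e k)).pow (D / d (e k))
    rwa [Nat.mul_div_cancel' (hdD (e k))] at this
  have h0y : ∀ e, ∀ (L : Type) [Field L] [Algebra K L] (x : Fin n → L),
      (∀ k, aeval x (G k) = 0) → (∀ k, aeval x (y e k) = 0) → x = 0 := by
    intro e L _ _ x hx hxy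
    refine hgp e L x hx fun k => ?_
    have h1 := hxy k
    simp only [hy, map_pow] at h1
    exact eq_zero_of_pow_eq_zero h1
  have halg : ∀ e, AlgebraicIndependent K (fun k => Ideal.Quotient.mkₐ K I (y e k)) := by
    intro e
    subst hI
    exact alg_ind G g hG D hD (y e) (hyh e) (h0y e) hprime htr
  have hmod : ∀ e, ∃ (E : Finset (Fin n →₀ ℕ)) (t0 : ℕ), Ind I (y e) E ∧ ∀ t, t0 ≤ t →
      ∀ M, Module.finrank K (VM I M) ≤ (Sm D E (ρ + (τ + 1)) (M + D * t)).card := by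
    intro e
    have halge := halg e
    subst hI
    exact module_main G g hG D hD (y e) (hyh e) ⟨0, by omega⟩ (h0y e) hprime halge
  choose E t0 hE hcount using hmod
  have hprime' : I.IsPrime := by rw [hI]; exact hprime
  -- the forms defining `Y`
  set D0 : ℕ := (∏ j, h j) * ∏ j, dP j with hD0d
  have hD0 : 1 ≤ D0 := Nat.one_le_iff_ne_zero.2 (Nat.mul_ne_zero
    (Finset.prod_ne_zero_iff.2 fun i _ => (Nat.one_le_iff_ne_zero.1 (hh i)))
    (Finset.prod_ne_zero_iff.2 fun i _ => (Nat.one_le_iff_ne_zero.1 (hdP i))))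
  have hhD : ∀ j, h j ∣ D0 := fun j =>
    Dvd.dvd.mul_right (Finset.dvd_prod_of_mem h (Finset.mem_univ j)) _
  have hlD : ∀ j, dP j ∣ D0 := fun j =>
    Dvd.dvd.mul_left (Finset.dvd_prod_of_mem dP (Finset.mem_univ j)) _
  have hHpow : ∀ j, (H j ^ (D0 / h j)).IsHomogeneous D0 := fun j => by
    have := (hH j).pow (D0 / h j)
    rwa [Nat.mul_div_cancel' (hhD j)] at this
  have hPpow : ∀ j, (P j ^ (D0 / dP j)).IsHomogeneous D0 := fun j => by
    have := (hP j).pow (D0 / dP j)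
    rwa [Nat.mul_div_cancel' (hlD j)] at this
  obtain ⟨cf0, P', hP', hnorm⟩ := norm_main (ρ := ρ) (τ := τ) hD0 G g hG htr l
    (fun i => Fin.addCases (fun _ => 0) (fun j => H j ^ (D0 / h j)) i)
    (fun j => P j ^ (D0 / dP j)) (by
      intro i
      refine Fin.addCases (fun j => ?_) (fun j => ?_) i
      · simp only [Fin.addCases_left]
        exact isHomogeneous_zero _ _ _
      · simp only [Fin.addCases_right]
        exact hHpow j) hPpow (by
      intro L _ _ x hx hx1 hx2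
      refine hY L x hx (fun j => ?_) (fun j => ?_)
      · have h1 := hx1 (Fin.natAdd ρ j)
        simp only [Fin.addCases_right] at h1
        rw [map_pow] at h1
        exact eq_zero_of_pow_eq_zero h1
      · have h1 := hx2 j
        rw [map_pow] at h1
        exact eq_zero_of_pow_eq_zero h1)
  set cf : Fin ρ → Fin l → K := fun j i => cf0 j (Fin.natAdd ρ i) with hcf
  have hcfs : ∀ j, ∑ i, cf0 j i • (Fin.addCases (fun _ => 0) (fun j => H j ^ (D0 / h j)) i :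
      MvPolynomial (Fin n) K) = ∑ i, cf j i • H i ^ (D0 / h i) := by
    intro j
    rw [Fin.sum_univ_add]
    simp only [Fin.addCases_left, Fin.addCases_right, smul_zero, Finset.sum_const_zero, zero_add]
    rfl
  set z : Fin (ρ + (τ + 1)) → MvPolynomial (Fin n) K :=
    Fin.addCases (fun j => ∑ i, cf j i • H i ^ (D0 / h i)) P' with hz
  have hzH : ∀ j : Fin ρ, z (Fin.castAdd (τ + 1) j) = ∑ i, cf j i • H i ^ (D0 / h i) :=
    fun j => by simp only [hz, Fin.addCases_left]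
  have hzP : ∀ j : Fin (τ + 1), z (Fin.natAdd ρ j) = P' j := fun j => by
    simp only [hz, Fin.addCases_right]
  have hzh : ∀ j, (z j).IsHomogeneous D0 := by
    intro j
    refine Fin.addCases (fun j => ?_) (fun j => ?_) j
    · rw [hzH]
      exact IsHomogeneous.sum _ _ _ fun i _ =>
        (homogeneousSubmodule (Fin n) K D0).smul_mem _ (hHpow i)
    · rw [hzP]
      exact hP' j
  have h0z : ∀ (L : Type) [Field L] [Algebra K L] (x : Fin n → L),
      (∀ k, aeval x (G k) = 0) → (∀ k, aeval x (z k) = 0) → x = 0 := by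
    intro L _ _ x hx hxz
    refine hnorm L x hx (fun j => ?_) (fun j => ?_)
    · have h1 := hxz (Fin.castAdd (τ + 1) j)
      rw [hzH, ← hcfs] at h1
      exact h1
    · have h1 := hxz (Fin.natAdd ρ j)
      rwa [hzP] at h1
  have halgz : AlgebraicIndependent K (fun k => Ideal.Quotient.mkₐ K I (z k)) := by
    subst hI
    exact alg_ind G g hG D0 hD0 z hzh h0z hprime htr
  obtain ⟨E0, -, hgen⟩ := gen G g hG D0 hD0 z hzh h0z
  rw [← hI] at hgen
  have hzI : ∀ j, z j ∉ I := by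
    intro j hj
    exact halgz.ne_zero j (Ideal.Quotient.eq_zero_iff_mem.2 hj)
  -- the numbers
  set t : ℕ := 1 + ∑ e, t0 e with ht
  have htle : ∀ e, t0 e ≤ t := fun e => by
    have := Finset.single_le_sum (f := t0) (fun _ _ => Nat.zero_le _) (Finset.mem_univ e)
    omega
  set Bm : ℕ := ∑ e, ∑ β ∈ E e, β.degree with hBm
  have hB : ∀ e, ∀ β ∈ E e, β.degree ≤ Bm := by
    intro e β hβ
    refine (Finset.single_le_sum (f := fun β : Fin n →₀ ℕ => β.degree) (fun _ _ => Nat.zero_le _)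
      hβ).trans ?_
    exact Finset.single_le_sum (f := fun e => ∑ β ∈ E e, β.degree) (fun _ _ => Nat.zero_le _)
      (Finset.mem_univ e)
  have hT : 1 ≤ D * t := Nat.one_le_iff_ne_zero.2 (Nat.mul_ne_zero (by omega) (by omega))
  set e0 : Fin (ρ + (τ + 1)) ↪ Fin q := Fin.castLEEmb hrq with he0
  have hmany : ∀ m' q' : ℕ, (ρ + τ) * q' ≤ m' → (q' + 1) ^ (ρ + τ) ≤ finrank K (VM I (D * m')) :=
    fun m' q' hq' => VM_many (r := ρ + τ) hD hq' I (y e0) (hyh e0) (halg e0)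
  have hpos : ∀ k, 1 ≤ finrank K (VM I (k * (D * t))) := by
    intro k
    have h1 := hmany (k * t) 0 (by omega)
    have e1 : D * (k * t) = k * (D * t) := by ring
    rw [e1, zero_add, one_pow] at h1
    exact h1
  -- constants
  set Q : ℝ := ((∑ i, d i : ℕ) + n : ℝ) with hQ
  have hQ0 : 0 ≤ Q := by positivity
  set C2 : ℝ := E0.card * 2 ^ τ * (D * (ρ + τ)) ^ (ρ + τ) with hC2
  have hC20 : 0 ≤ C2 := by positivity
  set a0 : ℝ := 1 / (2 * C2 + 1) with ha0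
  have ha00 : 0 < a0 := by positivity
  have ha01 : a0 ≤ 1 := by
    rw [ha0, div_le_one (by positivity)]
    linarith
  have hr1 : (1 : ℝ) ≤ r := by exact_mod_cast hr
  refine ⟨a0 / 4, (r + 1) * (Q * C2) * 4 ^ ρ, by positivity, by positivity, ?_⟩
  intro κ hκ0 hκ1 S ε hε
  obtain ⟨a, ha⟩ : ∃ a, a = 4 * κ := ⟨_, rfl⟩
  have hapos : 0 < a := by rw [ha]; linarith
  have haa0 : a ≤ a0 := by rw [ha]; linarith
  have ha1 : a ≤ 1 := haa0.trans ha01
  have haρ : a ^ ρ ≤ a := by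
    calc a ^ ρ ≤ a ^ 1 := pow_le_pow_of_le_one hapos.le ha1 hρ
      _ = a := pow_one a
  have haρ0 : 0 ≤ a ^ ρ := by positivity
  have hhalf : C2 * a ^ ρ ≤ 1 / 2 := by
    have h1 : C2 * a ^ ρ ≤ C2 * a0 := mul_le_mul_of_nonneg_left (haρ.trans haa0) hC20
    refine h1.trans ?_
    rw [ha0, mul_one_div, div_le_iff₀ (by positivity)]
    linarith
  obtain ⟨ε1, hε1, hε11, hε12⟩ : ∃ ε1 : ℝ, 0 < ε1 ∧ ε1 ≤ 1 ∧ ε1 ≤ ε / 2 :=
    ⟨min 1 (ε / 2), lt_min one_pos (by linarith), min_le_left _ _, min_le_right _ _⟩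
  obtain ⟨k, α, hα0, hMB, hMB', hα, hNM, hαle⟩ := choose_deg' (fun M => finrank K (VM I M)) n r
    (D * t) Bm ⌈2 / a⌉₊ hr hT (VM_le I) hpos ε1 hε1
  set M : ℕ := (k + 1) * (D * t) with hM
  obtain ⟨N, hN⟩ : ∃ N, N = finrank K (VM I M) := ⟨_, rfl⟩
  rw [← hN] at hNM hαle
  have hN1 : 1 ≤ N := by rw [hN]; exact hpos (k + 1)
  have hN1' : (1 : ℝ) ≤ N := by exact_mod_cast hN1
  have hMt : M = D * ((k + 1) * t) := by rw [hM]; ring
  have hM1 : 1 ≤ M := le_trans hT (Nat.le_mul_of_pos_left _ (Nat.succ_pos k))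
  have hM1' : (1 : ℝ) ≤ M := by exact_mod_cast hM1
  have hMa : 2 ≤ a * M := by
    have h1 : 2 / a ≤ M := (Nat.le_ceil _).trans (by exact_mod_cast hMB')
    rwa [div_le_iff₀ hapos, mul_comm] at h1
  -- the order of vanishing
  set kk : ℕ := ⌊a * M⌋₊ with hkk
  have hkk1 : (kk : ℝ) ≤ a * M := Nat.floor_le (by positivity)
  have hkk2 : a * M / 2 ≤ kk := by
    have h1 := Nat.lt_floor_add_one (a * M)
    rw [← hkk] at h1
    linarith
  obtain ⟨w, hw⟩ : ∃ w, w = finrank K (Wk I D0 z E0 M kk) := ⟨_, rfl⟩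
  have hcod := codim_Wk hD0 I z E0 M kk (hgen M) hzh
  rw [← hN, ← hw] at hcod
  have hNlow : (M : ℝ) ^ (ρ + τ) ≤ N * (D * (ρ + τ)) ^ (ρ + τ) := by
    have h1 := hmany ((k + 1) * t) (((k + 1) * t) / (ρ + τ)) (Nat.mul_div_le _ _)
    rw [← hMt, ← hN] at h1
    exact num_low hρ hMt h1
  have hdef : (N : ℝ) - w ≤ C2 * a ^ ρ * N := num_def a _ hapos.le hM1' hcod hkk1 hNlow
  have hwN2 : (N : ℝ) / 2 ≤ w := by
    have h1 : C2 * a ^ ρ * N ≤ 1 / 2 * N := mul_le_mul_of_nonneg_right hhalf (by linarith)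
    linarith
  have hw1 : 1 ≤ w := by
    by_contra hcon
    have h1 : w = 0 := by omega
    rw [h1] at hwN2
    norm_num at hwN2
    linarith
  have hwN : (w : ℝ) ≤ N := by
    have hfin := VM_finite I M
    have : w ≤ N := by
      rw [hw, hN]
      exact Submodule.finrank_le _
    exact_mod_cast this
  -- the inequality in degree `M`
  have hM0 : (0 : ℝ) < M := by linarith
  obtain ⟨Z, hZI, hZh, C, hC0, hmain⟩ := fixed (σ := τ + 1) (D := D) (D0 := D0) (M := M) (N := N)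
    (Bm := Bm) (k := kk) (w := w) (r := ρ + (τ + 1)) (by omega) hrq I hprime' G hI g hG F d hd hF
    hD hdD hgp E hE hB hN.symm α hα0.le (by
      intro e
      rw [← hrd]
      refine hα.trans (mul_le_mul_of_nonneg_right ?_ ?_)
      · have h1 := hcount e t (htle e) (k * (D * t))
        have e1 : k * (D * t) + D * t = M := by rw [hM]; ring
        rw [e1, ← hrd] at h1
        exact_mod_cast h1
      · have : (Bm : ℝ) ≤ M := by exact_mod_cast hMB
        linarith) hMB h hh H hH hhD hD0 z hzh cf hzH ⟨0, by omega⟩ (hzI _) E0 hw.symm hw1 S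
    (ε / 2 * α / M) (by positivity)
  obtain ⟨C', hC'0, hC'⟩ := mu_sum h H hH
  refine ⟨Z, by rw [← hI]; exact hZI, hZh, C / α + w * kk / α * C', by positivity, ?_⟩
  intro x hx hGx hFx hZx
  obtain ⟨hHx, hmain2⟩ := hmain x hx hGx hFx hZx
  refine ⟨hHx, fun T hST => ?_⟩
  have h1 := hmain2 T hST
  set Sg : ℝ := ∑ v ∈ S, wt v * ∑ i, lam (av v) (d i) (F i) x / d i with hSg
  set NT : ℝ := ∑ v ∈ T, wt v * (- Real.log (mu (av v) h H x)) with hNT
  have hNT0 : 0 ≤ NT + C' := by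
    have h2 := hC' x hx hHx T
    have h3 : NT = - ∑ v ∈ T, wt v * Real.log (mu (av v) h H x) := by
      rw [hNT, ← Finset.sum_neg_distrib]
      exact Finset.sum_congr rfl fun v _ => by ring
    linarith
  have hh0 := logHeight_nonneg x
  set hx' : ℝ := logHeight x with hhx
  rw [← hQ] at h1
  -- the coefficient of `NT`
  have hcoef : κ * α ≤ w * kk := by
    have h2 : α ≤ N * M := by
      have h3 : α * 1 ≤ α * r := mul_le_mul_of_nonneg_left hr1 hα0.le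
      linarith
    have h3 : κ * α ≤ κ * (N * M) := mul_le_mul_of_nonneg_left h2 hκ0.le
    have h4 : (N : ℝ) / 2 * (a * M / 2) ≤ w * kk :=
      mul_le_mul hwN2 hkk2 (by positivity) (by positivity)
    have h5 : κ * (N * M) = (N : ℝ) / 2 * (a * M / 2) := by
      rw [ha]
      ring
    linarith
  have h12 : (r + 1 : ℝ) * (Q * C2) * 4 ^ ρ * κ ^ ρ = (r + 1) * (Q * C2) * a ^ ρ := by
    rw [mul_assoc, ← mul_pow, ← ha]
  have e4 : (((ρ + (τ + 1) : ℕ) : ℕ) : ℝ) = r := by rw [hrd]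
  rw [e4, h12]
  exact num_final (by linarith) hα0 hM0 hQ0 hC20 haρ0 hε11 hε12 hh0 hC'0 hNT0 hκ0.le h1 hdef hwN
    hNM hcoef

end Pool.Agent.H93.GT
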