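import Mathlib
import Pool.Agent.H93.GT.Par
import Pool.Agent.H93.GT.Num

set_option autoImplicit false

/-!
The power inequality.
-/

namespace Pool.Agent.H93.GT

open MvPolynomial Finset Module Height NumberField IsDedekindDomain
open Pool.Agent.W180.OP Pool.Agent.W180.TP Pool.Agent.TH875

variable {K : Type} [Field K] [NumberField K] {n : ℕ}

/-- the counting function is bounded by the height -/
theorem mu_ub {l : ℕ} (h : Fin l → ℕ) (H : Fin l → MvPolynomial (Fin n) K)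
    (hH : ∀ j, (H j).IsHomogeneous (h j)) :
    ∃ C : ℝ, 0 ≤ C ∧ ∀ (x : Fin n → K), x ≠ 0 → (∃ j, aeval x (H j) ≠ 0) →
      ∀ T : Finset (Pl K), ∑ v ∈ T, wt v * (- Real.log (mu (av v) h H x)) ≤
        C * (1 + logHeight x) := by
  classical
  choose C hC0 hC using fun j => liou (H j) (h j) (hH j)
  have hs : ∀ j, 0 ≤ (h j : ℝ) + C j := fun j => add_nonneg (Nat.cast_nonneg _) (hC0 j)
  refine ⟨∑ j, ((h j : ℝ) + C j), Finset.sum_nonneg fun j _ => hs j, fun x hx hHx T => ?_⟩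
  obtain ⟨j, hj⟩ := hHx
  have hh := logHeight_nonneg x
  have h1 := hC j T x hx (by rw [eval_eq_aeval]; exact hj)
  have h2 : ∑ v ∈ T, wt v * (- Real.log (mu (av v) h H x)) ≤
      ∑ v ∈ T, wt v * max 0 (lam (av v) (h j) (H j) x) := by
    refine Finset.sum_le_sum fun v _ => mul_le_mul_of_nonneg_left ?_ (wt_nonneg v)
    have h3 := Real.log_le_log (rho_pos (av v) (h j) (H j) hx hj) (le_mu (av v) h H x j)
    have h4 : lam (av v) (h j) (H j) x = - Real.log (rho (av v) (h j) (H j) x) := by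
      rw [← lam_rho, bc_self]
    refine le_trans ?_ (le_max_right _ _)
    rw [h4]
    linarith
  have h5 : (h j : ℝ) + C j ≤ ∑ j, ((h j : ℝ) + C j) :=
    Finset.single_le_sum (f := fun j => (h j : ℝ) + C j) (fun j _ => hs j) (Finset.mem_univ j)
  have h6 : h j * logHeight x + C j ≤ (h j + C j) * (1 + logHeight x) := by
    have e1 : ((h j : ℝ) + C j) * (1 + logHeight x) =
      h j * logHeight x + C j + (h j + C j * logHeight x) := by ring
    rw [e1]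
    have := mul_nonneg (hC0 j) hh
    have : (0 : ℝ) ≤ h j := Nat.cast_nonneg _
    linarith
  have h7 := mul_le_mul_of_nonneg_right h5 (show 0 ≤ 1 + logHeight x by linarith)
  linarith

/-- **The power inequality.** -/
theorem powB {m q l p τ : ℕ} (hp : 1 ≤ p) (hrq : p + 1 + (τ + 1) ≤ q)
    (G : Fin m → MvPolynomial (Fin n) K) (g : Fin m → ℕ) (hG : ∀ k, (G k).IsHomogeneous (g k))
    (hprime : (Ideal.span (Set.range G)).IsPrime)
    (htr : Algebra.trdeg K (MvPolynomial (Fin n) K ⧸ Ideal.span (Set.range G)) =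
      ((p + 1 + (τ + 1) : ℕ) : Cardinal))
    (F : Fin q → MvPolynomial (Fin n) K) (d : Fin q → ℕ) (hd : ∀ i, 1 ≤ d i)
    (hF : ∀ i, (F i).IsHomogeneous (d i))
    (hgp : ∀ e : Fin (p + 1 + (τ + 1)) ↪ Fin q, ∀ (L : Type) [Field L] [Algebra K L]
      (x : Fin n → L), (∀ k, aeval x (G k) = 0) → (∀ k, aeval x (F (e k)) = 0) → x = 0)
    (h : Fin l → ℕ) (hh : ∀ j, 1 ≤ h j) (H : Fin l → MvPolynomial (Fin n) K)
    (hH : ∀ j, (H j).IsHomogeneous (h j))
    (dP : Fin (τ + 1) → ℕ) (hdP : ∀ j, 1 ≤ dP j) (P : Fin (τ + 1) → MvPolynomial (Fin n) K)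
    (hP : ∀ j, (P j).IsHomogeneous (dP j))
    (hY : ∀ (L : Type) [Field L] [Algebra K L] (x : Fin n → L),
      (∀ k, aeval x (G k) = 0) → (∀ j, aeval x (H j) = 0) → (∀ j, aeval x (P j) = 0) → x = 0) :
    ∃ c : ℝ, 0 < c ∧ ∀ (S : Finset (Pl K)) (ε : ℝ),
      0 < ε → ∃ Z : MvPolynomial (Fin n) K, Z ∉ Ideal.span (Set.range G) ∧
      (∃ t, Z.IsHomogeneous t) ∧
      ∃ C : ℝ, ∀ x : Fin n → K, x ≠ 0 → (∀ k, aeval x (G k) = 0) →
        (∀ i, aeval x (F i) ≠ 0) → aeval x Z ≠ 0 → (∃ j, aeval x (H j) ≠ 0) ∧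
        ∀ T : Finset (Pl K), Disjoint S T →
          0 ≤ ∑ v ∈ T, wt v * (- Real.log (mu (av v) h H x)) →
          0 ≤ (((p + 1 + (τ + 1) : ℕ) : ℝ) + ε) * logHeight x + C -
            ∑ v ∈ S, wt v * ∑ i, lam (av v) (d i) (F i) x / d i ∧
          c * (∑ v ∈ T, wt v * (- Real.log (mu (av v) h H x))) ^ (p + 1) ≤
            (1 + logHeight x) * ((((p + 1 + (τ + 1) : ℕ) : ℝ) + ε) * logHeight x + C -
            ∑ v ∈ S, wt v * ∑ i, lam (av v) (d i) (F i) x / d i) ^ p := by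
  classical
  obtain ⟨κ0, C0, hκ0, hC0, hA⟩ := paramA (ρ := p + 1) (by omega) hrq G g hG hprime htr F d hd hF
    hgp h hh H hH dP hdP P hP hY
  obtain ⟨C1, hC10, hC1⟩ := mu_ub h H hH
  obtain ⟨c, hc, hnum⟩ := num_pow p hp C0 κ0 C1 hC0 hκ0 hC10
  refine ⟨c, hc, fun S ε hε => ?_⟩
  obtain ⟨KK, hne, hKK, hnum2⟩ := hnum ε hε
  have hA' : ∀ κ : KK, ∃ Z : MvPolynomial (Fin n) K, Z ∉ Ideal.span (Set.range G) ∧
      (∃ t, Z.IsHomogeneous t) ∧
      ∃ C : ℝ, 0 ≤ C ∧ ∀ x : Fin n → K, x ≠ 0 → (∀ k, aeval x (G k) = 0) →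
        (∀ i, aeval x (F i) ≠ 0) → aeval x Z ≠ 0 → (∃ j, aeval x (H j) ≠ 0) ∧
        ∀ T : Finset (Pl K), Disjoint S T →
        ∑ v ∈ S, wt v * ∑ i, lam (av v) (d i) (F i) x / d i +
          κ * ∑ v ∈ T, wt v * (- Real.log (mu (av v) h H x)) ≤
        (((p + 1 + (τ + 1) : ℕ) : ℝ) + C0 * κ.1 ^ (p + 1) + ε / 4) * logHeight x + C :=
    fun κ => hA κ.1 (hKK κ.1 κ.2).1 (hKK κ.1 κ.2).2 S (ε / 4) (by linarith)
  choose Z hZI hZh C hC0' hmain using hA'
  refine ⟨∏ κ, Z κ, ?_, ?_, ∑ κ, C κ + ε, ?_⟩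
  · intro h1
    obtain ⟨κ, -, hκ⟩ := (hprime.prod_mem_iff).1 h1
    exact hZI κ hκ
  · choose t ht using hZh
    exact ⟨_, IsHomogeneous.prod _ _ _ fun κ _ => ht κ⟩
  intro x hx hGx hFx hZx
  rw [map_prod] at hZx
  have hZx' : ∀ κ, aeval x (Z κ) ≠ 0 := fun κ h0 =>
    hZx (Finset.prod_eq_zero (Finset.mem_univ κ) h0)
  obtain ⟨κ1, hκ1⟩ := hne
  have hHx := (hmain ⟨κ1, hκ1⟩ x hx hGx hFx (hZx' _)).1
  refine ⟨hHx, fun T hST hNT => ?_⟩
  refine hnum2 _ _ _ _ (∑ κ, C κ) (logHeight_nonneg x) hNT (hC1 x hx hHx T) ?_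
  intro κ hκ
  have h1 := (hmain ⟨κ, hκ⟩ x hx hGx hFx (hZx' _)).2 T hST
  have h2 : C ⟨κ, hκ⟩ ≤ ∑ κ, C κ := Finset.single_le_sum (f := C) (fun κ _ => hC0' κ)
    (Finset.mem_univ _)
  simp only at h1
  linarith

/-- the set of the places where the size is not one is finite -/
theorem mu_support {l : ℕ} (h : Fin l → ℕ) (H : Fin l → MvPolynomial (Fin n) K)
    (hH : ∀ j, (H j).IsHomogeneous (h j)) {x : Fin n → K} (hx : x ≠ 0)
    (hHx : ∃ j, aeval x (H j) ≠ 0) : {v : Pl K | mu (av v) h H x < 1}.Finite := by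
  classical
  obtain ⟨j, hj⟩ := hHx
  have h1 := nrm_support_finite hx
  have h2 := fv_support_finite hj
  refine ((Set.finite_range (Sum.inl : InfinitePlace K → Pl K)).union
    ((h1.union h2).image (Sum.inr : HeightOneSpectrum (𝓞 K) → Pl K))).subset ?_
  rintro (w | v) hv
  · exact Or.inl ⟨w, rfl⟩
  · right
    refine ⟨v, ?_, rfl⟩
    by_contra hcon
    rw [Set.mem_union, not_or] at hcon
    obtain ⟨hc1, hc2⟩ := hcon
    simp only [Set.mem_ofPred_eq, not_not] at hc1 hc2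
    have h3 := le_mu (av (Sum.inr v : Pl K)) h H x j
    have h4 : rho (av (Sum.inr v : Pl K)) (h j) (H j) x = 1 := by
      show fv v (aeval x (H j)) / nrm (fv v) x ^ h j = 1
      rw [hc1, hc2, one_pow, div_one]
    have h5 : mu (av (Sum.inr v : Pl K)) h H x < 1 := hv
    linarith

end Pool.Agent.H93.GT
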