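import Mathlib
import Pool.Agent.H93.GT.Pow
import Pool.Agent.H93.GT.Avoid

set_option autoImplicit false

/-!
The proximity function of a closed subset which contains no point of `s` of the hypersurfaces.
-/

namespace Pool.Agent.H93.GT

open MvPolynomial Finset Module Height NumberField IsDedekindDomain
open Pool.Agent.W180.OP Pool.Agent.W180.TP Pool.Agent.TH875

variable {K : Type} [Field K] [NumberField K] {n : ℕ}

omit [NumberField K] in
/-- general position of a family with one more form -/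
theorem gp_snoc {m q s : ℕ} (G : Fin m → MvPolynomial (Fin n) K)
    (F : Fin q → MvPolynomial (Fin n) K)
    (hgp : ∀ e : Fin (s + 1) ↪ Fin q, ∀ (L : Type) [Field L] [Algebra K L] (x : Fin n → L),
      (∀ k, aeval x (G k) = 0) → (∀ k, aeval x (F (e k)) = 0) → x = 0)
    (A : MvPolynomial (Fin n) K)
    (hA : ∀ e : Fin s ↪ Fin q, ∀ (L : Type) [Field L] [Algebra K L] (x : Fin n → L),
      (∀ k, aeval x (G k) = 0) → (∀ k, aeval x (F (e k)) = 0) → aeval x A = 0 → x = 0)
    (e : Fin (s + 1) ↪ Fin (q + 1)) (L : Type) [Field L] [Algebra K L] (x : Fin n → L)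
    (hx : ∀ k, aeval x (G k) = 0)
    (hxe : ∀ k, aeval x ((Fin.snoc (α := fun _ => MvPolynomial (Fin n) K) F A :
      Fin (q + 1) → MvPolynomial (Fin n) K) (e k)) = 0) : x = 0 := by
  classical
  by_cases hl : ∃ k0, e k0 = Fin.last q
  · obtain ⟨k0, hk0⟩ := hl
    have hne : ∀ j : Fin s, e (k0.succAbove j) ≠ Fin.last q := by
      intro j h
      rw [← hk0] at h
      exact (Fin.succAbove_ne k0 j) (e.injective h)
    have hc : ∀ j, Fin.castSucc ((e (k0.succAbove j)).castPred (hne j)) = e (k0.succAbove j) :=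
      fun j => Fin.castSucc_castPred _ _
    refine hA ⟨fun j => (e (k0.succAbove j)).castPred (hne j), ?_⟩ L x hx (fun j => ?_) ?_
    · intro j j' h
      have h1 := congrArg Fin.castSucc h
      simp only at h1
      rw [hc, hc] at h1
      exact Fin.succAbove_right_injective (e.injective h1)
    · have h1 := hxe (k0.succAbove j)
      rw [← hc j, Fin.snoc_castSucc] at h1
      exact h1
    · have h1 := hxe k0
      rw [hk0, Fin.snoc_last] at h1
      exact h1
  · push Not at hl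
    have hc : ∀ j, Fin.castSucc ((e j).castPred (hl j)) = e j := fun j => Fin.castSucc_castPred _ _
    refine hgp ⟨fun j => (e j).castPred (hl j), ?_⟩ L x hx (fun j => ?_)
    · intro j j' h
      have h1 := congrArg Fin.castSucc h
      simp only at h1
      rw [hc, hc] at h1
      exact e.injective h1
    · have h1 := hxe j
      rw [← hc j, Fin.snoc_castSucc] at h1
      exact h1

/-- **The proximity to `Y`.** -/
theorem proxY {m q l p τ : ℕ} (hp : 1 ≤ p) (hrq : p + 1 + (τ + 1) ≤ q)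
    (G : Fin m → MvPolynomial (Fin n) K) (g : Fin m → ℕ) (hG : ∀ k, (G k).IsHomogeneous (g k))
    (hprime : (Ideal.span (Set.range G)).IsPrime)
    (htr : Algebra.trdeg K (MvPolynomial (Fin n) K ⧸ Ideal.span (Set.range G)) =
      ((p + 1 + (τ + 1) : ℕ) : Cardinal))
    (F : Fin q → MvPolynomial (Fin n) K) (d : Fin q → ℕ) (hd : ∀ i, 1 ≤ d i)
    (hF : ∀ i, (F i).IsHomogeneous (d i))
    (hgp : ∀ e : Fin (p + 1 + (τ + 1)) ↪ Fin q, ∀ (L : Type) [Field L] [Algebra K L]
      (x : Fin n → L), (∀ k, aeval x (G k) = 0) → (∀ k, aeval x (F (e k)) = 0) → x = 0)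
    (h : Fin l → ℕ) (hh : ∀ j, 1 ≤ h j) (H : Fin l → MvPolynomial (Fin n) K)
    (hH : ∀ j, (H j).IsHomogeneous (h j))
    (dP : Fin (τ + 1) → ℕ) (hdP : ∀ j, 1 ≤ dP j) (P : Fin (τ + 1) → MvPolynomial (Fin n) K)
    (hP : ∀ j, (P j).IsHomogeneous (dP j))
    (hY : ∀ (L : Type) [Field L] [Algebra K L] (x : Fin n → L),
      (∀ k, aeval x (G k) = 0) → (∀ j, aeval x (H j) = 0) → (∀ j, aeval x (P j) = 0) → x = 0)
    (hW : ∀ e : Fin (p + 1 + τ) ↪ Fin q, ∀ (L : Type) [Field L] [Algebra K L] (x : Fin n → L),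
      (∀ k, aeval x (G k) = 0) → (∀ k, aeval x (F (e k)) = 0) → (∀ j, aeval x (H j) = 0) →
        x = 0) :
    ∃ c : ℝ, 0 < c ∧ ∀ (S : Finset (Pl K)) (ε : ℝ),
      0 < ε → ∃ Z : MvPolynomial (Fin n) K, Z ∉ Ideal.span (Set.range G) ∧
      (∃ t, Z.IsHomogeneous t) ∧
      ∃ C : ℝ, ∀ x : Fin n → K, x ≠ 0 → (∀ k, aeval x (G k) = 0) →
        (∀ i, aeval x (F i) ≠ 0) → aeval x Z ≠ 0 →
          c * ∑ v ∈ S, wt v * max 0 (- Real.log (mu (av v) h H x)) ≤
            (((p + 1 + (τ + 1) : ℕ) : ℝ) + ε) * logHeight x + C -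
            ∑ v ∈ S, wt v * ∑ i, lam (av v) (d i) (F i) x / d i := by
  classical
  set D1 : ℕ := ∏ j, h j with hD1d
  have hD1 : 1 ≤ D1 := Nat.one_le_iff_ne_zero.2
    (Finset.prod_ne_zero_iff.2 fun i _ => (Nat.one_le_iff_ne_zero.1 (hh i)))
  have hhD : ∀ j, h j ∣ D1 := fun j => Finset.dvd_prod_of_mem h (Finset.mem_univ j)
  have hHpow : ∀ j, (H j ^ (D1 / h j)).IsHomogeneous D1 := fun j => by
    have := (hH j).pow (D1 / h j)
    rwa [Nat.mul_div_cancel' (hhD j)] at this
  have hDd0 : ∀ i, D1 / h i ≠ 0 := fun i => by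
    have := Nat.div_pos (Nat.le_of_dvd hD1 (hhD i)) (hh i)
    omega
  obtain ⟨cc, hcc⟩ := exists_avoid (s := p + 1 + τ) G g hG F d hd hF hrq hgp
    (fun j => H j ^ (D1 / h j)) hHpow (by
      intro e L _ _ x hx1 hx2 hx3
      refine hW e L x hx1 hx2 fun j => ?_
      have h1 := hx3 j
      rw [map_pow] at h1
      exact eq_zero_of_pow_eq_zero h1)
  set A : MvPolynomial (Fin n) K := ∑ i, cc i • H i ^ (D1 / h i) with hA
  have hAh : A.IsHomogeneous D1 := IsHomogeneous.sum _ _ _ fun i _ =>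
    (homogeneousSubmodule (Fin n) K D1).smul_mem _ (hHpow i)
  set F' : Fin (q + 1) → MvPolynomial (Fin n) K :=
    Fin.snoc (α := fun _ => MvPolynomial (Fin n) K) F A with hF'
  set d' : Fin (q + 1) → ℕ := Fin.snoc (α := fun _ => ℕ) d D1 with hd'
  have hF'1 : ∀ i, F' (Fin.castSucc i) = F i := fun i => by
    rw [hF', Fin.snoc_castSucc]
  have hF'2 : F' (Fin.last q) = A := by rw [hF', Fin.snoc_last]
  have hd'1 : ∀ i, d' (Fin.castSucc i) = d i := fun i => by
    rw [hd', Fin.snoc_castSucc]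
  have hd'2 : d' (Fin.last q) = D1 := by rw [hd', Fin.snoc_last]
  have hgp' : ∀ e : Fin (p + 1 + (τ + 1)) ↪ Fin (q + 1), ∀ (L : Type) [Field L] [Algebra K L]
      (x : Fin n → L), (∀ k, aeval x (G k) = 0) → (∀ k, aeval x (F' (e k)) = 0) → x = 0 :=
    fun e L _ _ x hx hxe => gp_snoc (s := p + 1 + τ) G F hgp A hcc e L x hx hxe
  -- `A` is not in the ideal
  have hAI : A ∉ Ideal.span (Set.range G) := by
    intro hAI
    -- the last `s + 1` forms of the extended family
    set e : Fin (p + 1 + τ) ↪ Fin q := Fin.castLEEmb (by omega) with he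
    set dd : ℕ := ∏ i, d' i with hdd
    have hd'1' : ∀ i, 1 ≤ d' i := by
      intro i
      refine Fin.lastCases ?_ (fun i => ?_) i
      · rw [hd'2]; exact hD1
      · rw [hd'1]; exact hd i
    have hdd1 : 1 ≤ dd := Nat.one_le_iff_ne_zero.2
      (Finset.prod_ne_zero_iff.2 fun i _ => (Nat.one_le_iff_ne_zero.1 (hd'1' i)))
    have hddv : ∀ i, d' i ∣ dd := fun i => Finset.dvd_prod_of_mem d' (Finset.mem_univ i)
    have hF'h : ∀ i, (F' i).IsHomogeneous (d' i) := by
      intro i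
      refine Fin.lastCases ?_ (fun i => ?_) i
      · rw [hd'2, hF'2]; exact hAh
      · rw [hd'1, hF'1]; exact hF i
    have hinj : Function.Injective (Fin.snoc (α := fun _ => Fin (q + 1))
        (fun k => Fin.castSucc (e k)) (Fin.last q) : Fin (p + 1 + τ + 1) → Fin (q + 1)) := by
      rw [Fin.snoc_injective_iff]
      refine ⟨fun a b hab => e.injective (Fin.castSucc_injective _ hab), ?_⟩
      rintro ⟨k, hk⟩
      exact (Fin.castSucc_ne_last _) hk
    set e' : Fin (p + 1 + (τ + 1)) ↪ Fin (q + 1) := ⟨_, hinj⟩ with he'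
    have halg := alg_ind G g hG dd hdd1 (fun k => F' (e' k) ^ (dd / d' (e' k))) (fun k => by
      have := (hF'h (e' k)).pow (dd / d' (e' k))
      rwa [Nat.mul_div_cancel' (hddv _)] at this) (by
      intro L _ _ x hx hxe
      refine hgp' e' L x hx fun k => ?_
      have h1 := hxe k
      rw [map_pow] at h1
      exact eq_zero_of_pow_eq_zero h1) hprime htr
    have hne := halg.ne_zero (Fin.last (p + 1 + τ))
    apply hne
    have h2 : e' (Fin.last (p + 1 + τ)) = Fin.last q := by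
      show (Fin.snoc (α := fun _ => Fin (q + 1)) (fun k => Fin.castSucc (e k)) (Fin.last q) :
        Fin (p + 1 + τ + 1) → Fin (q + 1)) (Fin.last (p + 1 + τ)) = Fin.last q
      rw [Fin.snoc_last]
    have h3 : Ideal.Quotient.mkₐ K (Ideal.span (Set.range G)) A = 0 :=
      Ideal.Quotient.eq_zero_iff_mem.2 hAI
    show Ideal.Quotient.mkₐ K (Ideal.span (Set.range G))
      (F' (e' (Fin.last (p + 1 + τ))) ^ (dd / d' (e' (Fin.last (p + 1 + τ))))) = 0
    rw [h2, hF'2, map_pow, h3, zero_pow]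
    have := Nat.div_pos (Nat.le_of_dvd hdd1 (hddv (Fin.last q))) (hd'1' _)
    omega
  have hD1' : (0 : ℝ) < D1 := by exact_mod_cast hD1
  refine ⟨1 / D1, by positivity, fun S ε hε => ?_⟩
  obtain ⟨c0, -, hpow⟩ := powB hp (by omega : p + 1 + (τ + 1) ≤ q + 1) G g hG hprime htr F' d' (by
    intro i
    refine Fin.lastCases ?_ (fun i => ?_) i
    · rw [hd'2]; exact hD1
    · rw [hd'1]; exact hd i) (by
    intro i
    refine Fin.lastCases ?_ (fun i => ?_) i
    · rw [hd'2, hF'2]; exact hAh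
    · rw [hd'1, hF'1]; exact hF i) hgp' h hh H hH dP hdP P hP hY
  obtain ⟨Z, hZI, ⟨t, hZh⟩, C, hC⟩ := hpow S ε hε
  obtain ⟨S1, R1, hR1, h1⟩ := out1 (ρ := 1) (σ := 0) h hh H hH hhD hD1 (fun _ => A)
    (fun _ => hAh) (fun _ => cc) (fun _ => rfl)
  obtain ⟨S2, R2, hR2, h2⟩ := form_ub' A hAh
  refine ⟨Z * A, ?_, ⟨_, hZh.mul hAh⟩,
    C + 1 / D1 * ∑ v ∈ S, wt v * (Real.log R1 + Real.log R2), ?_⟩
  · intro hZA
    rcases hprime.mem_or_mem hZA with h3 | h3
    · exact hZI h3
    · exact hAI h3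
  intro x hx hGx hFx hZx
  rw [map_mul] at hZx
  have hZ := left_ne_zero_of_mul hZx
  have hAx := right_ne_zero_of_mul hZx
  have h3 := (hC x hx hGx (by
    intro i
    refine Fin.lastCases ?_ (fun i => ?_) i
    · rw [hF'2]; exact hAx
    · rw [hF'1]; exact hFx i) hZ)
  obtain ⟨hHx, h4⟩ := h3
  have h5 := (h4 ∅ (Finset.disjoint_empty_right _) (by simp)).1
  have h6 : ∑ v ∈ S, wt v * ∑ i, lam (av v) (d' i) (F' i) x / d' i =
      ∑ v ∈ S, wt v * ∑ i, lam (av v) (d i) (F i) x / d i +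
        1 / D1 * ∑ v ∈ S, wt v * lam (av v) D1 A x := by
    rw [Finset.mul_sum, ← Finset.sum_add_distrib]
    refine Finset.sum_congr rfl fun v _ => ?_
    rw [Fin.sum_univ_castSucc, hF'2, hd'2]
    simp only [hF'1, hd'1]
    ring
  rw [h6] at h5
  have h7 : ∑ v ∈ S, wt v * max 0 (- Real.log (mu (av v) h H x)) ≤
      ∑ v ∈ S, wt v * lam (av v) D1 A x + ∑ v ∈ S, wt v * (Real.log R1 + Real.log R2) := by
    rw [← Finset.sum_add_distrib]
    refine Finset.sum_le_sum fun v _ => ?_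
    rw [← mul_add]
    refine mul_le_mul_of_nonneg_left ?_ (wt_nonneg v)
    have h8 : lam (av v) D1 A x = - Real.log (rho (av v) D1 A x) := by
      rw [← lam_rho, bc_self]
    have h9 := rho_pos (av v) D1 A hx hAx
    have h10 := (h2 v x hx).1
    have h11 := (h1 v x hx).2.1 0
    have hμ : 0 < mu (av v) h H x := by
      obtain ⟨j, hj⟩ := hHx
      exact (rho_pos (av v) (h j) (H j) hx hj).trans_le (le_mu _ _ _ _ j)
    have hl1 : 0 ≤ Real.log R1 := Real.log_nonneg hR1
    have hl2 : 0 ≤ Real.log R2 := Real.log_nonneg hR2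
    have h12 := Real.log_le_log h9 h10
    have h13 := Real.log_le_log h9 h11
    rw [Real.log_mul (by linarith) hμ.ne'] at h13
    rw [h8]
    refine max_le ?_ ?_
    · linarith
    · linarith
  have h14 := mul_le_mul_of_nonneg_left h7 (show (0 : ℝ) ≤ 1 / D1 by positivity)
  linarith

end Pool.Agent.H93.GT
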