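import Mathlib
import Pool.Agent.H93.GT.Prox

set_option autoImplicit false

/-!
The statement with the height over a set of places.
-/

namespace Pool.Agent.H93.GT

open MvPolynomial Finset Module Height NumberField IsDedekindDomain
open Pool.Agent.W180.OP Pool.Agent.W180.TP Pool.Agent.TH875

variable {K : Type} [Field K] [NumberField K] {n : ℕ}

/-- the height over a set of places is a finite sum over the places where the size is less
than one -/
theorem count_eq {l : ℕ} (h : Fin l → ℕ) (H : Fin l → MvPolynomial (Fin n) K)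
    (hH : ∀ j, (H j).IsHomogeneous (h j)) {x : Fin n → K} (hx : x ≠ 0)
    (hHx : ∃ j, aeval x (H j) ≠ 0) (A : Set (Pl K)) :
    ∃ T : Finset (Pl K), (∀ v ∈ T, v ∈ A ∧ 0 < - Real.log (mu (av v) h H x)) ∧
      (∑ᶠ (v : Pl K) (_ : v ∈ A), wt v * max 0 (- Real.log (mu (av v) h H x))) =
        ∑ v ∈ T, wt v * (- Real.log (mu (av v) h H x)) := by
  classical
  have hfin := mu_support h H hH hx hHx
  have hμ : ∀ v : Pl K, 0 < mu (av v) h H x := by
    intro v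
    obtain ⟨j, hj⟩ := hHx
    exact (rho_pos (av v) (h j) (H j) hx hj).trans_le (le_mu _ _ _ _ j)
  set T : Finset (Pl K) := hfin.toFinset.filter fun v => v ∈ A with hT
  have hTmem : ∀ v, v ∈ T ↔ mu (av v) h H x < 1 ∧ v ∈ A := by
    intro v
    rw [hT, Finset.mem_filter, Set.Finite.mem_toFinset]
    rfl
  have hlog : ∀ v, v ∈ T → 0 < - Real.log (mu (av v) h H x) := by
    intro v hv
    have := Real.log_neg (hμ v) ((hTmem v).1 hv).1
    linarith
  have e1 : (∑ᶠ (v : Pl K) (_ : v ∈ A), wt v * max 0 (- Real.log (mu (av v) h H x))) =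
      ∑ v ∈ T, wt v * max 0 (- Real.log (mu (av v) h H x)) := by
    refine finsum_cond_eq_sum_of_cond_iff _ ?_
    intro v hv
    rw [hTmem]
    refine ⟨fun h1 => ⟨?_, h1⟩, fun h1 => h1.2⟩
    by_contra hcon
    push Not at hcon
    apply hv
    have h2 := Real.log_nonneg hcon
    rw [max_eq_left (by linarith), mul_zero]
  have e2 : ∑ v ∈ T, wt v * max 0 (- Real.log (mu (av v) h H x)) =
      ∑ v ∈ T, wt v * (- Real.log (mu (av v) h H x)) :=
    Finset.sum_congr rfl fun v hv => by rw [max_eq_right (hlog v hv).le]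
  exact ⟨T, fun v hv => ⟨((hTmem v).1 hv).2, hlog v hv⟩, by rw [e1, e2]⟩

/-- the numbers -/
lemma num_sum {p : ℕ} {c1 c2 C1 h Δ m N : ℝ} (hc1 : 0 < c1) (hc2 : 0 < c2) (hC1 : 0 ≤ C1)
    (hh : 0 ≤ h) (_hΔ : 0 ≤ Δ) (hm : 0 ≤ m) (hN : 0 ≤ N) (hm1 : m ≤ C1 * (1 + h))
    (hm2 : c2 * m ≤ Δ) (hN1 : c1 * N ^ (p + 1) ≤ (1 + h) * Δ ^ p) :
    1 / (2 ^ p * (C1 / c2 ^ p + 1 / c1)) * (m + N) ^ (p + 1) ≤ (1 + h) * Δ ^ p := by
  have h1 : (m + N) ^ (p + 1) ≤ 2 ^ p * (m ^ (p + 1) + N ^ (p + 1)) := by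
    have := add_pow_le hm hN (p + 1)
    rwa [Nat.add_sub_cancel] at this
  have hm3 : m ^ p ≤ Δ ^ p / c2 ^ p := by
    rw [← div_pow]
    refine pow_le_pow_left₀ hm ?_ p
    rw [le_div_iff₀ hc2]
    linarith
  have h2 : m ^ (p + 1) ≤ C1 / c2 ^ p * ((1 + h) * Δ ^ p) := by
    rw [pow_succ, mul_comm]
    have h3 : m * m ^ p ≤ (C1 * (1 + h)) * (Δ ^ p / c2 ^ p) :=
      mul_le_mul hm1 hm3 (by positivity) (by positivity)
    refine h3.trans (le_of_eq ?_)
    ring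
  have h4 : N ^ (p + 1) ≤ 1 / c1 * ((1 + h) * Δ ^ p) := by
    rw [one_div, ← div_eq_inv_mul, le_div_iff₀ hc1]
    linarith
  have h5 : (m + N) ^ (p + 1) ≤ (2 ^ p * (C1 / c2 ^ p + 1 / c1)) * ((1 + h) * Δ ^ p) := by
    refine h1.trans ?_
    have h6 : (0 : ℝ) ≤ 2 ^ p := by positivity
    calc 2 ^ p * (m ^ (p + 1) + N ^ (p + 1)) ≤
        2 ^ p * (C1 / c2 ^ p * ((1 + h) * Δ ^ p) + 1 / c1 * ((1 + h) * Δ ^ p)) :=
          mul_le_mul_of_nonneg_left (add_le_add h2 h4) h6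
      _ = _ := by ring
  have h7 : (0 : ℝ) < 2 ^ p * (C1 / c2 ^ p + 1 / c1) := by positivity
  rw [one_div, ← div_eq_inv_mul, div_le_iff₀ h7]
  linarith

/-- the proximity function is bounded by the height -/
theorem mu_ub' {l : ℕ} (h : Fin l → ℕ) (H : Fin l → MvPolynomial (Fin n) K)
    (hH : ∀ j, (H j).IsHomogeneous (h j)) :
    ∃ C : ℝ, 0 ≤ C ∧ ∀ (x : Fin n → K), x ≠ 0 → (∃ j, aeval x (H j) ≠ 0) →
      ∀ T : Finset (Pl K), ∑ v ∈ T, wt v * max 0 (- Real.log (mu (av v) h H x)) ≤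
        C * (1 + logHeight x) := by
  classical
  obtain ⟨C, hC0, hC⟩ := mu_ub h H hH
  refine ⟨C, hC0, fun x hx hHx T => ?_⟩
  refine le_trans (le_of_eq ?_) (hC x hx hHx
    (T.filter fun v => 0 < - Real.log (mu (av v) h H x)))
  rw [← Finset.sum_filter_add_sum_filter_not T (fun v => 0 < - Real.log (mu (av v) h H x))]
  have h1 : ∑ v ∈ T.filter (fun v => ¬ 0 < - Real.log (mu (av v) h H x)),
      wt v * max 0 (- Real.log (mu (av v) h H x)) = 0 := by
    refine Finset.sum_eq_zero fun v hv => ?_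
    have := (Finset.mem_filter.1 hv).2
    rw [max_eq_left (by linarith), mul_zero]
  rw [h1, add_zero]
  refine Finset.sum_congr rfl fun v hv => ?_
  rw [max_eq_right (Finset.mem_filter.1 hv).2.le]

/-- the inequality for the height over a set of places -/
theorem final {m q l p τ : ℕ} (hp : 1 ≤ p) (hrq : p + 1 + (τ + 1) ≤ q)
    (G : Fin m → MvPolynomial (Fin n) K) (g : Fin m → ℕ) (hG : ∀ k, (G k).IsHomogeneous (g k))
    (hprime : (Ideal.span (Set.range G)).IsPrime)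
    (htr : Algebra.trdeg K (MvPolynomial (Fin n) K ⧸ Ideal.span (Set.range G)) =
      ((p + 1 + (τ + 1) : ℕ) : Cardinal))
    (F : Fin q → MvPolynomial (Fin n) K) (d : Fin q → ℕ) (hd : ∀ i, 1 ≤ d i)
    (hF : ∀ i, (F i).IsHomogeneous (d i))
    (hgp : ∀ e : Fin (p + 1 + (τ + 1)) ↪ Fin q, ∀ (L : Type) [Field L] [Algebra K L]
      (x : Fin n → L), (∀ k, aeval x (G k) = 0) → (∀ k, aeval x (F (e k)) = 0) → x = 0)
    (h : Fin l → ℕ) (hh : ∀ j, 1 ≤ h j) (H : Fin l → MvPolynomial (Fin n) K)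
    (hH : ∀ j, (H j).IsHomogeneous (h j))
    (hY : ∃ P : Fin (τ + 1) → MvPolynomial (Fin n) K,
      (∀ j, ∃ e, 1 ≤ e ∧ (P j).IsHomogeneous e) ∧
      ∀ (L : Type) [Field L] [Algebra K L] (x : Fin n → L),
      (∀ k, aeval x (G k) = 0) → (∀ j, aeval x (H j) = 0) → (∀ j, aeval x (P j) = 0) → x = 0) :
    ∃ c : ℝ, 0 < c ∧ ∀ (S : Finset (Pl K)) (ε : ℝ),
      0 < ε → ∃ Z : MvPolynomial (Fin n) K, Z ∉ Ideal.span (Set.range G) ∧
      (∃ t, Z.IsHomogeneous t) ∧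
      ∃ C : ℝ, ∀ x : Fin n → K, x ≠ 0 → (∀ k, aeval x (G k) = 0) →
        (∀ i, aeval x (F i) ≠ 0) → aeval x Z ≠ 0 → ∀ Δ : ℝ,
        Δ = (((p + 1 + (τ + 1) : ℕ) : ℝ) + ε) * logHeight x + C -
            ∑ v ∈ S, wt v * ∑ i, lam (av v) (d i) (F i) x / d i →
          0 ≤ Δ ∧ ∀ A : Set (Pl K), ((∀ v ∈ A, v ∉ S) ∨
            (∀ e : Fin (p + 1 + τ) ↪ Fin q, ∀ (L : Type) [Field L] [Algebra K L]
              (x : Fin n → L), (∀ k, aeval x (G k) = 0) → (∀ k, aeval x (F (e k)) = 0) →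
              (∀ j, aeval x (H j) = 0) → x = 0)) →
          c * (∑ᶠ (v : Pl K) (_ : v ∈ A), wt v * max 0 (- Real.log (mu (av v) h H x))) ^ (p + 1)
            ≤ (1 + logHeight x) * Δ ^ p := by
  classical
  obtain ⟨P, hP, hY⟩ := hY
  choose dP hdP hPh using hP
  obtain ⟨c1, hc1, h1⟩ := powB hp hrq G g hG hprime htr F d hd hF hgp h hh H hH dP hdP P hPh hY
  -- the case with the extra condition
  by_cases hW : ∀ e : Fin (p + 1 + τ) ↪ Fin q, ∀ (L : Type) [Field L] [Algebra K L]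
      (x : Fin n → L), (∀ k, aeval x (G k) = 0) → (∀ k, aeval x (F (e k)) = 0) →
      (∀ j, aeval x (H j) = 0) → x = 0
  · obtain ⟨c2, hc2, h2⟩ := proxY hp hrq G g hG hprime htr F d hd hF hgp h hh H hH dP hdP P hPh
      hY hW
    obtain ⟨C3, hC30, hC3⟩ := mu_ub' h H hH
    refine ⟨1 / (2 ^ p * (C3 / c2 ^ p + 1 / c1)), by positivity, fun S ε hε => ?_⟩
    obtain ⟨Z1, hZ1, ⟨t1, ht1⟩, C1, hC1⟩ := h1 S ε hε
    obtain ⟨Z2, hZ2, ⟨t2, ht2⟩, C2, hC2⟩ := h2 S ε hε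
    refine ⟨Z1 * Z2, fun hZ => ?_, ⟨_, ht1.mul ht2⟩, max C1 C2, ?_⟩
    · rcases hprime.mem_or_mem hZ with h3 | h3
      · exact hZ1 h3
      · exact hZ2 h3
    intro x hx hGx hFx hZx Δ hΔ
    rw [map_mul] at hZx
    obtain ⟨hHx, h3⟩ := hC1 x hx hGx hFx (left_ne_zero_of_mul hZx)
    have h4 := hC2 x hx hGx hFx (right_ne_zero_of_mul hZx)
    have hm1 := le_max_left C1 C2
    have hm2 := le_max_right C1 C2
    have hh0 := logHeight_nonneg x
    have hle : (((p + 1 + (τ + 1) : ℕ) : ℝ) + ε) * logHeight x + C1 -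
            ∑ v ∈ S, wt v * ∑ i, lam (av v) (d i) (F i) x / d i ≤ Δ := by
      rw [hΔ]
      linarith
    have hle2 : (((p + 1 + (τ + 1) : ℕ) : ℝ) + ε) * logHeight x + C2 -
            ∑ v ∈ S, wt v * ∑ i, lam (av v) (d i) (F i) x / d i ≤ Δ := by
      rw [hΔ]
      linarith
    have h5' := (h3 ∅ (Finset.disjoint_empty_right _) (by simp)).1
    refine ⟨h5'.trans hle, fun A _ => ?_⟩
    obtain ⟨T, hTA, hTe⟩ := count_eq h H hH hx hHx A
    have hT0 : ∀ T' : Finset (Pl K), T' ⊆ T →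
        0 ≤ ∑ v ∈ T', wt v * (- Real.log (mu (av v) h H x)) := fun T' hT' =>
      Finset.sum_nonneg fun v hv => mul_nonneg (wt_nonneg v) (hTA v (hT' hv)).2.le
    -- the two parts
    have hdis : Disjoint S (T \ S) := by
      rw [Finset.disjoint_left]
      intro v hv hv2
      exact (Finset.mem_sdiff.1 hv2).2 hv
    obtain ⟨h5, h6⟩ := h3 (T \ S) hdis (hT0 _ Finset.sdiff_subset)
    have hm0 : 0 ≤ ∑ v ∈ S, wt v * max 0 (- Real.log (mu (av v) h H x)) :=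
      Finset.sum_nonneg fun v _ => mul_nonneg (wt_nonneg v) (le_max_left _ _)
    have h7 : ∑ v ∈ T, wt v * (- Real.log (mu (av v) h H x)) ≤
        ∑ v ∈ S, wt v * max 0 (- Real.log (mu (av v) h H x)) +
          ∑ v ∈ T \ S, wt v * (- Real.log (mu (av v) h H x)) := by
      rw [← Finset.sum_inter_add_sum_sdiff T S]
      refine add_le_add ?_ le_rfl
      have h8 : ∑ v ∈ T ∩ S, wt v * (- Real.log (mu (av v) h H x)) ≤
          ∑ v ∈ T ∩ S, wt v * max 0 (- Real.log (mu (av v) h H x)) :=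
        Finset.sum_le_sum fun v _ => mul_le_mul_of_nonneg_left (le_max_right _ _) (wt_nonneg v)
      refine h8.trans ?_
      exact Finset.sum_le_sum_of_subset_of_nonneg Finset.inter_subset_right fun v _ _ =>
        mul_nonneg (wt_nonneg v) (le_max_left _ _)
    have h9 := num_sum (p := p) hc1 hc2 hC30 hh0 (h5.trans hle) hm0
      (hT0 _ Finset.sdiff_subset) (hC3 x hx hHx S) (h4.trans hle2)
      (h6.trans (mul_le_mul_of_nonneg_left (pow_le_pow_left₀ h5 hle p) (by linarith)))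
    rw [hTe]
    refine le_trans (mul_le_mul_of_nonneg_left (pow_le_pow_left₀ (hT0 _ (Finset.Subset.refl _))
      h7 (p + 1)) (by positivity)) h9
  · refine ⟨c1, hc1, fun S ε hε => ?_⟩
    obtain ⟨Z1, hZ1, ht1, C1, hC1⟩ := h1 S ε hε
    refine ⟨Z1, hZ1, ht1, C1, ?_⟩
    intro x hx hGx hFx hZx Δ hΔ
    obtain ⟨hHx, h3⟩ := hC1 x hx hGx hFx hZx
    have h5' := (h3 ∅ (Finset.disjoint_empty_right _) (by simp)).1
    rw [← hΔ] at h5'
    refine ⟨h5', fun A hA => ?_⟩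
    have hAS : ∀ v ∈ A, v ∉ S := by
      rcases hA with hA | hA
      · exact hA
      · exact absurd hA hW
    obtain ⟨T, hTA, hTe⟩ := count_eq h H hH hx hHx A
    have hST : Disjoint S T := by
      rw [Finset.disjoint_left]
      intro v hv hv2
      exact hAS v (hTA v hv2).1 hv
    have hT0 : 0 ≤ ∑ v ∈ T, wt v * (- Real.log (mu (av v) h H x)) :=
      Finset.sum_nonneg fun v hv => mul_nonneg (wt_nonneg v) (hTA v hv).2.le
    obtain ⟨h5, h6⟩ := h3 T hST hT0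
    rw [← hΔ] at h6
    rw [hTe]
    exact h6

end Pool.Agent.H93.GT
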